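import Pool.Agent.SDG.St

/-!
# SDG, module Kn (helper86): Kneser for aperiodic sums
-/

set_option autoImplicit false

noncomputable section

open Finset Pool.Agent.Helper64.Rho
open scoped Classical Pointwise

namespace Pool.Agent.SDG

variable {G : Type} [AddCommGroup G]

theorem Kn_left (A B : Finset G) (h : Aper (A + B)) : Aper A := by
  intro g hg
  apply h
  intro x hx
  obtain ⟨a, ha, b, hb, rfl⟩ := Finset.mem_add.1 hx
  have : a + b + g = (a + g) + b := by abel
  rw [this]
  exact Finset.add_mem_add (hg a ha) hb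

theorem Kn_one [Finite G] (A B : Finset G) (hA : A.Nonempty) (hB : B.Nonempty) (h : Aper (A + B)) :
    A.card + B.card ≤ (A + B).card + 1 := by
  have := Fintype.ofFinite G
  have h1 := Pool.Agent.Helper58.kneser_weak hA hB
  have h2 : Pool.Agent.Helper58.stab (A + B) = ⊥ := by
    rw [eq_bot_iff]
    intro g hg
    rw [AddSubgroup.mem_bot]
    apply h
    intro x hx
    rw [add_comm x g]
    exact (Pool.Agent.Helper58.mem_stab.1 hg x).2 hx
  have h3 : (Pool.Agent.Helper58.F (Pool.Agent.Helper58.stab (A + B))).card = 1 := by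
    rw [h2]
    have : Pool.Agent.Helper58.F (⊥ : AddSubgroup G) = {0} := by
      ext x
      simp
    rw [this, Finset.card_singleton]
  omega

theorem Kn_four [Finite G] (X : Finset G) (M : AddSubgroup G) (_hX : X.Nonempty) (hM : M ≠ ⊥)
    (hXM : ∀ x ∈ X, x ∈ M) (h : Aper X) : X.card + 1 ≤ Nat.card M := by
  have := Fintype.ofFinite G
  have hMc : Nat.card M = (Finset.univ.filter fun x : G => x ∈ M).card := by
    rw [Nat.card_eq_fintype_card, Fintype.card_subtype]
  rw [hMc]
  by_contra hcon
  have hsub : X ⊆ Finset.univ.filter fun x : G => x ∈ M := fun x hx => by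
    rw [Finset.mem_filter]; exact ⟨Finset.mem_univ _, hXM x hx⟩
  have heq : X = Finset.univ.filter fun x : G => x ∈ M :=
    Finset.eq_of_subset_of_card_le hsub (by omega)
  obtain ⟨⟨g, hg⟩, hg0⟩ := AddSubgroup.ne_bot_iff_exists_ne_zero.1 hM
  apply hg0
  apply Subtype.ext
  apply h
  intro x hx
  rw [heq, Finset.mem_filter] at hx ⊢
  exact ⟨Finset.mem_univ _, M.add_mem hx.2 hg⟩

theorem Kn_two [Finite G] (A B : Finset G) (M : AddSubgroup G) (hA : A.Nonempty) (hB : B.Nonempty)
    (hM : M ≠ ⊥) (hAM : ∀ x ∈ A, x ∈ M) (hBM : ∀ x ∈ B, x ∈ M) (h : Aper (A + B)) :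
    A.card + B.card ≤ Nat.card M := by
  have := Fintype.ofFinite G
  have hMc : Nat.card M = (Finset.univ.filter fun x : G => x ∈ M).card := by
    rw [Nat.card_eq_fintype_card, Fintype.card_subtype]
  by_contra hcon
  rw [hMc] at hcon
  push Not at hcon
  have hABM : ∀ x ∈ A + B, x ∈ M := by
    intro x hx
    obtain ⟨a, ha, b, hb, rfl⟩ := Finset.mem_add.1 hx
    exact M.add_mem (hAM a ha) (hBM b hb)
  have h4 := Kn_four (A + B) M (hA.add hB) hM hABM h
  have h5 : (Finset.univ.filter fun x : G => x ∈ M) ⊆ A + B := by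
    intro m hm
    have hm' := (Finset.mem_filter.1 hm).2
    have h6 : (A ∩ B.image fun b => m - b).Nonempty := by
      apply Finset.inter_nonempty_of_card_lt_card_add_card
        (s := Finset.univ.filter fun x : G => x ∈ M)
      · intro x hx
        exact Finset.mem_filter.2 ⟨Finset.mem_univ _, hAM x hx⟩
      · intro x hx
        obtain ⟨b, hb, rfl⟩ := Finset.mem_image.1 hx
        exact Finset.mem_filter.2 ⟨Finset.mem_univ _, M.sub_mem hm' (hBM b hb)⟩
      · rw [Finset.card_image_of_injective _ sub_right_injective]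
        exact hcon
    obtain ⟨x, hx⟩ := h6
    rw [Finset.mem_inter] at hx
    obtain ⟨b, hb, hxb⟩ := Finset.mem_image.1 hx.2
    exact Finset.mem_add.2 ⟨x, hx.1, b, hb, by rw [← hxb]; simp⟩
  have h7 := Finset.card_le_card h5
  omega

theorem thm_Kn : St_Kn := by
  intro G _ _
  refine ⟨Kn_one, Kn_two, ?_, Kn_four⟩
  intro A B _ _ h
  refine ⟨Kn_left A B h, Kn_left B A ?_⟩
  rwa [add_comm] at h

end Pool.Agent.SDG
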