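import Mathlib
import Pool.Agent.Helper64.Rho.Defs
import Pool.Agent.Helper64.Rho.Sums
import Pool.Agent.Helper64.Rho.Olson
import Pool.Agent.Helper58.Kneser

/-!
# SDG: sharp lower bounds for the number of subset sums (MP_ec93d3_co)

Captain helper86.  `FS s f` = all subfamily sums of the family `f` over `s` (Helper64.Rho), `lam T y` = number of elements of `T`
that leave `T` when `y` is added.  `cf g t = 1 + ∑_{i = 1}^t ⌈i / g⌉`.

Main theorem (`St_main`): a family of `t` nonzero elements of a finite abelian group, at most `2 h` of them equal to `± x` for each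
`x`, with APERIODIC set of sums, has at least `cf (2 h) t` sums if `h ≥ 2`; if `h = 1` it has at least `cf 2 t` sums or the group
that it generates has at most `J (J - 1)` elements more than the set of sums, `J = ⌈t / 2⌉`.

Every `St_X` is a statement; its proof is in the docstring.  A module proves `thm_X : St_A → St_B → ... → St_X`.
-/

set_option autoImplicit false

noncomputable section

open Finset Pool.Agent.Helper64.Rho
open scoped Classical Pointwise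

namespace Pool.Agent.SDG

/-- no nonzero period -/
def Aper {G : Type*} [AddCommGroup G] (X : Finset G) : Prop :=
  ∀ g : G, (∀ x ∈ X, x + g ∈ X) → g = 0

/-- at most `g` members of the family are equal to `x` or `-x`, for every `x` -/
def Cap {G ι : Type*} [AddCommGroup G] (g : ℕ) (s : Finset ι) (f : ι → G) : Prop :=
  ∀ x : G, (s.filter fun i => f i = x ∨ f i = -x).card ≤ g

/-- the subgroup generated by the family -/
def gen {G ι : Type*} [AddCommGroup G] (s : Finset ι) (f : ι → G) : AddSubgroup G :=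
  AddSubgroup.closure (f '' (s : Set ι))

/-- `1 + ∑_{i = 1}^t ⌈i / g⌉` -/
def cf (g t : ℕ) : ℕ := 1 + ∑ i ∈ range t, (i / g + 1)

/-- `⌈t / 2⌉` -/
def jj (t : ℕ) : ℕ := (t + 1) / 2

/-- iterated sums of a set: `it D 0 = {0}`, `it D (i + 1) = it D i + D` -/
def it {G : Type*} [AddCommGroup G] (D : Finset G) : ℕ → Finset G
  | 0 => {0}
  | (i + 1) => it D i + D

/-- `A + H` (as in Helper58.Kneser, but for `Finite`) : all `x` with `x - a ∈ H` for some `a ∈ A` -/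
def st {G : Type*} [AddCommGroup G] [Finite G] (A : Finset G) (H : AddSubgroup G) : Finset G :=
  (Set.toFinite {x : G | ∃ a ∈ A, x - a ∈ H}).toFinset

/-- the class of all abelian groups is `Type` -/
def TT (h t : ℕ) : Prop :=
  ∀ (G ι : Type) [AddCommGroup G] [Finite G] (s : Finset ι) (f : ι → G), s.card = t → (∀ i ∈ s, f i ≠ 0) →
    Cap (2 * h) s f → Aper (FS s f) → cf (2 * h) t ≤ (FS s f).card

def PP (t : ℕ) : Prop :=
  ∀ (G ι : Type) [AddCommGroup G] [Finite G] (s : Finset ι) (f : ι → G), s.card = t → (∀ i ∈ s, f i ≠ 0) →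
    Cap 2 s f → Aper (FS s f) →
      cf 2 t ≤ (FS s f).card ∨ Nat.card (gen s f) ≤ (FS s f).card + jj t * (jj t - 1)

/-- violating part -/
def Vio {G ι : Type*} [AddCommGroup G] (s : Finset ι) (f : ι → G) : Prop :=
  (FS s f).card < cf 2 s.card

/-! ## Numbers -/

/-- **Nm1** (0.5 h).  Closed forms.
(1) `cf g (t + 1) = cf g t + t / g + 1` is `sum_range_succ`.  (2) block formula by induction on `a` and then on `r` (for
`g a ≤ i < g a + g` one has `i / g = a`): `cf g (g a + r) = 1 + g a (a + 1) / 2 + r (a + 1)` for `r ≤ g`; to avoid the division: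
`2 cf g (g a + r) = 2 + g a (a + 1) + 2 r (a + 1)`.  (3) `cf 2 t = 1 + (t + 1) ^ 2 / 4`: `t = 2 a` or `2 a + 1`.
(4) monotone in `t`, antitone in `g`. -/
def St_Nm1 : Prop :=
  (∀ g t : ℕ, cf g (t + 1) = cf g t + t / g + 1) ∧
  (∀ g a r : ℕ, 1 ≤ g → r ≤ g → 2 * cf g (g * a + r) = 2 + g * a * (a + 1) + 2 * r * (a + 1)) ∧
  (∀ t : ℕ, cf 2 t = 1 + (t + 1) ^ 2 / 4) ∧
  (∀ g t t' : ℕ, t ≤ t' → cf g t ≤ cf g t') ∧
  (∀ g g' t : ℕ, 1 ≤ g → g ≤ g' → cf g' t ≤ cf g t) ∧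
  (∀ g t : ℕ, t + 1 ≤ cf g t)

/-- **Nm2** (0.5 h, from Nm1).  `2 cf 4 t ≥ cf 2 (t + 1)` and `8 cf 4 t ≥ t ^ 2 + 4 t + 8`.
Write `t = 4 a + r`, `r < 4`, and use the block formula: `cf 4 t = 1 + 2 a (a + 1) + r (a + 1)`, `cf 2 (t + 1) = 1 + (t + 2) ^ 2 / 4`.
`8 cf 4 t - t ^ 2 - 4 t - 8 = r (4 - r)`. -/
def St_Nm2 : Prop :=
  (∀ t : ℕ, cf 2 (t + 1) ≤ 2 * cf 4 t) ∧ (∀ t : ℕ, t ^ 2 + 4 * t + 8 ≤ 8 * cf 4 t)

/-- **Nm3** (0.7 h, from Nm1).  Splitting: if `P` is a finset with `h` elements (`h ≥ 1`) then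
`cf (2 h) (∑_{k ∈ P} a k) - 1 ≤ ∑_{k ∈ P} (cf 2 (a k) - 1)`.
Tangent lines: for all `q ≥ 1` and `τ`: `q τ ≤ (cf 2 τ - 1) + q (q - 1)` (i.e. with `cf 2 τ - 1 = (τ + 1) ^ 2 / 4`; for `τ = 2 b`:
`b (b + 1) - 2 b q + q (q - 1) = (b - q) (b - q + 1) ≥ 0`, for `τ = 2 b - 1`: `b ^ 2 - (2 b - 1) q + q ^ 2 - q = (b - q) ^ 2 ≥ 0`).
Let `t = ∑ a k`.  If `t = 0` both sides are `0`.  Otherwise `t = 2 h a + r` with `1 ≤ r ≤ 2 h`, `q = a + 1`; the block formula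
(`g = 2 h`) gives `cf (2 h) t - 1 = h a (a + 1) + r (a + 1) = q t - h q (q - 1)`, and the sum of the tangent inequalities is
`q t ≤ ∑ (cf 2 (a k) - 1) + h q (q - 1)`. -/
def St_Nm3 : Prop :=
  ∀ (κ : Type) (P : Finset κ) (a : κ → ℕ), 1 ≤ P.card →
    cf (2 * P.card) (∑ k ∈ P, a k) ≤ 1 + ∑ k ∈ P, (cf 2 (a k) - 1)

/-- **Nm4** (1.5 h, from Nm1, Nm2).  THE INEQUALITY.  `J = jj (s + u)`.
Proof.  Put `q = m Q`.  Since `i < 2 m l (i / (2 m l) + 1)` we have `i / (2 l) < m (i / (2 m l) + 1)`, i.e.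
`i / (2 l) + 1 ≤ m (i / (2 m l) + 1)`; summing, `q ≥ m cf (2 m l) u ≥ cf (2 l) u =: q0`.  So (A) `X ≥ q0 Y` and
(B) `X + (J - 1) (l - Y) ≥ l q0` (for (B): `X + (J-1)(l-Y) ≥ l q ≥ l q0`).
Facts: (F1) `q0 ≥ u + 1`; (F2) `4 l q0 ≥ 4 l + u ^ 2 + 2 l u` (block formula for `g = 2 l`, `u = 2 l a + r`: the difference is
`r (2 l - r)`); (F3) `4 cf 2 t ≤ 4 + (t + 1) ^ 2`; (F4) `8 Y ≥ 8 cf 4 s ≥ s ^ 2 + 4 s + 8`; (F5) `s + u - 2 ≤ 2 (J - 1) ≤ s + u - 1`.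
By (F3) it is enough to show `4 X ≥ 4 + (s + u + 1) ^ 2` (all in `ℤ` or `ℝ`).
* `s = 1`: `Y ≥ 2`; (B), (F2), (F5): `4 X ≥ 4 l + u^2 + 2 l u - 2 u (l - Y) = 4 l + u^2 + 2 u Y ≥ 12 + u^2 + 4 u ≥ 4 + (u+2)^2`.
* `s = 2`: `Y ≥ 3`, `l ≥ 4`: `4 X ≥ 4 l + u^2 + 2 l u - 2 (u+1) (l - Y) = u^2 + 2 l + 2 u Y + 2 Y ≥ u^2 + 6 u + 14 ≥ 4 + (u+3)^2`.
* `s = 3`: `Y ≥ 5`: `4 X ≥ 4 l + u^2 + 2 l u - 2 (u+2) (l - Y) = u^2 + 2 u Y + 4 Y ≥ u^2 + 10 u + 20 ≥ 4 + (u + 4)^2`.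
* `s ≥ 4`, `2 (u - 1) ≤ s ^ 2`: (A), (F1), (F4): `8 X ≥ (u+1) (s^2 + 4 s + 8)` and
  `(u+1) (s^2+4s+8) - 8 - 2 (s+u+1)^2 = (u-1) (s^2 - 2 (u-1)) ≥ 0`.
* `s ≥ 4`, `2 (u - 1) > s ^ 2`.  Then `2 Y ≥ 3 s - 1` (`s = 4`: `Y ≥ 6`; `s = 5`: `8 Y ≥ 53` so `Y ≥ 7`; `s ≥ 6`: `8 Y ≥ s^2+4s+8` and
  `s^2 + 4 s + 8 - 4 (3 s - 1) = (s-2)(s-6)`), and `u ≥ s`.
  - `u ≤ 2 l`: (B), (F1): `X ≥ l (u + 1) - (J-1)(l - Y) = l (u + 2 - J) + (J - 1) Y`, `2 (u + 2 - J) ≥ u + 3 - s ≥ 0`, `2 l ≥ u`: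
    `4 X ≥ u (u + 3 - s) + 2 (s + u - 2) Y`; minus `4 + (s+u+1)^2` this is `u (2 Y + 1 - 3 s) + 2 (s - 2) Y - (s+1)^2 - 4`, which for
    `s ≥ 5` is `≥ (s-2)(3s-1) - (s+1)^2 - 4 = 2 s^2 - 9 s - 3 ≥ 2`, and for `s = 4` (`Y ≥ 6`, `u ≥ 10`): `u (2 Y - 11) + 4 Y - 29 ≥ 5`.
  - `u > 2 l`: (B), (F2): `4 X ≥ u^2 + 2 u Y + 2 (s-1) Y - 2 (s-3) l`; minus `4 + (s+u+1)^2`:
    `u (2 Y - 2 s - 2) - 2 (s-3) l + 2 (s-1) Y - (s+1)^2 - 4 ≥ (u - 2 l)(s-3) + (s-1)(3s-1) - (s+1)^2 - 4 ≥ 2 s^2 - 6 s - 4 ≥ 4`. -/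
def St_Nm4 : Prop :=
  ∀ m l s u Y Q X : ℕ, 1 ≤ m → 3 ≤ l → 1 ≤ s → 1 ≤ u → Y < l → cf 4 s ≤ Y → (s = 3 → 5 ≤ Y) → (s = 4 → 6 ≤ Y) →
    cf (2 * (m * l)) u ≤ Q → m * Q * Y ≤ X → m * l * Q ≤ X + (jj (s + u) - 1) * (l - Y) → cf 2 (s + u) ≤ X

/-- **Nm5** (0.6 h, from Nm1).  Comparisons for the exchange argument; `b τ := cf 2 τ + jj τ * (jj τ - 1)`
(`τ = 2 J`: `b = 1 + 2 J^2`; `τ = 2 J - 1`: `b = 1 + 2 J^2 - J`), and `cf 4 (4a+r) = 1 + 2 a (a+1) + r (a+1)`.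
(1) `|τ - σ| ≤ 1`, not (`τ` odd and `τ = σ + 1`), `τ + σ ≥ 1`: `b τ < cf 4 (τ + σ - 1) + 2`.
   (`τ = 2J, σ ≥ 2J-1`: `cf 4 (4J-2) = 1 + 2J^2`; `τ = 2J-1, σ ≥ 2J-1`: `cf 4 (4J-3) = 1 + 2J^2 - J`.)
(2) `σ = 2 I`: `b σ < cf 4 (2 σ) + 2` (used for `τ` even and two copies), more precisely `cf 2 τ + jj τ (jj τ - 1) < cf 4 (2 τ) + 2`.
(3) for `I ≥ 1`: `cf 2 (2I-2) + (I-1) (I-2) < cf 4 (4I-4) + 2`  (`1 + 2 (I-1)^2 < 2 I^2 - 2 I + 3`).
(4) for `J ≥ 1`: `J (J-1) + (J-1) (J-2) < cf 4 (4J-4) + 1` and `J (J-1) < cf 2 (2J-2)`. -/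
def St_Nm5 : Prop :=
  (∀ τ σ : ℕ, 1 ≤ τ → τ ≤ σ + 1 → σ ≤ τ + 1 → ¬ (τ % 2 = 1 ∧ τ = σ + 1) →
    cf 2 τ + jj τ * (jj τ - 1) < cf 4 (τ + σ - 1) + 2) ∧
  (∀ τ : ℕ, cf 2 τ + jj τ * (jj τ - 1) < cf 4 (2 * τ) + 2) ∧
  (∀ I : ℕ, 1 ≤ I → cf 2 (2 * I - 2) + jj (2 * I - 2) * (jj (2 * I - 2) - 1) < cf 4 (4 * I - 4) + 2) ∧
  (∀ J : ℕ, 1 ≤ J → J * (J - 1) + (J - 1) * (J - 2) < cf 4 (4 * J - 4) + 1 ∧ J * (J - 1) < cf 2 (2 * J - 2))

/-! ## Sums, periods -/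

/-- **Ba1** (0.8 h).  Elementary facts on `FS`, `lam`, `Aper`, `gen` (see Helper64.Rho.Sums / Olson: `mem_FS_union`, `FS_insert`,
`card_union_shift`, `lam_neg`, `lam_add`).
(1) `FS (s ∪ t) f = FS s f + FS t f` for disjoint `s t`.  (2) `Aper (A + B)`, `B` (resp. `A`) nonempty: a period `g` of `A` is a period of `A + B`; so
`Aper A`; in particular `Aper` passes from `FS s f` to `FS t f`, `t ⊆ s`.  (3) for `i ∈ s`: with `S' = FS (s.erase i) f`,
`FS s f = S' ∪ (S' + f i)`, `|FS s f| = |S'| + lam S' (f i)`, and `lam (FS s f) (f i) ≤ lam S' (f i)`: an element `b` of `FS s f` with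
`b + f i ∉ FS s f` is not in `S'` (otherwise `b + f i ∈ S' + f i`), so `b = c + f i`, `c ∈ S'`, and `c ↦` ...: `c + f i = b`; `c + f i ∉ S'`
because `b ∈ S'` would be excluded; so `b ↦ b - f i` injects into the elements `c` of `S'` with `c + f i ∉ S'`.  (4) drop: if
`f i ∉ gen (s.erase i) f` then `S'` and `S' + f i` are disjoint (`S' ⊆ gen (s.erase i) f`), so `|FS s f| = 2 |S'|`.
(5) no involution: if `Aper (FS s f)`, `i ∈ s`, `f i ≠ 0` then `f i ≠ - f i` (else `FS s f + f i = FS s f`).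
(6) if `f i ∈ gen (s.erase i) f` then `gen (s.erase i) f = gen s f`. -/
def St_Ba1 : Prop :=
  ∀ (G ι : Type) [AddCommGroup G] (f : ι → G),
    (∀ s t : Finset ι, Disjoint s t → FS (s ∪ t) f = FS s f + FS t f) ∧
    (∀ s t : Finset ι, t ⊆ s → Aper (FS s f) → Aper (FS t f)) ∧
    (∀ (s : Finset ι) (i : ι), i ∈ s → (FS (s.erase i) f).card + lam (FS s f) (f i) ≤ (FS s f).card) ∧
    (∀ (s : Finset ι) (i : ι), i ∈ s → f i ∉ gen (s.erase i) f → (FS s f).card = 2 * (FS (s.erase i) f).card) ∧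
    (∀ (s : Finset ι) (i : ι), i ∈ s → Aper (FS s f) → f i ≠ 0 → f i ≠ - f i) ∧
    (∀ (s : Finset ι) (i : ι), i ∈ s → f i ∈ gen (s.erase i) f → gen (s.erase i) f = gen s f) ∧
    (∀ (s : Finset ι), ∀ x ∈ FS s f, x ∈ gen s f)

/-- **Kn** (0.8 h, uses `Pool.Agent.Helper58.kneser_weak`).
(1) `A`, `B` nonempty, `Aper (A + B)`: `|A| + |B| ≤ |A + B| + 1` (the stabiliser of `A + B` is `⊥`, its `F` has one element).
(2) if moreover `A, B ⊆ M`, `M ≠ ⊥` a subgroup, then `|A| + |B| ≤ |M|`: otherwise for every `m ∈ M` the sets `A` and `m - B` meet, so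
`A + B = M` which has a nonzero period.
(3) `Aper (A + B)`, `A`, `B` nonempty implies `Aper A` and `Aper B`.
(4) `Aper X`, `X ⊆ M`, `X` nonempty, `M ≠ ⊥`: `|X| + 1 ≤ |M|`. -/
def St_Kn : Prop :=
  ∀ (G : Type) [AddCommGroup G] [Finite G],
    (∀ A B : Finset G, A.Nonempty → B.Nonempty → Aper (A + B) → A.card + B.card ≤ (A + B).card + 1) ∧
    (∀ (A B : Finset G) (M : AddSubgroup G), A.Nonempty → B.Nonempty → M ≠ ⊥ → (∀ x ∈ A, x ∈ M) → (∀ x ∈ B, x ∈ M) →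
      Aper (A + B) → A.card + B.card ≤ Nat.card M) ∧
    (∀ A B : Finset G, A.Nonempty → B.Nonempty → Aper (A + B) → Aper A ∧ Aper B) ∧
    (∀ (X : Finset G) (M : AddSubgroup G), X.Nonempty → M ≠ ⊥ → (∀ x ∈ X, x ∈ M) → Aper X → X.card + 1 ≤ Nat.card M)

/-- **Kp** (0.6 h, from Ba1, Kn).  Kneser for a coloured family: if `c : ι → κ` maps `s` into `P` and `Aper (FS s f)` then
`1 + ∑_{k ∈ P} (|FS (s.filter (c · = k)) f| - 1) ≤ |FS s f|`.  Induction on `P` (statement for all `s` with colours in `P`):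
`s = s' ∪ s_k` disjoint, `FS s f = FS s' f + FS s_k f`, `Aper` passes to `FS s' f`. -/
def St_Kp : Prop :=
  ∀ (G ι κ : Type) [AddCommGroup G] [Finite G] (s : Finset ι) (f : ι → G) (c : ι → κ) (P : Finset κ),
    (∀ i ∈ s, c i ∈ P) → Aper (FS s f) →
      1 + ∑ k ∈ P, ((FS (s.filter fun i => c i = k) f).card - 1) ≤ (FS s f).card

/-- **Sm** (0.8 h, from Ba1, Kn).  Small families.  `Aper (FS s f)`, all `f i ≠ 0`: `|s| + 1 ≤ |FS s f|` (each new element adds at least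
one new sum, otherwise it is a period: if `|FS (s.erase i) f| = |FS s f|` then `FS s f = FS (s.erase i) f` is stable under `+ f i`);
and if `Cap 2` and `3 ≤ |s|` then `|s| + 2 ≤ |FS s f|`: there are `a, b ∈ s` with `f b ≠ ± f a` (take `a ∈ s`; at most two indices `i` have
`f i = ± f a`); `0, f a, f b, f a + f b` are four different sums (`f a ≠ 0`, `f b ≠ 0`, `f b ≠ f a`, `f a + f b ≠ 0`), and every further
element adds at least one. -/
def St_Sm : Prop :=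
  ∀ (G ι : Type) [AddCommGroup G] (s : Finset ι) (f : ι → G), (∀ i ∈ s, f i ≠ 0) → Aper (FS s f) →
    s.card + 1 ≤ (FS s f).card ∧ (Cap 2 s f → 3 ≤ s.card → s.card + 2 ≤ (FS s f).card)

/-- **Tr** (1 h).  Transfer to the generated subgroup: there is a family in a group `M` (take `M = gen s f` itself, values
`⟨f i, _⟩` for `i ∈ s`, `0` outside) that generates `M` and has the same data.  `FS s f` is the image of `FS s f'` under the
injective homomorphism `M → G`, so the cardinalities agree; a period `g : M` of `FS s f'` is a period of `FS s f`. -/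
def St_Tr : Prop :=
  ∀ (G ι : Type) [AddCommGroup G] [Finite G] (s : Finset ι) (f : ι → G),
    ∃ f' : ι → (gen s f), (∀ i ∈ s, (f' i : G) = f i) ∧ gen s f' = ⊤ ∧ (FS s f').card = (FS s f).card ∧
      (Aper (FS s f) → Aper (FS s f')) ∧ (∀ g, Cap g s f → Cap g s f') ∧ ((∀ i ∈ s, f i ≠ 0) → ∀ i ∈ s, f' i ≠ 0)

/-- **Qu** (1.2 h, from Ba1).  Quotient by a subgroup `K`.  `s' = s.filter (f i ∉ K)`, `f̄ i = mk (f i)`.
(1) `FS s' f̄ = (FS s f).image mk` (`FS s f̄ = FS s' f̄` because the other members are `0`); (2) `|K| |FS s' f̄| = |st (FS s f) K|`;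
(3) if every `g` with `st (FS s f) K + g ⊆ st (FS s f) K` lies in `K` then `Aper (FS s' f̄)`;
(4) `Cap 2 s f` implies `Cap (2 |K|) s' f̄`: given `x̄ = mk x`, an index `i` with `mk (f i) = ± x̄` is mapped to `f i` or `- f i`, whichever lies in
`x + K`; the coset has `|K|` elements, and at most two indices are mapped to the same `y` (`f i = ± y`).
(5) all `f̄ i ≠ 0` for `i ∈ s'`. -/
def St_Qu : Prop :=
  ∀ (G ι : Type) [AddCommGroup G] [Finite G] (s : Finset ι) (f : ι → G) (K : AddSubgroup G),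
    let s' := s.filter fun i => f i ∉ K
    let fb : ι → G ⧸ K := fun i => (QuotientAddGroup.mk (f i) : G ⧸ K)
    FS s' fb = (FS s f).image (fun x => (QuotientAddGroup.mk x : G ⧸ K)) ∧
    Nat.card K * (FS s' fb).card = (st (FS s f) K).card ∧
    ((∀ g : G, (∀ x ∈ st (FS s f) K, x + g ∈ st (FS s f) K) → g ∈ K) → Aper (FS s' fb)) ∧
    (Cap 2 s f → Cap (2 * Nat.card K) s' fb) ∧ (∀ i ∈ s', fb i ≠ 0)

/-! ## Averaging and growth -/

/-- **Av** (1.5 h, uses `Helper64.Rho.sum_cnt`, `lam_add`).  Averaging.  `0 ∈ D`, `lam X y ≤ j` on `D`, `x = |X|`, `J = j + 1`,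
`J (J - 1) + 1 ≤ x`, and `2 i J + 1 ≤ |it D i|` or `2 x ≤ |it D i|` for all `i`: impossible.
Proof.  `lam X y ≤ i j` for `y ∈ it D i` (subadditivity).  `cnt X v ≥ |it D i|` if `i j ≤ v`.  So for every `k` with `k j ≤ x`, from
`∑_{v < x} cnt X v = x ^ 2`, splitting `[0, x)` into the `k` blocks `[i j, (i+1) j)`, `i < k`, and `[k j, x)`:
`(*)  j ∑_{i < k} |it D i| + (x - k j) |it D k| ≤ x ^ 2`.
Let `k = ⌈x / J⌉` : `(k - 1) J + 1 ≤ x ≤ k J`.  As `x ≥ J (J-1) + 1` we have `k ≥ J`, and `k j = k J - k ≤ x + J - 1 - k < x`.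
For `i < k`: `2 i J + 1 ≤ 2 (k-1) J + 1 ≤ 2 x - 1`, so in both cases `|it D i| ≥ 2 i J + 1`; and `|it D k| ≥ 2 x`.  `(*)`:
`j (J k (k-1) + k) + 2 x (x - k j) ≤ x ^ 2`, i.e. `(x - k j)^2 + j k (k - J + 1) ≤ 0`; but `x > k j`.  Contradiction. -/
def St_Av : Prop :=
  ∀ (G : Type) [AddCommGroup G] [Finite G] (X D : Finset G) (j : ℕ), (0 : G) ∈ D → (∀ y ∈ D, lam X y ≤ j) →
    (j + 1) * j + 1 ≤ X.card →
    (∀ i, 2 * i * (j + 1) + 1 ≤ (it D i).card ∨ 2 * X.card ≤ (it D i).card) → False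

/-- **Gr** (1.8 h, from Kn).  Growth.  `D = -D`, `0 ∈ D`, `D` generates `G`, `2 J + 1 ≤ |D|`, and `|it D i| < 2 i J + 1`,
`|it D i| < |G|` for some `i`.  Then there is a subgroup `H` with `|H| + 1 ≤ J` that contains a nonzero element of `D`.
Proof.  `i ≥ 1` (`|it D 0| = 1`).  `H` = all periods `g` of `it D i` (`it D i + g ⊆ it D i`; a subgroup since finite).
`D̄` = image of `D` in `G/H`, `d = |D̄|`.  The image of `it D i` in `G/H` is `it D̄ i`, it is aperiodic, and `|it D i| = |H| |it D̄ i|`.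
By (1) and (3) of Kn and induction on `i`: `|it D̄ i| ≥ i (d - 1) + 1`.  `H ≠ G` as `|it D i| < |G|` and `it D i` is a nonempty union
of `H`-cosets; so `d ≥ 2` (`D` generates `G`).  `d ≠ 2`: `D̄ = {0, u}`, `u ≠ 0`, `-u ∈ D̄`, `-u ≠ 0` so `-u = u`, and `it D̄ i = {0, u}` is
`u`-periodic, contradiction.  So `d ≥ 3`, `|H| (2 i + 1) ≤ |it D i| ≤ 2 i J`, hence `|H| < J`.  If `D ∩ H = {0}` then
`|D| ≤ 1 + (d - 1) |H|` (each of the other `d - 1` cosets contains at most `|H|` elements) and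
`|it D i| ≥ i (d-1) |H| + |H| ≥ i (|D| - 1) + 1 ≥ 2 i J + 1`, contradiction.  (In particular if `H = ⊥`.) -/
def St_Gr : Prop :=
  ∀ (G : Type) [AddCommGroup G] [Finite G] (D : Finset G) (J i : ℕ), (0 : G) ∈ D → (∀ y ∈ D, -y ∈ D) →
    AddSubgroup.closure (D : Set G) = ⊤ → 2 * J + 1 ≤ D.card →
    (it D i).card < 2 * i * J + 1 → (it D i).card < Nat.card G →
      ∃ H : AddSubgroup G, Nat.card H + 1 ≤ J ∧ ∃ y ∈ D, y ≠ 0 ∧ y ∈ H

/-- **Pc** (1.8 h, from Ba1, Sm).  Partial cosets.  `L` a subgroup generated by the members of the family in it; `T = FS s f`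
aperiodic; `lam T (f i) ≤ j` for all `i ∈ s` with `f i ∈ L`.  Then (with `s_L = s.filter (f i ∈ L)`, `Y = |FS s_L f|`, `l = |L|`)
(1) `|st T L| ≤ |T| + j (l - Y)`, (2) `|st T L| Y ≤ l |T|`.
Proof.  `T = FS s_L f + FS s' f`, so every `L`-coset `C` that meets `T` contains a translate of `FS s_L f`: `|T ∩ C| ≥ Y`.  This is (2)
(`|st T L| = l *` number of these cosets).  (1): it is enough that at most `j` cosets are partial (`∅ ≠ T ∩ C ≠ C`); a partial one misses at most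
`l - Y` elements.  Let `C` be partial, `R` = group of periods of `T_C = T ∩ C`; `R ⊆ L`, `R ≠ L`.  Let `a = #{i ∈ s_L | f i ∈ R}`, `b = |s_L|`; as
`s_L` generates `L`, `b - a ≥ 1`.  For `i ∈ s_L` with `f i ∉ R`: `lam T_C (f i) ≥ |R|` (the set `{x ∈ T_C | x + f i ∉ T_C}` is nonempty and `R`-periodic).
By Sm for `FS` of the members in `R`: `a + 1 ≤ |FS| `, and this set is aperiodic in `R`, so `a + 2 ≤ |R|` or `R = ⊥, a = 0`; in both cases `a ≤ |R| - 1`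
and `∑_{i ∈ s_L} lam T_C (f i) ≥ |R| (b - a) = (b - a) + (|R| - 1) (b - a) ≥ (b - a) + a = b`.
Sum over the partial cosets: `b p ≤ ∑_{i ∈ s_L} ∑_C lam T_C (f i) = ∑_{i ∈ s_L} lam T (f i) ≤ b j` (for `y ∈ L`:
`lam T y = ∑_C lam T_C y`), and `b ≥ 1`, so `p ≤ j`.  (If `s_L = ∅` then `L = ⊥` and `st T L = T`: trivial.) -/
def St_Pc : Prop :=
  ∀ (G ι : Type) [AddCommGroup G] [Finite G] (s : Finset ι) (f : ι → G) (L : AddSubgroup G) (j : ℕ),
    (∀ i ∈ s, f i ≠ 0) → Aper (FS s f) → gen (s.filter fun i => f i ∈ L) f = L →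
    (∀ i ∈ s, f i ∈ L → lam (FS s f) (f i) ≤ j) →
      (st (FS s f) L).card ≤ (FS s f).card + j * (Nat.card L - (FS (s.filter fun i => f i ∈ L) f).card) ∧
      (st (FS s f) L).card * (FS (s.filter fun i => f i ∈ L) f).card ≤ Nat.card L * (FS s f).card

/-- **Ds** (0.8 h, from Ba1).  The symmetric set of a family: `D = {0} ∪ {f i} ∪ {- f i}` contains `0`, is symmetric, generates
`gen s f`, and `2 jj |s| + 1 ≤ |D|` if `Cap 2 s f`, all `f i ≠ 0`, `Aper (FS s f)`.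
Counting: `∑_{y ∈ D \ 0} #{i ∈ s | f i = y ∨ f i = -y} = 2 |s|` (each `i` is counted for `y = f i` and `y = - f i`, which are different by Ba1 (5)),
each term is `≤ 2`, so `|D \ 0| ≥ |s|`; and `|D \ 0|` is even (`y ↦ -y` has no fixed point on it, Ba1 (5)). -/
def St_Ds : Prop :=
  ∀ (G ι : Type) [AddCommGroup G] (s : Finset ι) (f : ι → G), (∀ i ∈ s, f i ≠ 0) → Aper (FS s f) → Cap 2 s f →
    ∃ D : Finset G, (0 : G) ∈ D ∧ (∀ y ∈ D, -y ∈ D) ∧ (∀ y ∈ D, y ≠ 0 → ∃ i ∈ s, f i = y ∨ f i = -y) ∧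
      AddSubgroup.closure (D : Set G) = gen s f ∧ 2 * jj s.card + 1 ≤ D.card

/-! ## The two steps of the induction -/

/-- **P1** (1.5 h, from Nm1, Nm2, Nm4, Ba1, Kn, Sm, Qu, Pc).  The subgroup case.  Family `s` with `Cap 2`, `gen s f = ⊤`, `T = FS s f` aperiodic,
`j = jj t - 1`, `lam T (f i) ≤ j` for all `i ∈ s`, `|T| < cf 2 t`, `H` a subgroup with `|H| ≤ j` that contains some `f i`; then
`|G| ≤ |T| + j (j + 1)`.
Proof.  `L0 = gen (s.filter (f i ∈ H)) f ≤ H`, `l0 = |L0|`, `K` = group of the periods of `st T L0`.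
If `K = ⊤`: `st T L0 = G`; Pc (1) for `L0` (`gen (s.filter (f i ∈ L0)) f = L0`): `|G| ≤ |T| + j (l0 - Y0) ≤ |T| + j j`.
If `K ≠ ⊤`: `L1 = gen (s.filter (f i ∈ K)) f`, `L0 ≤ L1 ≤ K`, `s.filter (f i ∈ L1) = s.filter (f i ∈ K)`; `st T L1 = st T L0 = st T K`
(`st T L0` is stable under `K`).  `u = #{i ∈ s | f i ∉ K} ≥ 1` since `gen s f = ⊤`; `b = t - u ≥ 1` since some `f i ∈ H`, and that `f i ∈ L0 ≤ K`.
`Y = |FS (s.filter (f i ∈ K)) f|`, `l = |L1|`: `2 ≤ Y`, `Y + 1 ≤ l` (Kn (4)), so `l ≥ 3`; `|K| = m l` (Lagrange).  `Q = |FS s' f̄|` in `G/K` (Qu):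
`m l Q = |st T K|`, `Q ≥ cf (2 (m l)) u` by `TT |K| u` (`u < t`, `|K| ≥ 2`; aperiodic by Qu (3), cap by Qu (4)).
`Y ≥ cf 4 b` by `TT 2 b` (`b < t`), `b = 3 → Y ≥ 5`, `b = 4 → Y ≥ 6` by Sm.  Pc (1), (2) for `L1`: `m l Q ≤ |T| + j (l - Y)` and
`m l Q Y ≤ l |T|`, i.e. `m Q Y ≤ |T|`.  Nm4 gives `cf 2 t ≤ |T|`, contradiction. -/
def St_P1 : Prop :=
  ∀ (t : ℕ), (∀ u < t, ∀ h ≥ 2, TT h u) →
  ∀ (G ι : Type) [AddCommGroup G] [Finite G] (s : Finset ι) (f : ι → G) (H : AddSubgroup G), s.card = t →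
    (∀ i ∈ s, f i ≠ 0) → Cap 2 s f → Aper (FS s f) → gen s f = ⊤ → (FS s f).card < cf 2 t →
    (∀ i ∈ s, lam (FS s f) (f i) ≤ jj t - 1) → Nat.card H + 1 ≤ jj t → (∃ i ∈ s, f i ∈ H) →
      Nat.card G ≤ (FS s f).card + jj t * (jj t - 1)

/-- **P2** (1.5 h, from Nm1, Nm2, Ba1, Tr, Av, Gr, Ds, P1).  `PP t` from the smaller cases.
Proof.  By Tr we may assume `gen s f = ⊤` (in Tr the new group is `gen s f`; `Nat.card` of it is the number in `PP`).  Let `J = jj t`,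
`T = FS s f`, `N = |G|`, `|T| < cf 2 t` and `N > |T| + J (J-1)`; `t ≥ 1` (`cf 2 0 = 1`).  No drop: if `f i ∉ gen (s.erase i) f`, then `|T| = 2 |FS (s.erase i) f|
≥ 2 cf 4 (t - 1) ≥ cf 2 t` (`TT 2 (t-1)`, Nm2), contradiction.  So `gen (s.erase i) f = ⊤` for all `i ∈ s`; `PP (t-1)`: `|FS (s.erase i) f| ≥ cf 2 (t-1)`, because
the other alternative is `N ≤ |FS (s.erase i) f| + J' (J'-1) ≤ |T| + J (J-1)`.  Ba1 (3): `lam T (f i) ≤ |T| - cf 2 (t-1) ≤ cf 2 t - 1 - cf 2 (t-1) = J - 1`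
(`(t-1)/2 + 1 = J`), also `lam T (- f i)`.  And `|T| ≥ cf 2 (t-1) ≥ 1 + J (J-1)`.  Let `D` be from Ds, `lam T y ≤ J - 1` on `D`.  `X = T` if `2 |T| ≤ N`, otherwise
`X = Tᶜ` (`lam_compl`); `|X| ≥ J (J-1) + 1`, `2 |X| ≤ N`.  By Av there is `i` with `|it D i| < 2 i J + 1` and `|it D i| < 2 |X| ≤ N`.  Gr gives `H` with
`|H| + 1 ≤ J` and a nonzero `y ∈ D ∩ H`, `y = ± f i`, so `f i ∈ H`.  P1: `N ≤ |T| + J (J-1)`, contradiction. -/
def St_P2 : Prop :=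
  ∀ t : ℕ, (∀ u < t, PP u) → (∀ u < t, ∀ h ≥ 2, TT h u) → PP t

/-- **T1** (0.8 h, from Nm2, Ba1).  No drop for violating families, and the gain of a drop.
(1) `TT 2 (|V| - 1)`, `V` violating, aperiodic, `Cap 4`, `w ∈ V`: `f w ∈ gen (V.erase w) f`.
(2) `TT 2 |V|`, `Cap 4 V f`, aperiodic `FS (insert z V) f`, `z ∉ V`, `f z ∉ gen V f`: `insert z V` is not violating.
Both: `|FS (insert z V) f| = 2 |FS V f| ≥ 2 cf 4 |V| ≥ cf 2 (|V| + 1)`. -/
def St_T1 : Prop :=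
  ∀ (G ι : Type) [AddCommGroup G] [Finite G] (V : Finset ι) (f : ι → G) (z : ι), z ∉ V → TT 2 V.card →
    (∀ i ∈ V, f i ≠ 0) → Cap 4 V f → Aper (FS V f) → f z ∉ gen V f → ¬ Vio (insert z V) f

/-- **T2** (1.2 h, from Nm5, Ba1, Kn, T1).  Case A of the exchange lemma: `V` violating, all members of `U` in `M = gen V f`.
Then the pair can be improved (as in T4; here only one move is needed).
Proof.  `τ = |V|`, `σ = |U|`, `J = jj τ`; `V` violating so `τ ≥ 1` (`cf 2 0 = 1 ≤ |FS|`), in fact `M ≠ ⊥`.  `PP τ`: `|M| ≤ |FS V f| + J (J-1) < cf 2 τ + J (J-1)`.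
Take `w ∈ V ∪ U` and `W = (V ∪ U).erase w`, `τ + σ - 1` elements, `Cap 4`, aperiodic, in `M`: `|M| ≥ |FS W f| + 1 ≥ cf 4 (τ + σ - 1) + 1`
(`TT 2 (τ+σ-1)`, Kn (4)).  By Nm5 (1) this is a contradiction (`cf 4 (τ+σ-1) + 2 ≤ |M| + 1 ≤ cf 2 τ + J (J-1)`), unless `τ = 2 J - 1`, `σ = 2 J - 2`.  In this case
Kn (2) for `FS V f`, `FS U f` in `M`: `|FS U f| ≤ |M| - |FS V f| ≤ J (J-1) < cf 2 (2J-2)`: `U` is violating too.  If `gen U f = M`: `PP (2J-2)`:
`|M| ≤ |FS U f| + (J-1)(J-2) ≤ J (J-1) + (J-1)(J-2) < cf 4 (4J-4) + 1 ≤ |M|` (Nm5 (4)), contradiction.  Otherwise some `z ∈ V` has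
`f z ∉ gen U f`; take `V' = insert z U`, `U' = V.erase z`: sizes `2J-1`, `2J-2`; `Cap 2` (no member of `U` is `± f z`); `V'` is not
violating by T1, and before the move both were. -/
def St_T2 : Prop :=
  ∀ (t : ℕ), (∀ n < t, TT 2 n) → (∀ n < t, PP n) →
  ∀ (G ι : Type) [AddCommGroup G] [Finite G] (V U : Finset ι) (f : ι → G), Disjoint V U → V.card + U.card ≤ t →
    V.card ≤ U.card + 1 → U.card ≤ V.card + 1 → U.Nonempty → (∀ i ∈ V ∪ U, f i ≠ 0) → Cap 2 V f → Cap 2 U f →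
    Aper (FS (V ∪ U) f) → Vio V f → (∀ i ∈ U, f i ∈ gen V f) →
      ∃ V' U' : Finset ι, Disjoint V' U' ∧ V' ∪ U' = V ∪ U ∧ Cap 2 V' f ∧ Cap 2 U' f ∧
        ((V'.card = V.card ∧ U'.card = U.card) ∨ (V'.card = U.card ∧ U'.card = V.card)) ∧
        ¬ Vio V' f ∧ Vio U f

/-- **T3** (1.8 h, from Nm5, Ba1, Kn, T1).  Case B of the exchange lemma: `V` violating, `z ∈ U`, `f z ∉ M = gen V f`.
Then there is `V', U'` with `V'` and `U'` both not violating or `U'` ... : the number of violating parts drops; precisely one of the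
pairs (swap) `V.erase y ∪ {z}`, `U.erase z ∪ {y}` or (move) `V ∪ {z}`, `U.erase z` has NO violating part.
Proof.  `τ = |V|`, `σ = |U|`, `U0 = U.erase z`.  `V.erase y ∪ {z}` has `Cap 2` (no member of `V` is `± f z`) and is not violating (T1, `f z ∉ gen (V.erase y) f`,
`TT 2 (τ-1)`).  Call `y ∈ V` admissible if at most one member of `U0` is `± f y`.  Suppose that the conclusion fails.  Then for every
admissible `y` the set `U0 ∪ {y}` is violating.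
(a) Some `y ∈ V` is admissible.  By T1 (no drop, in `U0 ∪ {y}`): `f y ∈ gen U0 f =: M'`, and `gen (U0 ∪ {y}) f = M'`; if `y' ∈ V` is not admissible it is `±` a member
of `U0`.  So `V ⊆ M'` and, by `PP σ` for `U0 ∪ {y}`: `|M'| < cf 2 σ + jj σ (jj σ - 1)`.  `V ∪ U0` has `τ + σ - 1` members, `Cap 4`, aperiodic, in `M'`:
`cf 4 (τ+σ-1) + 1 ≤ |M'|`.  By Nm5 (1) (with the roles `σ, τ`) contradiction unless `σ = 2 I - 1`, `τ = 2 I - 2`.  In this case use the move: `V ∪ {z}` (size `2I-1`, not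
violating by T1, `TT 2 τ`) and `U0` (size `2I-2`): by assumption `U0` is violating, `PP (2I-2)`: `|M'| < cf 2 (2I-2) + jj (jj - 1)`, against
`cf 4 (4I-4) + 1 ≤ |M'|` and Nm5 (3).
(b) No `y ∈ V` is admissible: every class `{x,-x}` of `V` has two members in `U0`, so `σ - 1 ≥ τ` (map: number of members of `V` in a class `≤ 2`), so
`σ = τ + 1`, and `U0` consists exactly of these members; so `U0 ⊆ M`, `V ∪ U0` has `2 τ` members in `M`: `cf 4 (2τ) + 1 ≤ |M| < cf 2 τ + jj τ (jj τ - 1)`, contradiction to Nm5 (2).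
Sizes: the swap keeps them, the move exchanges them (it is used only if `σ = τ + 1`). -/
def St_T3 : Prop :=
  ∀ (t : ℕ), (∀ n < t, TT 2 n) → (∀ n < t, PP n) →
  ∀ (G ι : Type) [AddCommGroup G] [Finite G] (V U : Finset ι) (f : ι → G) (z : ι), Disjoint V U → V.card + U.card ≤ t →
    V.card ≤ U.card + 1 → U.card ≤ V.card + 1 → z ∈ U → (∀ i ∈ V ∪ U, f i ≠ 0) → Cap 2 V f → Cap 2 U f →
    Aper (FS (V ∪ U) f) → Vio V f → f z ∉ gen V f →
      ∃ V' U' : Finset ι, Disjoint V' U' ∧ V' ∪ U' = V ∪ U ∧ Cap 2 V' f ∧ Cap 2 U' f ∧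
        ((V'.card = V.card ∧ U'.card = U.card) ∨ (V'.card = U.card ∧ U'.card = V.card)) ∧
        ¬ Vio V' f ∧ ¬ Vio U' f

/-- **Co** (1.5 h).  Balanced colourings: a family with `Cap (2 h)`, `h ≥ 1`, has a colouring `c : ι → Fin h` with `Cap 2` on every colour class
and sizes differing by at most one.
Proof.  (i) a colouring with `Cap 2` exists, by induction on `s`: for a new `i` some colour `k` has at most one member `± f i` (otherwise at
least `2 h` old members are `± f i`, with `i` more than `2 h`).  (ii) Take such a colouring that minimises `∑_k |s_k| ^ 2`.  If `|s_k| ≥ |s_l| + 2`, then some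
`z ∈ s_k` satisfies `#{i ∈ s_k | f i = ± f z} > #{i ∈ s_l | f i = ± f z}` (otherwise, summing over the classes `{x,-x}`, `|s_k| ≤ |s_l|`);
recolour `z` by `l`: `Cap 2` still holds, the sum of squares decreases. -/
def St_Co : Prop :=
  ∀ (G ι : Type) [AddCommGroup G] (s : Finset ι) (f : ι → G) (h : ℕ), 1 ≤ h → Cap (2 * h) s f →
    ∃ c : ι → Fin h, (∀ k, Cap 2 (s.filter fun i => c i = k) f) ∧
      ∀ k l, (s.filter fun i => c i = k).card ≤ (s.filter fun i => c i = l).card + 1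

/-- **T5** (1.5 h, from Nm3, Ba1, Kp, T2, T3, Co).  `TT h t`, `h ≥ 2`, from the smaller cases.
Proof.  Consider the colourings `c : ι → Fin h` of Co (finitely many on `s`; or use `Nat.find` on the number) and take one with the least number `v` of
violating classes.  If `v = 0`: Kp and Nm3 (`P = univ : Finset (Fin h)`): `|FS s f| ≥ 1 + ∑ (cf 2 |s_k| - 1) ≥ cf (2h) t`.  If `v ≥ 1`: `V = s_k`
violating, `U = s_l` for some `l ≠ k` (`h ≥ 2`).  `|V| ≥ 2` (for `|V| ≤ 1` a family of nonzero elements is not violating), so `U` is nonempty by balance.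
`|V| + |U| ≤ t`.  If all members of `U` are in `gen V f` use T2, otherwise T3, and recolour `V ∪ U` accordingly (`V'` gets colour `k`, `U'` gets colour `l`): the
sizes are the same up to order, so the colouring is balanced with `Cap 2`, and it has fewer violating classes (T2: before both `V`, `U`, now at
most `U'`; T3: before `V`, now none of the two).  Contradiction. -/
def St_T5 : Prop :=
  ∀ h t : ℕ, 2 ≤ h → (∀ n < t, TT 2 n) → (∀ n < t, PP n) → TT h t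

/-- **Main** (0.3 h, from P2, T5). Strong induction. -/
def St_main : Prop := ∀ t : ℕ, PP t ∧ ∀ h ≥ 2, TT h t

/-! ## Sets, stabilisers, the function of the problem -/

/-- the number of the theorem: `min (n, min_{h ∣ n, h < n} h * cf (2 h) (max 1 (m + 1 - h)))` -/
def bd (n m : ℕ) : ℕ :=
  sInf ({n} ∪ {c | ∃ h, h ∣ n ∧ h < n ∧ 1 ≤ h ∧ c = h * cf (2 * h) (max 1 (m + 1 - h))})

/-- **Se** (1.2 h, from Ba1, main; see Qu).  Sets.  `A` a finite set, `0 ∉ A`, `T = FS A id`, `H` the group of its periods, `H ≠ ⊤`, `h = |H|`,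
`t = #{a ∈ A | a ∉ H}`.  If `h ≥ 2`: `h * cf (2 h) t ≤ |T|`; if `h = 1`: `cf 2 |A| ≤ |T|` or `|gen A| ≤ |T| + jj |A| (jj |A| - 1)`; and if `h = 1` also
`cf 4 |A| ≤ |T|`.
Proof.  `|T| = h |T/H|`, `T/H = FS (A \ H) mk` is aperiodic, its members are nonzero, and `Cap (2 h)` holds because the elements `a` with
`mk a = ± x̄` lie in the two cosets `± x + H`, which have `2 h` elements.  For `h = 1` (`H = ⊥`) apply `PP` and `TT 2` to `FS A id` itself, `Cap 2`: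
`{x, -x}` has at most two elements. -/
def St_Se : Prop :=
  ∀ (G : Type) [AddCommGroup G] [Finite G] (A : Finset G) (H : AddSubgroup G), (0 : G) ∉ A →
    (∀ g : G, g ∈ H ↔ ∀ x ∈ FS A id, x + g ∈ FS A id) →
    (2 ≤ Nat.card H → Nat.card H * cf (2 * Nat.card H) (A.filter fun a => a ∉ H).card ≤ (FS A id).card) ∧
    (Nat.card H = 1 → cf 4 A.card ≤ (FS A id).card ∧
      (cf 2 A.card ≤ (FS A id).card ∨
        Nat.card (AddSubgroup.closure (A : Set G)) ≤ (FS A id).card + jj A.card * (jj A.card - 1)))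

/-- the range of `(n, m)` of the theorem -/
def Rg (n m : ℕ) : Prop :=
  m * (m + 1) ≤ 2 * (n - 1) ∨ (m % 2 = 0 ∧ m ^ 2 ≤ 2 * (n - 1)) ∨ 8 * (n - 1) ≤ (m + 2) ^ 2

/-- **Lo** (1 h, from Nm1, Nm2, Se).  Lower bound for all finite abelian groups.  `A` generates `G`, `0 ∉ A`, `|A| = m ≥ 1`, `n = |G|`, `Rg n m`: `bd n m ≤ |FS A id|`.
Proof.  `H` = periods of `T`.  `H = ⊤`: `T = G` (it contains `0`), `|T| = n`.  `H ≠ ⊤`, `h = |H| < n`, `h ∣ n`: `t = |A \ H| ≥ 1` (`A` generates `G`) and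
`t ≥ m - (h - 1)` (`0 ∉ A`); if `h ≥ 2`, `|T| ≥ h cf (2h) t ≥ h cf (2h) (max 1 (m+1-h))`.  `h = 1`: the element `cf 2 (max 1 m) = cf 2 m` of the set; `cf 2 m ≤ |T|`, or
`n ≤ |T| + J (J-1)` with `J = jj m`.  In the first two ranges `n ≥ cf 2 m + J (J-1)` (`m = 2 J`: `cf 2 m + J(J-1) = 1 + 2 J^2`;
`m = 2 J - 1`: `1 + J^2 + J (J-1) = 1 + m (m+1) / 2`), so `|T| ≥ cf 2 m` again.  In the third range `2 cf 4 m ≥ cf 2 (m+1) = 1 + (m+2)^2/4 ≥ 2 n - 1`, so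
`|T| ≥ cf 4 m ≥ n`, `T = G` has a nonzero period (`n > h = 1`), contradiction. -/
def St_Lo : Prop :=
  ∀ (G : Type) [AddCommGroup G] [Finite G] (A : Finset G), (0 : G) ∉ A → 1 ≤ A.card →
    AddSubgroup.closure (A : Set G) = ⊤ → Rg (Nat.card G) A.card → bd (Nat.card G) A.card ≤ (FS A id).card

/-- **Up** (2 h, from Nm1).  Upper bound in `ZMod n`: for `1 ≤ m < n`, `n ≥ 2`, there is a generating set `A` of `m` nonzero elements with `|FS A id| ≤ bd n m`.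
Proof.  `bd n m` is an element of the set.  If it is `n`: `A = {1, ..., m}`.  If it is `h cf (2h) (max 1 (m+1-h))` with `h ∣ n`, `h < n`, `N = n / h ≥ 2`, and it is
`< n` (otherwise as before): `t = max 1 (m+1-h)`, so `cf (2h) t < N`.  `H` = multiples of `N` (`h` elements, `{0, N, ..., (h-1) N}`).  Take any `m - t ≤ h - 1` nonzero
elements of `H` and `t` elements outside: write `t = 2 h a + r`, `1 ≤ r ≤ 2 h` (`a ≥ 0`): all `h` elements of each of the classes `± c + H`, `1 ≤ c ≤ a`, and `r` elements of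
`± (a+1) + H`, beginning with the class of `+ (a + 1)` and, if `a = 0`, containing `1`.  The classes are different: `cf (2h) t ≥ 1 + 2 h (1 + ... + a) + (a+1)`, so for
`a ≥ 1` `N > 1 + a (a+1) + a + 1 ≥ 2 (a+1)`, and for `a = 0`, `r ≥ 2`: `N > r + 1 ≥ 3`, while for `r = 1` only one class is used.  `A` contains `1`, so it generates.
The sums lie in the classes `[-w₋, w₊]` where `w₋, w₊` are the sums of the class numbers of the negative / positive elements, `w₋ + w₊ = ∑_{i ≤ t} ⌈i/2h⌉ = cf (2h) t - 1`: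
at most `cf (2h) t` classes of `h` elements. -/
def St_Up : Prop :=
  ∀ n m : ℕ, 2 ≤ n → 1 ≤ m → m < n → ∃ A : Finset (ZMod n), (0 : ZMod n) ∉ A ∧ A.card = m ∧
    AddSubgroup.closure (A : Set (ZMod n)) = ⊤ ∧ (FS A id).card ≤ bd n m

/-- **Fi** (0.8 h, from Lo, Up).  The final statement (`sizes`, `rho` of Helper64.Rho.Defs): for every finite abelian group `G` of order `n ≥ 2` and every `m ≥ 1` with
`Rg n m`: `bd n m ≤ rho G m` if `sizes G m` is nonempty, and if `G` is cyclic and `m < n` then `sizes G m` is nonempty and `rho G m = bd n m`.  (`G` cyclic: transport from `ZMod n`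
by an isomorphism.) -/
def St_Fi : Prop :=
  ∀ (G : Type) [AddCommGroup G] [Finite G] (m : ℕ), 1 ≤ m → 2 ≤ Nat.card G → Rg (Nat.card G) m →
    ((sizes G m).Nonempty → bd (Nat.card G) m ≤ rho G m) ∧
    (IsAddCyclic G → m < Nat.card G → (sizes G m).Nonempty ∧ rho G m = bd (Nat.card G) m)

end Pool.Agent.SDG
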