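import Pool.Agent.SDG.St

/-!
SDG [Fi]: the final statement.
-/

set_option autoImplicit false

open Finset Pool.Agent.Helper64.Rho
open scoped Classical Pointwise

namespace Pool.Agent.SDG

theorem Fi_sub {G : Type} [AddCommGroup G] (A : Finset G) :
    subsetSums A = ((FS A id : Finset G) : Set G) := by
  ext x
  rw [Finset.mem_coe, mem_FS]
  rfl

theorem Fi_ncard {G : Type} [AddCommGroup G] (A : Finset G) :
    (subsetSums A).ncard = (FS A id).card := by
  rw [Fi_sub, Set.ncard_coe_finset]

theorem Fi_map {G G' : Type} [AddCommGroup G] [AddCommGroup G'] (e : G ≃+ G') (A : Finset G) :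
    (FS (A.image e) id).card = (FS A id).card := by
  have h : FS (A.image e) id = (FS A id).image e := by
    ext x
    rw [mem_FS, Finset.mem_image]
    constructor
    · rintro ⟨t, ht, rfl⟩
      refine ⟨∑ i ∈ t.image e.symm, i, mem_FS.2 ⟨t.image e.symm, ?_, rfl⟩, ?_⟩
      · intro i hi
        obtain ⟨y, hy, rfl⟩ := Finset.mem_image.1 hi
        obtain ⟨z, hz, rfl⟩ := Finset.mem_image.1 (ht hy)
        rw [AddEquiv.symm_apply_apply]
        exact hz
      · rw [map_sum, Finset.sum_image (fun a _ b _ hab => e.symm.injective hab)]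
        simp
    · rintro ⟨y, hy, rfl⟩
      obtain ⟨t, ht, rfl⟩ := mem_FS.1 hy
      refine ⟨t.image e, Finset.image_subset_image ht, ?_⟩
      rw [Finset.sum_image (fun a _ b _ hab => e.injective hab), map_sum]
      rfl
  rw [h, Finset.card_image_of_injective _ e.injective]

theorem Fi_map' {G G' : Type} [AddCommGroup G] [AddCommGroup G'] (d : DecidableEq G) (e : G ≃+ G')
    (A : Finset G) : (FS (A.image e) id).card = (@FS G G _ d A id).card := by
  rw [Subsingleton.elim d (fun a b => Classical.propDecidable (a = b))]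
  exact Fi_map e A

/-- [Fi] -/
theorem thm_Fi : St_Lo → St_Up → St_Fi := by
  intro hLo hUp G _ _ m hm hn hR
  have h1 : ∀ k ∈ sizes G m, bd (Nat.card G) m ≤ k := by
    rintro k ⟨A, h0, hA, hgen, rfl⟩
    rw [Fi_ncard]
    subst hA
    exact hLo G A h0 hm hgen hR
  refine ⟨fun hne => h1 _ (Nat.sInf_mem hne), fun hcyc hmn => ?_⟩
  have e : ZMod (Nat.card G) ≃+ G := zmodAddCyclicAddEquiv hcyc
  obtain ⟨A, h0, hA, hgen, hle⟩ := hUp (Nat.card G) m hn hm hmn
  have hmem : (FS A id).card ∈ sizes G m := by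
    refine ⟨A.image e, ?_, ?_, ?_, ?_⟩
    · intro h
      obtain ⟨y, hy, hy0⟩ := Finset.mem_image.1 h
      rw [map_eq_zero_iff e e.injective] at hy0
      exact h0 (hy0 ▸ hy)
    · rw [Finset.card_image_of_injective _ e.injective, hA]
    · have h2 := congrArg (AddSubgroup.map (e : ZMod (Nat.card G) →+ G)) hgen
      rw [AddMonoidHom.map_closure, AddSubgroup.map_top_of_surjective _ e.surjective] at h2
      rw [Finset.coe_image]
      exact h2
    · rw [Fi_ncard]
      exact Fi_map' _ e A
  refine ⟨⟨_, hmem⟩, le_antisymm ?_ (h1 _ (Nat.sInf_mem ⟨_, hmem⟩))⟩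
  exact (Nat.sInf_le hmem).trans hle

end Pool.Agent.SDG
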