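import Pool.Agent.SDG.St

/-!
# SDG, module P1 (helper86): the subgroup case
-/

set_option autoImplicit false

noncomputable section

open Finset Pool.Agent.Helper64.Rho
open scoped Classical Pointwise

namespace Pool.Agent.SDG

/-- the group of periods -/
theorem P1_per {G : Type} [AddCommGroup G] (A : Finset G) :
    ∃ K : AddSubgroup G, ∀ g, g ∈ K ↔ ∀ x ∈ A, x + g ∈ A := by
  refine ⟨{ carrier := {g | ∀ x ∈ A, x + g ∈ A}, zero_mem' := ?_, add_mem' := ?_, neg_mem' := ?_ },
    fun g => Iff.rfl⟩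
  · intro a b ha hb x hx
    rw [← add_assoc]
    exact hb _ (ha _ hx)
  · intro x hx
    simpa using hx
  · intro g hg x hx
    have himg : A.image (fun y => y + g) = A := by
      apply Finset.eq_of_subset_of_card_le
      · intro y hy
        obtain ⟨z, hz, rfl⟩ := Finset.mem_image.1 hy
        exact hg z hz
      · rw [Finset.card_image_of_injective _ (add_left_injective g)]
    rw [← himg] at hx
    obtain ⟨y, hy, rfl⟩ := Finset.mem_image.1 hx
    simpa using hy

theorem P1_gen_le {G ι : Type} [AddCommGroup G] (s : Finset ι) (f : ι → G) (K : AddSubgroup G) :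
    gen (s.filter fun i => f i ∈ K) f ≤ K := by
  unfold gen
  rw [AddSubgroup.closure_le]
  rintro _ ⟨i, hi, rfl⟩
  exact (Finset.mem_filter.1 (Finset.mem_coe.1 hi)).2

theorem P1_mem_gen {G ι : Type} [AddCommGroup G] {s : Finset ι} {f : ι → G} {i : ι} (hi : i ∈ s) :
    f i ∈ gen s f :=
  AddSubgroup.subset_closure ⟨i, hi, rfl⟩

theorem P1_filter {G ι : Type} [AddCommGroup G] (s : Finset ι) (f : ι → G) (K : AddSubgroup G) :
    (s.filter fun i => f i ∈ gen (s.filter fun i => f i ∈ K) f) = s.filter fun i => f i ∈ K := by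
  apply Finset.filter_congr
  intro i hi
  constructor
  · intro h
    exact P1_gen_le s f K h
  · intro h
    exact P1_mem_gen (Finset.mem_filter.2 ⟨hi, h⟩)

theorem P1_mem_st {G : Type} [AddCommGroup G] [Finite G] {A : Finset G} {H : AddSubgroup G} {x : G} :
    x ∈ st A H ↔ ∃ a ∈ A, x - a ∈ H := by
  unfold st
  rw [Set.Finite.mem_toFinset]
  rfl

theorem P1_st {G : Type} [AddCommGroup G] [Finite G] (T : Finset G) (L0 L K : AddSubgroup G)
    (h0 : L0 ≤ L) (h1 : L ≤ K) (hK : ∀ g, g ∈ K ↔ ∀ x ∈ st T L0, x + g ∈ st T L0) :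
    st T L = st T L0 := by
  ext x
  rw [P1_mem_st]
  constructor
  · rintro ⟨a, ha, hx⟩
    have h2 : a ∈ st T L0 := P1_mem_st.2 ⟨a, ha, by rw [sub_self]; exact L0.zero_mem⟩
    have h3 := (hK (x - a)).1 (h1 hx) a h2
    rwa [add_sub_cancel] at h3
  · intro hx
    obtain ⟨a, ha, hx⟩ := P1_mem_st.1 hx
    exact ⟨a, ha, h0 hx⟩

theorem P1_cap_mono {G ι : Type} [AddCommGroup G] {g g' : ℕ} {s s' : Finset ι} {f : ι → G}
    (hg : g ≤ g') (hs : s' ⊆ s) (h : Cap g s f) : Cap g' s' f := fun x =>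
  ((Finset.card_le_card (Finset.filter_subset_filter _ hs)).trans (h x)).trans hg

theorem P1_aper {G ι : Type} [AddCommGroup G] (d1 d2 : DecidableEq G) (s : Finset ι) (f : ι → G)
    (h : Aper (@FS ι G _ d1 s f)) : Aper (@FS ι G _ d2 s f) := by
  rw [Subsingleton.elim d2 d1]
  exact h

theorem P1_card {G ι : Type} [AddCommGroup G] (d1 d2 : DecidableEq G) (s : Finset ι) (f : ι → G) :
    (@FS ι G _ d1 s f).card = (@FS ι G _ d2 s f).card := by
  rw [Subsingleton.elim d1 d2]

theorem thm_P1 (_hNm1 : St_Nm1) (_hNm2 : St_Nm2) (hNm4 : St_Nm4) (hBa1 : St_Ba1) (hKn : St_Kn)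
    (hSm : St_Sm) (hQu : St_Qu) (hPc : St_Pc) : St_P1 := by
  intro t hTT G ι _ _ s f H hst hnz hcap hap hgen hvio hlam hH ⟨i0, hi0, hi0H⟩
  obtain ⟨-, hsub, -, -, -, -, -⟩ := hBa1 G ι f
  -- the subgroup `L0`
  set L0 := gen (s.filter fun i => f i ∈ H) f with hL0
  have hL0H : L0 ≤ H := P1_gen_le s f H
  have hL0f : gen (s.filter fun i => f i ∈ L0) f = L0 := by
    rw [hL0, P1_filter]
  have hi0L0 : f i0 ∈ L0 := P1_mem_gen (Finset.mem_filter.2 ⟨hi0, hi0H⟩)
  have hPc0 := (hPc G ι s f L0 (jj t - 1) hnz hap hL0f (fun i hi _ => hlam i hi)).1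
  -- the periods
  obtain ⟨K, hK⟩ := P1_per (st (FS s f) L0)
  have h0T : (0 : G) ∈ FS s f := zero_mem_FS s f
  have h0st : (0 : G) ∈ st (FS s f) L0 := P1_mem_st.2 ⟨0, h0T, by rw [sub_self]; exact L0.zero_mem⟩
  have hL0K : L0 ≤ K := by
    intro g hg
    rw [hK]
    intro x hx
    obtain ⟨a, ha, hx⟩ := P1_mem_st.1 hx
    refine P1_mem_st.2 ⟨a, ha, ?_⟩
    have : x + g - a = (x - a) + g := by abel
    rw [this]
    exact L0.add_mem hx hg
  by_cases hKtop : K = ⊤
  · -- everything is covered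
    have hall : ∀ g : G, g ∈ st (FS s f) L0 := by
      intro g
      have h1 : g ∈ K := by rw [hKtop]; trivial
      have h2 := (hK g).1 h1 0 h0st
      rwa [zero_add] at h2
    have hcard : Nat.card G ≤ (st (FS s f) L0).card := by
      have := Fintype.ofFinite G
      rw [Nat.card_eq_fintype_card, ← Finset.card_univ]
      exact Finset.card_le_card fun g _ => hall g
    have hL0card : Nat.card L0 ≤ Nat.card H := AddSubgroup.card_le_of_le hL0H
    have h1 : (jj t - 1) * (Nat.card L0 - (FS (s.filter fun i => f i ∈ L0) f).card) ≤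
        (jj t - 1) * (jj t - 1) := Nat.mul_le_mul_left _ (by omega)
    have h2 : (jj t - 1) * (jj t - 1) ≤ jj t * (jj t - 1) :=
      Nat.mul_le_mul_right _ (by omega)
    omega
  · exfalso
    set L1 := gen (s.filter fun i => f i ∈ K) f with hL1
    have hL1K : L1 ≤ K := P1_gen_le s f K
    have hL1filter : (s.filter fun i => f i ∈ L1) = s.filter fun i => f i ∈ K := P1_filter s f K
    have hL1f : gen (s.filter fun i => f i ∈ L1) f = L1 := by rw [hL1filter]
    have hL0L1 : L0 ≤ L1 := by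
      rw [hL0]
      unfold gen
      rw [AddSubgroup.closure_le]
      rintro _ ⟨i, hi, rfl⟩
      have hi' := Finset.mem_filter.1 (Finset.mem_coe.1 hi)
      have h1 : f i ∈ L0 := P1_mem_gen (Finset.mem_filter.2 hi')
      exact P1_mem_gen (Finset.mem_filter.2 ⟨hi'.1, hL0K h1⟩)
    have hst1 : st (FS s f) L1 = st (FS s f) L0 := P1_st _ L0 L1 K hL0L1 hL1K hK
    have hstK : st (FS s f) K = st (FS s f) L0 := P1_st _ L0 K K hL0K le_rfl hK
    -- the numbers
    set b := (s.filter fun i => f i ∈ K).card with hb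
    set u := (s.filter fun i => f i ∉ K).card with hu
    have hbu : b + u = t := by
      rw [hb, hu, ← hst]
      exact Finset.card_filter_add_card_filter_not (s := s) (fun i => f i ∈ K)
    have hu1 : 1 ≤ u := by
      by_contra hcon
      have h0 : (s.filter fun i => f i ∉ K) = ∅ := by
        rw [← Finset.card_eq_zero]; omega
      apply hKtop
      rw [eq_top_iff, ← hgen]
      unfold gen
      rw [AddSubgroup.closure_le]
      rintro _ ⟨i, hi, rfl⟩
      by_contra hni
      have : i ∈ (s.filter fun i => f i ∉ K) := Finset.mem_filter.2 ⟨hi, hni⟩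
      rw [h0] at this
      exact absurd this (Finset.notMem_empty i)
    have hi0K : i0 ∈ s.filter fun i => f i ∈ K := Finset.mem_filter.2 ⟨hi0, hL0K hi0L0⟩
    have hb1 : 1 ≤ b := Finset.card_pos.2 ⟨i0, hi0K⟩
    -- quotient
    obtain ⟨-, hQ2, hQ3, hQ4, hQ5⟩ := hQu G ι s f K
    have hQap := hQ3 (fun g hg => by
      rw [hK]
      rw [hstK] at hg
      exact hg)
    have hQcap := hQ4 hcap
    set Q := (FS (s.filter fun i => f i ∉ K)
      (fun i => (QuotientAddGroup.mk (f i) : G ⧸ K))).card with hQ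
    -- the family in `K`
    have hsK : (s.filter fun i => f i ∈ K) ⊆ s := Finset.filter_subset _ _
    have hapK : Aper (FS (s.filter fun i => f i ∈ K) f) := hsub s _ hsK hap
    have hnzK : ∀ i ∈ s.filter (fun i => f i ∈ K), f i ≠ 0 := fun i hi => hnz i (hsK hi)
    have hcapK : Cap 2 (s.filter fun i => f i ∈ K) f := P1_cap_mono le_rfl hsK hcap
    obtain ⟨hSm1, hSm2⟩ := hSm G ι (s.filter fun i => f i ∈ K) f hnzK hapK
    set Y := (FS (s.filter fun i => f i ∈ K) f).card with hY
    have hL1bot : L1 ≠ ⊥ := by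
      intro h
      have h1 : f i0 ∈ L1 := P1_mem_gen hi0K
      rw [h, AddSubgroup.mem_bot] at h1
      exact hnz i0 hi0 h1
    have hYl : Y + 1 ≤ Nat.card L1 := by
      obtain ⟨-, -, -, h4⟩ := hKn G
      refine h4 _ L1 ⟨0, zero_mem_FS _ _⟩ hL1bot ?_ hapK
      exact (hBa1 G ι f).2.2.2.2.2.2 _
    have hdvd : Nat.card L1 ∣ Nat.card K := AddSubgroup.card_dvd_of_le hL1K
    obtain ⟨m, hm⟩ := hdvd
    have hKpos : 0 < Nat.card K := Nat.card_pos
    have hm1 : 1 ≤ m := by
      rcases Nat.eq_zero_or_pos m with h | h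
      · rw [h] at hm; omega
      · exact h
    have hml : Nat.card K = m * Nat.card L1 := by rw [hm, mul_comm]
    have hKle : Nat.card L1 ≤ Nat.card K := by rw [hml]; exact Nat.le_mul_of_pos_left _ hm1
    have hTTQ : cf (2 * Nat.card K) u ≤ Q := by
      have h := hTT u (by omega) (Nat.card K) (by omega) (G ⧸ K) ι
        (s.filter fun i => f i ∉ K) (fun i => (QuotientAddGroup.mk (f i) : G ⧸ K)) rfl hQ5 hQcap
        (P1_aper _ _ _ _ hQap)
      exact h.trans (P1_card _ _ _ _).le
    have hTTY : cf (2 * 2) b ≤ Y :=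
      hTT b (by omega) 2 le_rfl G ι _ _ rfl hnzK (P1_cap_mono (by norm_num) (subset_refl _) hcapK) hapK
    obtain ⟨hP1, hP2⟩ := hPc G ι s f L1 (jj t - 1) hnz hap hL1f (fun i hi _ => hlam i hi)
    rw [hL1filter, hst1, ← hstK] at hP1 hP2
    rw [← hQ2, hml] at hP1 hP2
    have hfin := hNm4 m (Nat.card L1) b u Y Q (FS s f).card hm1 (by omega) hb1 hu1 (by omega) hTTY
      (fun h => by have := hSm2 hcapK (by omega); omega)
      (fun h => by have := hSm2 hcapK (by omega); omega)
      (by rw [hml] at hTTQ; exact hTTQ)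
      (by
        have hpos : 0 < Nat.card L1 := Nat.card_pos
        refine Nat.le_of_mul_le_mul_left ?_ hpos
        calc Nat.card L1 * (m * Q * Y) = m * Nat.card L1 * Q * Y := by ring
          _ ≤ Nat.card L1 * (FS s f).card := hP2)
      (by rw [hbu]; exact hP1)
    rw [hbu] at hfin
    omega

end Pool.Agent.SDG
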