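import Pool.Agent.SDG.St

/-!
# SDG, module Tr (helper86): transfer to the generated subgroup
-/

set_option autoImplicit false

noncomputable section

open Finset Pool.Agent.Helper64.Rho
open scoped Classical Pointwise

namespace Pool.Agent.SDG

theorem Tr_card {ι : Type} (s : Finset ι) (p q : ι → Prop) (dp : DecidablePred p) (dq : DecidablePred q)
    (h : ∀ i ∈ s, p i → q i) : (@Finset.filter ι p dp s).card ≤ (@Finset.filter ι q dq s).card := by
  apply Finset.card_le_card
  intro i hi
  rw [Finset.mem_filter] at hi ⊢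
  exact ⟨hi.1, h i hi.1 hi.2⟩

theorem thm_Tr : St_Tr := by
  intro G ι _ _ s f
  let f' : ι → (gen s f) := fun i =>
    if h : i ∈ s then ⟨f i, AddSubgroup.subset_closure ⟨i, h, rfl⟩⟩ else 0
  have hf : ∀ i ∈ s, ((f' i : gen s f) : G) = f i := by
    intro i hi
    simp only [f', dif_pos hi]
  have hsum : ∀ t : Finset ι, t ⊆ s → ((∑ i ∈ t, f' i : gen s f) : G) = ∑ i ∈ t, f i := by
    intro t ht
    rw [AddSubmonoidClass.coe_finsetSum]
    exact Finset.sum_congr rfl (fun i hi => hf i (ht hi))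
  have himg : FS s f = (FS s f').image (fun x : gen s f => (x : G)) := by
    ext y
    rw [mem_FS, Finset.mem_image]
    constructor
    · rintro ⟨t, ht, rfl⟩
      exact ⟨∑ i ∈ t, f' i, mem_FS.2 ⟨t, ht, rfl⟩, hsum t ht⟩
    · rintro ⟨x, hx, rfl⟩
      obtain ⟨t, ht, rfl⟩ := mem_FS.1 hx
      exact ⟨t, ht, (hsum t ht).symm⟩
  refine ⟨f', hf, ?_, ?_, ?_, ?_, ?_⟩
  · unfold gen at *
    have h1 : f' '' (s : Set ι) = ((↑) : (AddSubgroup.closure (f '' (s : Set ι))) → G) ⁻¹' (f '' (s : Set ι)) := by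
      ext x
      constructor
      · rintro ⟨i, hi, rfl⟩
        exact ⟨i, hi, (hf i hi).symm⟩
      · rintro ⟨i, hi, hx⟩
        exact ⟨i, hi, Subtype.ext ((hf i hi).trans hx)⟩
    rw [h1]
    exact AddSubgroup.closure_closure_coe_preimage
  · rw [himg]
    exact (Finset.card_image_of_injective _ Subtype.val_injective).symm
  · intro h g hg
    apply Subtype.ext
    apply h
    intro x hx
    rw [himg, Finset.mem_image] at hx ⊢
    obtain ⟨y, hy, rfl⟩ := hx
    exact ⟨y + g, hg y hy, rfl⟩
  · intro g h x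
    refine le_trans (Tr_card s _ _ _ _ ?_) (h (x : G))
    intro i hi hi'
    rcases hi' with h1 | h1
    · left
      rw [← hf i hi, h1]
    · right
      rw [← hf i hi, h1]
      rfl
  · intro h i hi h0
    apply h i hi
    rw [← hf i hi, h0]
    rfl

end Pool.Agent.SDG
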