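import Pool.Agent.SDG.St

/-!
# SDG, module Ba1 (helper86): elementary facts on families and their sums
-/

set_option autoImplicit false

noncomputable section

open Finset Pool.Agent.Helper64.Rho
open scoped Classical Pointwise

namespace Pool.Agent.SDG

variable {G ι : Type} [AddCommGroup G]

theorem Ba1_union (f : ι → G) (s t : Finset ι) (h : Disjoint s t) :
    FS (s ∪ t) f = FS s f + FS t f := by
  ext x
  rw [mem_FS_union h, Finset.mem_add]
  constructor
  · rintro ⟨a, ha, b, hb, rfl⟩
    exact ⟨a, ha, b, hb, rfl⟩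
  · rintro ⟨a, ha, b, hb, rfl⟩
    exact ⟨a, ha, b, hb, rfl⟩

theorem Ba1_aper_left (A B : Finset G) (_hB : B.Nonempty) (h : Aper (A + B)) : Aper A := by
  intro g hg
  apply h
  intro x hx
  obtain ⟨a, ha, b, hb, rfl⟩ := Finset.mem_add.1 hx
  have : a + b + g = (a + g) + b := by abel
  rw [this]
  exact Finset.add_mem_add (hg a ha) hb

theorem Ba1_sub (f : ι → G) (s t : Finset ι) (hts : t ⊆ s) (h : Aper (FS s f)) : Aper (FS t f) := by
  have h1 : s = t ∪ (s \ t) := (Finset.union_sdiff_of_subset hts).symm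
  rw [h1, Ba1_union f _ _ Finset.disjoint_sdiff] at h
  exact Ba1_aper_left _ _ ⟨0, zero_mem_FS _ _⟩ h

theorem Ba1_erase (f : ι → G) (s : Finset ι) (i : ι) (hi : i ∈ s) :
    FS s f = FS (s.erase i) f ∪ (FS (s.erase i) f).image (· + f i) := by
  conv_lhs => rw [← Finset.insert_erase hi]
  exact FS_insert (Finset.notMem_erase i s) f

theorem Ba1_lam (f : ι → G) (s : Finset ι) (i : ι) (hi : i ∈ s) :
    (FS (s.erase i) f).card + lam (FS s f) (f i) ≤ (FS s f).card := by
  have h1 := Ba1_erase f s i hi
  set S := FS (s.erase i) f with hS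
  have h2 : (FS s f).card = S.card + lam S (f i) := by
    rw [h1, card_union_shift]
  have h3 : lam (FS s f) (f i) ≤ lam S (f i) := by
    unfold lam
    apply Finset.card_le_card_of_injOn (fun b => b - f i)
    · intro b hb
      have hb' := Finset.mem_filter.1 (Finset.mem_coe.1 hb)
      obtain ⟨hb1, hb2⟩ := hb'
      have hb3 : b ∉ S := by
        intro hbS
        apply hb2
        rw [h1]
        exact Finset.mem_union_right _ (Finset.mem_image_of_mem _ hbS)
      rw [h1, Finset.mem_union] at hb1
      rcases hb1 with hb1 | hb1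
      · exact absurd hb1 hb3
      · obtain ⟨c, hc, hcb⟩ := Finset.mem_image.1 hb1
        have hcb' : b - f i = c := by rw [← hcb]; simp
        rw [Finset.mem_coe, Finset.mem_filter]
        simp only
        rw [hcb']
        refine ⟨hc, ?_⟩
        have : c + f i = b := hcb
        rw [this]
        exact hb3
    · intro a _ b _ h
      exact sub_left_injective h
  omega

theorem Ba1_mem_gen (f : ι → G) (s : Finset ι) : ∀ x ∈ FS s f, x ∈ gen s f := by
  intro x hx
  apply FS_subset_of_mem (s := s) (f := f) (M := gen s f) _ hx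
  intro i hi
  exact AddSubgroup.subset_closure ⟨i, hi, rfl⟩

theorem Ba1_drop (f : ι → G) (s : Finset ι) (i : ι) (hi : i ∈ s) (h : f i ∉ gen (s.erase i) f) :
    (FS s f).card = 2 * (FS (s.erase i) f).card := by
  rw [Ba1_erase f s i hi, Finset.card_union_of_disjoint,
    Finset.card_image_of_injective _ (add_left_injective (f i))]
  · ring
  · rw [Finset.disjoint_left]
    intro x hx hx2
    obtain ⟨y, hy, rfl⟩ := Finset.mem_image.1 hx2
    apply h
    have h1 := Ba1_mem_gen f _ _ hx
    have h2 := Ba1_mem_gen f _ _ hy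
    have h3 := (gen (s.erase i) f).sub_mem h1 h2
    simpa using h3

theorem Ba1_inv (f : ι → G) (s : Finset ι) (i : ι) (hi : i ∈ s) (h : Aper (FS s f)) (h0 : f i ≠ 0) :
    f i ≠ - f i := by
  intro hcon
  apply h0
  apply h
  intro x hx
  have h2 : f i + f i = 0 := by
    nth_rewrite 1 [hcon]
    simp
  rw [Ba1_erase f s i hi, Finset.mem_union] at hx ⊢
  rcases hx with hx | hx
  · right
    exact Finset.mem_image_of_mem _ hx
  · left
    obtain ⟨y, hy, rfl⟩ := Finset.mem_image.1 hx
    have : y + f i + f i = y := by rw [add_assoc, h2, add_zero]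
    rw [this]
    exact hy

theorem Ba1_gen (f : ι → G) (s : Finset ι) (i : ι) (_hi : i ∈ s) (h : f i ∈ gen (s.erase i) f) :
    gen (s.erase i) f = gen s f := by
  apply le_antisymm
  · unfold gen
    apply AddSubgroup.closure_mono
    apply Set.image_mono
    exact_mod_cast Finset.erase_subset i s
  · conv_lhs => unfold gen
    rw [AddSubgroup.closure_le]
    rintro _ ⟨k, hk, rfl⟩
    by_cases hki : k = i
    · rw [hki]; exact h
    · exact AddSubgroup.subset_closure ⟨k, Finset.mem_coe.2 (Finset.mem_erase.2 ⟨hki, hk⟩), rfl⟩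

theorem thm_Ba1 : St_Ba1 := by
  intro G ι _ f
  exact ⟨Ba1_union f, Ba1_sub f, Ba1_lam f, Ba1_drop f, Ba1_inv f, Ba1_gen f, Ba1_mem_gen f⟩

end Pool.Agent.SDG
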