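import Pool.Agent.SDG.St

/-!
# SDG, module Av: averaging
-/

set_option autoImplicit false

noncomputable section

open Finset Pool.Agent.Helper64.Rho
open scoped Classical Pointwise

namespace Pool.Agent.SDG

private lemma Av_lam {G : Type} [AddCommGroup G] (X D : Finset G) (j : ℕ)
    (hD : ∀ y ∈ D, lam X y ≤ j) (i : ℕ) : ∀ y ∈ it D i, lam X y ≤ i * j := by
  induction i with
  | zero =>
    intro y hy
    have h : y = 0 := by simpa [it] using hy
    rw [h, lam_zero]
    exact Nat.zero_le _
  | succ i ih =>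
    intro y hy
    change y ∈ it D i + D at hy
    obtain ⟨a, ha, b, hb, rfl⟩ := mem_add.1 hy
    refine (lam_add X a b).trans ?_
    have h1 := ih a ha
    have h2 := hD b hb
    rw [add_mul, one_mul]
    omega

private lemma Av_cnt {G : Type} [AddCommGroup G] [Fintype G] (X D : Finset G) (j : ℕ)
    (hD : ∀ y ∈ D, lam X y ≤ j) (i v : ℕ) (h : i * j ≤ v) : (it D i).card ≤ cnt X v := by
  unfold cnt
  refine card_le_card fun y hy => ?_
  rw [mem_filter]
  exact ⟨mem_univ _, (Av_lam X D j hD i y hy).trans h⟩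

private lemma Av_blocks {G : Type} [AddCommGroup G] [Fintype G] (X D : Finset G) (j : ℕ)
    (hD : ∀ y ∈ D, lam X y ≤ j) (k : ℕ) :
    j * ∑ i ∈ range k, (it D i).card ≤ ∑ v ∈ range (k * j), cnt X v := by
  induction k with
  | zero => simp
  | succ k ih =>
    rw [sum_range_succ, mul_add, add_mul, one_mul, sum_range_add]
    refine Nat.add_le_add ih ?_
    calc j * (it D k).card = ∑ v ∈ range j, (it D k).card := by
          rw [sum_const, card_range, smul_eq_mul]
      _ ≤ ∑ v ∈ range j, cnt X (k * j + v) :=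
          sum_le_sum fun v _ => Av_cnt X D j hD k _ (Nat.le_add_right _ _)

private lemma Av_gauss (J k : ℕ) : ∑ i ∈ range k, (2 * i * J + 1) + J * k = J * k * k + k := by
  induction k with
  | zero => simp
  | succ k ih =>
    rw [sum_range_succ]
    linarith

theorem thm_Av : St_Av := by
  intro G _ _ X D j _ hD hX hg
  have := Fintype.ofFinite G
  set x := X.card with hx
  have hsum := sum_cnt X
  rw [← hx] at hsum
  obtain ⟨k, hk1, hk2⟩ : ∃ k, x ≤ k * (j + 1) ∧ k * (j + 1) ≤ x + j := by
    refine ⟨(x + j) / (j + 1), ?_, Nat.div_mul_le_self _ _⟩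
    have h1 := Nat.div_add_mod (x + j) (j + 1)
    have h2 : (x + j) % (j + 1) < j + 1 := Nat.mod_lt (x + j) (Nat.succ_pos j)
    rw [mul_comm]
    omega
  have hkJ : j + 1 ≤ k := by
    by_contra hlt
    have h1 : k ≤ j := by omega
    have h2 : k * (j + 1) ≤ j * (j + 1) := Nat.mul_le_mul_right _ h1
    nlinarith
  obtain ⟨c, hc, hc0⟩ : ∃ c, x = k * j + c ∧ 1 ≤ c := by
    refine ⟨x - k * j, ?_, ?_⟩
    · rw [mul_add, mul_one] at hk2
      omega
    · rw [mul_add, mul_one] at hk2
      omega
  have h1 : ∀ i ∈ range k, 2 * i * (j + 1) + 1 ≤ (it D i).card := by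
    intro i hi
    rw [mem_range] at hi
    rcases hg i with h | h
    · exact h
    · have h2 : (i + 1) * (j + 1) ≤ k * (j + 1) := Nat.mul_le_mul_right _ hi
      nlinarith
  have h2 : 2 * x ≤ (it D k).card := by
    rcases hg k with h | h
    · nlinarith
    · exact h
  have h3 : j * ∑ i ∈ range k, (2 * i * (j + 1) + 1) + c * (2 * x) ≤ x ^ 2 := by
    rw [← hsum]
    conv_rhs => rw [hc, sum_range_add]
    refine Nat.add_le_add ?_ ?_
    · exact (Nat.mul_le_mul_left _ (sum_le_sum h1)).trans (Av_blocks X D j hD k)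
    · calc c * (2 * x) ≤ c * (it D k).card := Nat.mul_le_mul_left _ h2
        _ = ∑ v ∈ range c, (it D k).card := by rw [sum_const, card_range, smul_eq_mul]
        _ ≤ ∑ v ∈ range c, cnt X (k * j + v) :=
          sum_le_sum fun v _ => Av_cnt X D j hD k _ (Nat.le_add_right _ _)
  have h4 := Av_gauss (j + 1) k
  have h5 : j * (∑ i ∈ range k, (2 * i * (j + 1) + 1)) + j * ((j + 1) * k) =
      j * ((j + 1) * k * k + k) := by rw [← mul_add, h4]
  have h6 : c * (2 * x) + j * ((j + 1) * k * k + k) ≤ x ^ 2 + j * ((j + 1) * k) := by omega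
  rw [hc] at h6
  obtain ⟨e, he⟩ : ∃ e, k = j + 1 + e := ⟨k - (j + 1), by omega⟩
  have h7 : 0 < c * c := Nat.mul_pos hc0 hc0
  have h8 : c * c + j * k * (e + 1) ≤ 0 := by
    have h9 : j * k * k + j * k = j * k * (j + 1) + j * k * (e + 1) := by
      rw [← mul_add]
      nth_rewrite 2 [he]
      ring
    nlinarith
  omega

end Pool.Agent.SDG
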