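import Pool.Agent.SDG.St

/-!
SDG [Co]: balanced colourings.
-/

set_option autoImplicit false

open Finset Pool.Agent.Helper64.Rho
open scoped Classical Pointwise

namespace Pool.Agent.SDG

theorem Co_mono {G ι : Type*} [AddCommGroup G] {g : ℕ} {s t : Finset ι} {f : ι → G}
    (h : Cap g s f) (hst : t ⊆ s) : Cap g t f := fun x =>
  (Finset.card_le_card (Finset.filter_subset_filter _ hst)).trans (h x)

/-- adding a member to a class -/
theorem Co_insert {G ι : Type*} [AddCommGroup G] {s : Finset ι} {f : ι → G} {z : ι} (hz : z ∉ s)
    (h : Cap 2 s f) (h1 : (s.filter fun i => f i = f z ∨ f i = -f z).card ≤ 1) :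
    Cap 2 (insert z s) f := by
  intro x
  by_cases hx : f z = x ∨ f z = -x
  · rw [Finset.filter_insert, if_pos hx, Finset.card_insert_of_notMem (by simp [hz])]
    have h2 : (s.filter fun i => f i = x ∨ f i = -x) = s.filter fun i => f i = f z ∨ f i = -f z := by
      apply Finset.filter_congr
      intro i _
      rcases hx with hx | hx
      · rw [hx]
      · rw [hx, neg_neg]
        exact or_comm
    rw [h2]
    omega
  · rw [Finset.filter_insert, if_neg hx]
    exact h x

theorem Co_exists {G ι : Type} [AddCommGroup G] (f : ι → G) (h : ℕ) (hh : 1 ≤ h) (s : Finset ι) :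
    Cap (2 * h) s f → ∃ c : ι → Fin h, ∀ k, Cap 2 (s.filter fun i => c i = k) f := by
  induction s using Finset.induction_on with
  | empty =>
    intro _
    exact ⟨fun _ => ⟨0, hh⟩, fun k x => by simp⟩
  | insert z s hz ih =>
    intro hcap
    obtain ⟨c, hc⟩ := ih (Co_mono hcap (Finset.subset_insert z s))
    have hk : ∃ k : Fin h, ((s.filter fun i => c i = k).filter
        fun i => f i = f z ∨ f i = -f z).card ≤ 1 := by
      by_contra hno
      push Not at hno
      have h1 : (s.filter fun i => f i = f z ∨ f i = -f z).card =
          ∑ k : Fin h, ((s.filter fun i => f i = f z ∨ f i = -f z).filter fun i => c i = k).card :=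
        Finset.card_eq_sum_card_fiberwise fun _ _ => Finset.mem_coe.2 (Finset.mem_univ _)
      have h2 : ∑ k : Fin h, 2 ≤
          ∑ k : Fin h, ((s.filter fun i => f i = f z ∨ f i = -f z).filter fun i => c i = k).card := by
        refine Finset.sum_le_sum fun k _ => ?_
        have h3 := hno k
        rw [Finset.filter_comm]
        exact h3
      have h4 := hcap (f z)
      rw [Finset.filter_insert, if_pos (Or.inl rfl), Finset.card_insert_of_notMem (by simp [hz])] at h4
      simp only [Finset.sum_const, Finset.card_univ, Fintype.card_fin, smul_eq_mul] at h2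
      omega
    obtain ⟨k, hk⟩ := hk
    refine ⟨Function.update c z k, fun l => ?_⟩
    have hs : (s.filter fun i => Function.update c z k i = l) = s.filter fun i => c i = l := by
      apply Finset.filter_congr
      intro i hi
      have : i ≠ z := fun e => hz (e ▸ hi)
      rw [Function.update_of_ne this]
    rw [Finset.filter_insert, hs]
    by_cases hl : k = l
    · subst hl
      rw [if_pos (by simp)]
      exact Co_insert (by simp [hz]) (hc k) hk
    · rw [if_neg (by simpa using hl)]
      exact hc l

/-- a member of the larger class that can be moved -/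
theorem Co_move {G ι : Type} [AddCommGroup G] (f : ι → G) (S L : Finset ι)
    (h : L.card < S.card) : ∃ z ∈ S, (L.filter fun i => f i = f z ∨ f i = -f z).card <
      (S.filter fun i => f i = f z ∨ f i = -f z).card := by
  by_contra hno
  push Not at hno
  have hφ : ∀ i j : ι, s(f i, -f i) = s(f j, -f j) ↔ f i = f j ∨ f i = -f j := by
    intro i j
    rw [Sym2.eq_iff]
    constructor
    · rintro (⟨h1, _⟩ | ⟨h1, _⟩)
      · exact Or.inl h1
      · exact Or.inr h1
    · rintro (h1 | h1)
      · exact Or.inl ⟨h1, by rw [h1]⟩
      · exact Or.inr ⟨h1, by rw [h1, neg_neg]⟩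
  have e1 : S.card = ∑ b ∈ (S ∪ L).image fun i => s(f i, -f i),
      (S.filter fun i => s(f i, -f i) = b).card :=
    Finset.card_eq_sum_card_fiberwise fun i hi => by
      have hi' : i ∈ S := hi
      exact Finset.mem_coe.2 (Finset.mem_image_of_mem _ (Finset.mem_union_left _ hi'))
  have e2 : L.card = ∑ b ∈ (S ∪ L).image fun i => s(f i, -f i),
      (L.filter fun i => s(f i, -f i) = b).card :=
    Finset.card_eq_sum_card_fiberwise fun i hi => by
      have hi' : i ∈ L := hi
      exact Finset.mem_coe.2 (Finset.mem_image_of_mem _ (Finset.mem_union_right _ hi'))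
  have e3 : S.card ≤ L.card := by
    rw [e1, e2]
    refine Finset.sum_le_sum fun b _ => ?_
    by_cases hb : ∃ z ∈ S, s(f z, -f z) = b
    · obtain ⟨z, hz, rfl⟩ := hb
      simp only [hφ]
      exact hno z hz
    · have : (S.filter fun i => s(f i, -f i) = b) = ∅ := by
        rw [Finset.filter_eq_empty_iff]
        intro i hi he
        exact hb ⟨i, hi, he⟩
      rw [this, Finset.card_empty]
      exact Nat.zero_le _
  omega

/-- [Co] -/
theorem thm_Co : St_Co := by
  intro G ι _ s f h hh hcap
  obtain ⟨c0, hc0⟩ := Co_exists f h hh s hcap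
  have hex : ∃ n : ℕ, ∃ c : ι → Fin h, (∀ k, Cap 2 (s.filter fun i => c i = k) f) ∧
      ∑ k : Fin h, (s.filter fun i => c i = k).card ^ 2 = n := ⟨_, c0, hc0, rfl⟩
  obtain ⟨c, hc, hn⟩ := Nat.find_spec hex
  have hmin : ∀ c' : ι → Fin h, (∀ k, Cap 2 (s.filter fun i => c' i = k) f) →
      ∑ k : Fin h, (s.filter fun i => c i = k).card ^ 2 ≤
        ∑ k : Fin h, (s.filter fun i => c' i = k).card ^ 2 := by
    intro c' hc'
    rw [hn]
    exact Nat.find_min' hex ⟨c', hc', rfl⟩
  refine ⟨c, hc, fun k l => ?_⟩
  by_contra hkl
  push Not at hkl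
  have hne : k ≠ l := by
    rintro rfl
    omega
  obtain ⟨z, hz, hlt⟩ := Co_move f (s.filter fun i => c i = k) (s.filter fun i => c i = l) (by omega)
  have hzs : z ∈ s := (Finset.mem_filter.1 hz).1
  have hzk : c z = k := (Finset.mem_filter.1 hz).2
  have hzl : z ∉ s.filter fun i => c i = l := by
    intro h1
    exact hne (hzk.symm.trans (Finset.mem_filter.1 h1).2)
  have eL : (s.filter fun i => Function.update c z l i = l) =
      insert z (s.filter fun i => c i = l) := by
    ext i
    rw [Finset.mem_filter, Finset.mem_insert, Finset.mem_filter]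
    by_cases hi : i = z
    · subst hi
      simp [hzs]
    · rw [Function.update_of_ne hi]
      simp [hi]
  have eK : (s.filter fun i => Function.update c z l i = k) =
      (s.filter fun i => c i = k).erase z := by
    ext i
    rw [Finset.mem_filter, Finset.mem_erase, Finset.mem_filter]
    by_cases hi : i = z
    · subst hi
      simp [hne.symm]
    · rw [Function.update_of_ne hi]
      simp [hi]
  have eM : ∀ m : Fin h, m ≠ k → m ≠ l →
      (s.filter fun i => Function.update c z l i = m) = s.filter fun i => c i = m := by
    intro m hmk hml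
    ext i
    rw [Finset.mem_filter, Finset.mem_filter]
    by_cases hi : i = z
    · subst hi
      simp [hzk, hmk.symm, hml.symm]
    · rw [Function.update_of_ne hi]
  have hcap' : ∀ m, Cap 2 (s.filter fun i => Function.update c z l i = m) f := by
    intro m
    by_cases hmk : m = k
    · subst hmk
      rw [eK]
      exact Co_mono (hc m) (Finset.erase_subset _ _)
    · by_cases hml : m = l
      · subst hml
        rw [eL]
        refine Co_insert hzl (hc m) ?_
        have := hc k (f z)
        omega
      · rw [eM m hmk hml]
        exact hc m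
  have hle := hmin _ hcap'
  have hl' : l ∈ (Finset.univ : Finset (Fin h)).erase k := Finset.mem_erase.2 ⟨hne.symm, Finset.mem_univ _⟩
  rw [← Finset.add_sum_erase _ _ (Finset.mem_univ k), ← Finset.add_sum_erase _ _ hl',
    ← Finset.add_sum_erase (Finset.univ : Finset (Fin h))
      (fun m => (s.filter fun i => Function.update c z l i = m).card ^ 2) (Finset.mem_univ k),
    ← Finset.add_sum_erase _
      (fun m => (s.filter fun i => Function.update c z l i = m).card ^ 2) hl'] at hle
  have hrest : ∑ m ∈ ((Finset.univ : Finset (Fin h)).erase k).erase l,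
      (s.filter fun i => Function.update c z l i = m).card ^ 2 =
      ∑ m ∈ ((Finset.univ : Finset (Fin h)).erase k).erase l,
      (s.filter fun i => c i = m).card ^ 2 := by
    refine Finset.sum_congr rfl fun m hm => ?_
    rw [eM m (Finset.mem_erase.1 (Finset.mem_erase.1 hm).2).1 (Finset.mem_erase.1 hm).1]
  rw [hrest] at hle
  simp only [eK, eL] at hle
  rw [Finset.card_insert_of_notMem hzl, Finset.card_erase_of_mem hz] at hle
  generalize (s.filter fun i => c i = k).card = p at hle hkl
  generalize (s.filter fun i => c i = l).card = q at hle hkl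
  obtain ⟨r, rfl⟩ : ∃ r, p = r + 1 := ⟨p - 1, by omega⟩
  rw [Nat.add_sub_cancel] at hle
  nlinarith

end Pool.Agent.SDG
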