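import Pool.Agent.SDG.St

/-!
# SDG, module Ds (helper86): the symmetric set of a family
-/

set_option autoImplicit false

noncomputable section

open Finset Pool.Agent.Helper64.Rho
open scoped Classical Pointwise

namespace Pool.Agent.SDG

theorem Ds_even {G : Type} [AddCommGroup G] (E : Finset G) (h1 : ∀ y ∈ E, -y ∈ E) (h2 : ∀ y ∈ E, y ≠ -y) :
    2 ∣ E.card := by
  have h3 : ∑ _y ∈ E, (1 : ZMod 2) = 0 := by
    refine Finset.sum_involution (fun y _ => -y) ?_ ?_ ?_ ?_
    · intro a _
      decide
    · intro a ha _ h
      exact h2 a ha h.symm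
    · intro a ha
      exact h1 a ha
    · intro a _
      exact neg_neg a
  rw [Finset.sum_const, nsmul_eq_mul, mul_one] at h3
  exact (ZMod.natCast_eq_zero_iff _ _).1 h3

theorem thm_Ds (hBa : St_Ba1) : St_Ds := by
  intro G ι _ s f hnz hap hcap
  obtain ⟨-, -, -, -, hinv, -, -⟩ := hBa G ι f
  have hne : ∀ i ∈ s, f i ≠ - f i := fun i hi => hinv s i hi hap (hnz i hi)
  set E : Finset G := s.image f ∪ s.image (fun i => - f i) with hE
  have hmem : ∀ y, y ∈ E ↔ ∃ i ∈ s, f i = y ∨ f i = -y := by
    intro y
    rw [hE, Finset.mem_union, Finset.mem_image, Finset.mem_image]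
    constructor
    · rintro (⟨i, hi, h⟩ | ⟨i, hi, h⟩)
      · exact ⟨i, hi, Or.inl h⟩
      · exact ⟨i, hi, Or.inr (by rw [← h, neg_neg])⟩
    · rintro ⟨i, hi, h | h⟩
      · exact Or.inl ⟨i, hi, h⟩
      · exact Or.inr ⟨i, hi, by rw [h, neg_neg]⟩
  have hneg : ∀ y ∈ E, -y ∈ E := by
    intro y hy
    obtain ⟨i, hi, h⟩ := (hmem y).1 hy
    refine (hmem (-y)).2 ⟨i, hi, ?_⟩
    rw [neg_neg]
    exact h.symm
  have hfix : ∀ y ∈ E, y ≠ -y := by
    intro y hy h0
    obtain ⟨i, hi, h | h⟩ := (hmem y).1 hy
    · apply hne i hi
      rw [h]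
      exact h0
    · apply hne i hi
      rw [h, neg_neg]
      exact h0.symm
  have hzero : (0 : G) ∉ E := by
    intro h
    exact hfix 0 h (neg_zero).symm
  have hev := Ds_even E hneg hfix
  have hcount : s.card ≤ E.card := by
    have h1 : (s ×ˢ (Finset.univ : Finset Bool)).card ≤ 2 * E.card := by
      refine Finset.card_le_mul_card_image_of_maps_to (f := fun p : ι × Bool => if p.2 then f p.1 else - f p.1) ?_ 2 ?_
      · rintro ⟨i, b⟩ hp
        have hi := (Finset.mem_product.1 hp).1
        cases b
        · exact (hmem _).2 ⟨i, hi, Or.inr (by simp)⟩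
        · exact (hmem _).2 ⟨i, hi, Or.inl (by simp)⟩
      · intro y hy
        refine le_trans ?_ (hcap y)
        refine Finset.card_le_card_of_injOn (fun p : ι × Bool => p.1) ?_ ?_
        · rintro ⟨i, b⟩ hp
          rw [Finset.mem_coe, Finset.mem_filter] at hp
          rw [Finset.mem_coe, Finset.mem_filter]
          refine ⟨(Finset.mem_product.1 hp.1).1, ?_⟩
          have h2 := hp.2
          cases b
          · right
            simp only [Bool.false_eq_true, if_false] at h2
            rw [← h2, neg_neg]
          · left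
            simpa using h2
        · rintro ⟨i, b⟩ hp ⟨i', b'⟩ hp' h
          rw [Finset.mem_coe, Finset.mem_filter] at hp hp'
          have hii : i = i' := h
          subst hii
          have hi := (Finset.mem_product.1 hp.1).1
          have h2 := hp.2
          have h3 := hp'.2
          cases b <;> cases b'
          · rfl
          · exfalso
            simp only [Bool.false_eq_true, if_false, if_true] at h2 h3
            exact hne i hi (h3.trans h2.symm)
          · exfalso
            simp only [Bool.false_eq_true, if_false, if_true] at h2 h3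
            exact hne i hi (h2.trans h3.symm)
          · rfl
    rw [Finset.card_product, Finset.card_univ, Fintype.card_bool] at h1
    omega
  refine ⟨insert 0 E, Finset.mem_insert_self _ _, ?_, ?_, ?_, ?_⟩
  · intro y hy
    rcases Finset.mem_insert.1 hy with rfl | hy
    · rw [neg_zero]; exact Finset.mem_insert_self _ _
    · exact Finset.mem_insert_of_mem (hneg y hy)
  · intro y hy hy0
    exact (hmem y).1 ((Finset.mem_insert.1 hy).resolve_left hy0)
  · apply le_antisymm
    · rw [AddSubgroup.closure_le]
      intro y hy
      rcases Finset.mem_insert.1 (Finset.mem_coe.1 hy) with rfl | hy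
      · exact (gen s f).zero_mem
      · obtain ⟨i, hi, h⟩ := (hmem y).1 hy
        have h1 : f i ∈ gen s f := AddSubgroup.subset_closure ⟨i, hi, rfl⟩
        rcases h with h | h
        · rw [← h]; exact h1
        · have h2 := (gen s f).neg_mem h1
          rw [h, neg_neg] at h2
          exact h2
    · unfold gen
      rw [AddSubgroup.closure_le]
      rintro _ ⟨i, hi, rfl⟩
      apply AddSubgroup.subset_closure
      rw [Finset.mem_coe]
      exact Finset.mem_insert_of_mem ((hmem _).2 ⟨i, hi, Or.inl rfl⟩)
  · rw [Finset.card_insert_of_notMem hzero]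
    unfold jj
    omega

end Pool.Agent.SDG
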