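import Pool.Agent.SDG.St

/-!
# SDG, module Gr: growth of the iterated sums of a symmetric set
-/

set_option autoImplicit false

noncomputable section

open Finset Pool.Agent.Helper64.Rho
open scoped Classical Pointwise

namespace Pool.Agent.SDG

/-- the group of the periods of a finite set -/
private def Gr_per {G : Type} [AddCommGroup G] (X : Finset G) : AddSubgroup G where
  carrier := {g | ∀ x ∈ X, x + g ∈ X}
  add_mem' := by
    intro a b ha hb x hx
    have := hb _ (ha x hx)
    rwa [add_assoc] at this
  zero_mem' := by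
    intro x hx
    simpa using hx
  neg_mem' := by
    intro g hg x hx
    have h1 : X.image (· + g) = X := by
      apply eq_of_subset_of_card_le
      · intro y hy
        obtain ⟨z, hz, rfl⟩ := mem_image.1 hy
        exact hg z hz
      · rw [card_image_of_injective _ (add_left_injective g)]
    rw [← h1] at hx
    obtain ⟨z, hz, rfl⟩ := mem_image.1 hx
    simpa using hz

private lemma Gr_mem {G : Type} [AddCommGroup G] {X : Finset G} {g : G} :
    g ∈ Gr_per X ↔ ∀ x ∈ X, x + g ∈ X := Iff.rfl

/-- a finset with the elements of a subgroup -/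
private lemma Gr_fin {G : Type} [AddCommGroup G] [Finite G] (L : AddSubgroup G) :
    ∃ F : Finset G, (∀ x, x ∈ F ↔ x ∈ L) ∧ F.card = Nat.card L := by
  refine ⟨(Set.toFinite (L : Set G)).toFinset, fun x => by simp, ?_⟩
  rw [← Set.ncard_eq_toFinset_card]
  rfl

private lemma Gr_zero {G : Type} [AddCommGroup G] (D : Finset G) (h0 : (0 : G) ∈ D) (i : ℕ) :
    (0 : G) ∈ it D i := by
  induction i with
  | zero => simp [it]
  | succ i ih =>
    show (0 : G) ∈ it D i + D
    have := add_mem_add ih h0
    simpa using this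

private lemma Gr_image {G G' : Type} [AddCommGroup G] [AddCommGroup G'] (φ : G →+ G')
    (D : Finset G) (i : ℕ) : it (D.image φ) i = (it D i).image φ := by
  induction i with
  | zero => simp [it]
  | succ i ih =>
    show it (D.image φ) i + D.image φ = (it D i + D).image φ
    rw [ih, image_add]

private lemma Gr_grow (hK : St_Kn) {G : Type} [AddCommGroup G] [Finite G] (D : Finset G)
    (h0 : (0 : G) ∈ D) (i : ℕ) : Aper (it D i) → i * (D.card - 1) + 1 ≤ (it D i).card := by
  induction i with
  | zero => simp [it]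
  | succ i ih =>
    intro hA
    have hD : D.Nonempty := ⟨0, h0⟩
    have hI : (it D i).Nonempty := ⟨0, Gr_zero D h0 i⟩
    have h1 := (hK G).1 (it D i) D hI hD hA
    have h2 := ih ((hK G).2.2.1 (it D i) D hI hD hA).1
    have h3 : 1 ≤ D.card := hD.card_pos
    show (i + 1) * (D.card - 1) + 1 ≤ (it D i + D).card
    rw [add_mul, one_mul]
    omega

private lemma Gr_core (hK : St_Kn) {G Q : Type} [AddCommGroup G] [Finite G] [AddCommGroup Q]
    [Finite Q] (D : Finset G) (J i : ℕ) (h0 : (0 : G) ∈ D) (hs : ∀ y ∈ D, -y ∈ D)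
    (hD : AddSubgroup.closure (D : Set G) = ⊤) (hJ : 2 * J + 1 ≤ D.card)
    (hi : (it D i).card < 2 * i * J + 1) (hG : (it D i).card < Nat.card G) (π : G →+ Q)
    (hsur : Function.Surjective π) (hker : ∀ x, π x = 0 ↔ x ∈ Gr_per (it D i)) :
    ∃ H : AddSubgroup G, Nat.card H + 1 ≤ J ∧ ∃ y ∈ D, y ≠ 0 ∧ y ∈ H := by
  set X := it D i with hX
  have hX0 : (0 : G) ∈ X := Gr_zero D h0 i
  have hXc : 1 ≤ X.card := card_pos.2 ⟨0, hX0⟩
  have hi1 : 1 ≤ i := by
    rcases Nat.eq_zero_or_pos i with h | h
    · rw [h] at hi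
      omega
    · exact h
  obtain ⟨HF, hHF, hHc⟩ := Gr_fin (Gr_per X)
  set H := Gr_per X with hH
  have hHpos : 1 ≤ Nat.card H := Nat.card_pos
  have hπ : ∀ x y : G, π x = π y ↔ y - x ∈ H := by
    intro x y
    rw [← hker, map_sub, sub_eq_zero]
    exact eq_comm
  have hXH : ∀ x ∈ X, ∀ g ∈ H, x + g ∈ X := fun x hx g hg => Gr_mem.1 hg x hx
  -- the set is a union of cosets
  have hcard : X.card = Nat.card H * (X.image π).card := by
    rw [card_eq_sum_card_image π X, mul_comm, ← smul_eq_mul, ← sum_const]
    refine sum_congr rfl fun C hC => ?_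
    obtain ⟨a, ha, rfl⟩ := mem_image.1 hC
    rw [← hHc]
    refine card_bij (fun x _ => x - a) ?_ (fun x _ y _ h => sub_left_injective h) ?_
    · intro x hx
      rw [hHF]
      exact (hπ _ _).1 (mem_filter.1 hx).2.symm
    · intro y hy
      rw [hHF] at hy
      refine ⟨a + y, ?_, by abel⟩
      rw [mem_filter]
      refine ⟨hXH a ha y hy, ?_⟩
      rw [eq_comm, hπ]
      simpa using hy
  have himg : it (D.image π) i = X.image π := Gr_image π D i
  have hAp : Aper (it (D.image π) i) := by
    rw [himg]
    intro g hg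
    obtain ⟨g, rfl⟩ := hsur g
    rw [hker, Gr_mem]
    intro x hx
    have h1 : π (x + g) ∈ X.image π := by
      rw [map_add]
      exact hg _ (mem_image_of_mem _ hx)
    obtain ⟨y, hy, hyx⟩ := mem_image.1 h1
    have h2 := hXH y hy _ ((hπ _ _).1 hyx)
    simpa using h2
  have h0' : (0 : Q) ∈ D.image π := by
    rw [← map_zero π]
    exact mem_image_of_mem _ h0
  have hgrow := Gr_grow hK (D.image π) h0' i hAp
  rw [himg] at hgrow
  have hne : ∃ y ∈ D, y ∉ H := by
    by_contra hcon
    push Not at hcon
    have h1 : H = ⊤ := by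
      rw [eq_top_iff, ← hD, AddSubgroup.closure_le]
      exact hcon
    have h2 : Nat.card G ≤ X.card := by
      rw [← AddSubgroup.card_top (G := G), ← h1, ← hHc]
      refine card_le_card fun x hx => ?_
      have := hXH 0 hX0 x ((hHF x).1 hx)
      simpa using this
    omega
  obtain ⟨y0, hy0, hy0'⟩ := hne
  have hy1 : π y0 ≠ 0 := by
    intro h
    exact hy0' ((hker y0).1 h)
  have hy2 : π y0 ∈ D.image π := mem_image_of_mem _ hy0
  have hd3 : 3 ≤ (D.image π).card := by
    by_contra hlt
    have h1 : D.image π = {0, π y0} := by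
      symm
      apply eq_of_subset_of_card_le
      · intro z hz
        rcases mem_insert.1 hz with rfl | hz
        · exact h0'
        · rw [mem_singleton.1 hz]
          exact hy2
      · rw [card_pair hy1.symm]
        omega
    have h2 : π y0 + π y0 = 0 := by
      have h3 : π (-y0) ∈ D.image π := mem_image_of_mem _ (hs y0 hy0)
      rw [h1, map_neg] at h3
      rcases mem_insert.1 h3 with h3 | h3
      · exact absurd (neg_eq_zero.1 h3) hy1
      · have h4 := mem_singleton.1 h3
        nth_rewrite 1 [← h4]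
        exact neg_add_cancel _
    apply hy1
    apply hAp
    intro x hx
    obtain ⟨n, rfl⟩ : ∃ n, i = n + 1 := ⟨i - 1, by omega⟩
    change x ∈ it (D.image π) n + D.image π at hx
    show x + π y0 ∈ it (D.image π) n + D.image π
    obtain ⟨a, ha, b, hb, rfl⟩ := mem_add.1 hx
    rw [add_assoc]
    refine add_mem_add ha ?_
    rw [h1] at hb ⊢
    rcases mem_insert.1 hb with rfl | hb
    · simp
    · rw [mem_singleton.1 hb, h2]
      simp
  have hHJ : Nat.card H + 1 ≤ J := by
    have h1 : i * 2 + 1 ≤ (X.image π).card := by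
      refine le_trans ?_ hgrow
      have : i * 2 ≤ i * ((D.image π).card - 1) := Nat.mul_le_mul_left _ (by omega)
      omega
    have h2 : Nat.card H * (i * 2 + 1) ≤ 2 * i * J := by
      have := Nat.mul_le_mul_left (Nat.card H) h1
      omega
    by_contra hlt
    have h3 : J ≤ Nat.card H := by omega
    have h4 : J * (i * 2) ≤ Nat.card H * (i * 2) := Nat.mul_le_mul_right _ h3
    nlinarith
  refine ⟨H, hHJ, ?_⟩
  by_contra hcon
  push Not at hcon
  have hcon' : ∀ y ∈ D, y ∈ H → y = 0 := by
    intro y hy hyH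
    by_contra hy0
    exact hcon y hy hy0 hyH
  have hDc : D.card ≤ 1 + ((D.image π).card - 1) * Nat.card H := by
    rw [card_eq_sum_card_image π D, ← sum_erase_add _ _ h0', add_comm]
    refine Nat.add_le_add ?_ ?_
    · rw [card_le_one]
      intro a ha b hb
      rw [mem_filter] at ha hb
      rw [hcon' a ha.1 ((hker a).1 ha.2), hcon' b hb.1 ((hker b).1 hb.2)]
    · rw [← card_erase_of_mem h0', ← smul_eq_mul, ← sum_const]
      refine sum_le_sum fun C hC => ?_
      obtain ⟨a, ha, rfl⟩ := mem_image.1 (mem_erase.1 hC).2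
      rw [← hHc]
      refine card_le_card_of_injOn (fun x => x - a) ?_ (fun x _ y _ h => sub_left_injective h)
      intro x hx
      rw [mem_coe, mem_filter] at hx
      show x - a ∈ (HF : Set G)
      rw [mem_coe, hHF]
      exact (hπ _ _).1 hx.2.symm
  have h5 : Nat.card H * (i * ((D.image π).card - 1) + 1) ≤ X.card := by
    rw [hcard]
    exact Nat.mul_le_mul_left _ hgrow
  have h6 : i * (2 * J) ≤ i * (((D.image π).card - 1) * Nat.card H) :=
    Nat.mul_le_mul_left _ (by omega)
  nlinarith

theorem thm_Gr : St_Kn → St_Gr := by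
  intro hK G _ _ D J i h0 hs hD hJ hi hG
  exact Gr_core hK D J i h0 hs hD hJ hi hG (QuotientAddGroup.mk' (Gr_per (it D i)))
    (QuotientAddGroup.mk'_surjective _) (fun x => QuotientAddGroup.eq_zero_iff x)

end Pool.Agent.SDG
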