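import Pool.Agent.SDG.St

/-!
# SDG, module Kp (helper86): the Kneser inequality for a coloured family
-/

set_option autoImplicit false

noncomputable section

open Finset Pool.Agent.Helper64.Rho
open scoped Classical Pointwise

namespace Pool.Agent.SDG

theorem thm_Kp (hBa : St_Ba1) (hKn : St_Kn) : St_Kp := by
  intro G ι κ _ _ s f c P
  induction P using Finset.induction_on generalizing s with
  | empty =>
    intro hc hap
    have h0 : s = ∅ := Finset.eq_empty_of_forall_notMem (fun i hi => Finset.notMem_empty _ (hc i hi))
    subst h0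
    simp
  | insert k P hk ih =>
    intro hc hap
    have hs : s = (s.filter fun i => ¬ c i = k) ∪ (s.filter fun i => c i = k) := by
      rw [Finset.union_comm]
      exact (Finset.filter_union_filter_not_eq _ s).symm
    have hd : Disjoint (s.filter fun i => ¬ c i = k) (s.filter fun i => c i = k) :=
      (Finset.disjoint_filter_filter_not s s _).symm
    obtain ⟨hU, hA, -⟩ := hBa G ι f
    have h1 : FS s f = FS (s.filter fun i => ¬ c i = k) f + FS (s.filter fun i => c i = k) f := by
      rw [← hU _ _ hd, ← hs]
    have h2 := ih (s.filter fun i => ¬ c i = k)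
      (by
        intro i hi
        rw [Finset.mem_filter] at hi
        exact (Finset.mem_insert.1 (hc i hi.1)).resolve_left hi.2)
      (hA s _ (Finset.filter_subset _ _) hap)
    have h3 := (hKn G).1 (FS (s.filter fun i => ¬ c i = k) f) (FS (s.filter fun i => c i = k) f)
      ⟨0, zero_mem_FS _ _⟩ ⟨0, zero_mem_FS _ _⟩ (by rw [← h1]; exact hap)
    rw [← h1] at h3
    rw [Finset.sum_insert hk]
    have h4 : ∑ j ∈ P, ((FS ((s.filter fun i => ¬ c i = k).filter fun i => c i = j) f).card - 1) =
        ∑ j ∈ P, ((FS (s.filter fun i => c i = j) f).card - 1) := by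
      apply Finset.sum_congr rfl
      intro j hj
      have h5 : ((s.filter fun i => ¬ c i = k).filter fun i => c i = j) = s.filter fun i => c i = j := by
        ext i
        simp only [Finset.mem_filter]
        constructor
        · rintro ⟨⟨h6, -⟩, h7⟩
          exact ⟨h6, h7⟩
        · rintro ⟨h6, h7⟩
          refine ⟨⟨h6, ?_⟩, h7⟩
          rintro rfl
          exact hk (h7 ▸ hj)
      rw [h5]
    rw [h4] at h2
    have h6 : 1 ≤ (FS (s.filter fun i => c i = k) f).card := Finset.card_pos.2 ⟨0, zero_mem_FS _ _⟩
    omega

end Pool.Agent.SDG
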