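import Pool.Agent.SDG.St

/-!
# SDG, module Lo: the lower bound
-/

set_option autoImplicit false

noncomputable section

open Finset Pool.Agent.Helper64.Rho
open scoped Classical Pointwise

namespace Pool.Agent.SDG

/-- the group of the periods of a finite set -/
private def Lo_per {G : Type} [AddCommGroup G] (X : Finset G) : AddSubgroup G where
  carrier := {g | ∀ x ∈ X, x + g ∈ X}
  add_mem' := by
    intro a b ha hb x hx
    have := hb _ (ha x hx)
    rwa [add_assoc] at this
  zero_mem' := by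
    intro x hx
    simpa using hx
  neg_mem' := by
    intro g hg x hx
    have h1 : X.image (· + g) = X := by
      apply eq_of_subset_of_card_le
      · intro y hy
        obtain ⟨z, hz, rfl⟩ := mem_image.1 hy
        exact hg z hz
      · rw [card_image_of_injective _ (add_left_injective g)]
    rw [← h1] at hx
    obtain ⟨z, hz, rfl⟩ := mem_image.1 hx
    simpa using hz

private lemma Lo_mem {G : Type} [AddCommGroup G] {X : Finset G} {g : G} :
    g ∈ Lo_per X ↔ ∀ x ∈ X, x + g ∈ X := Iff.rfl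

/-- a finset with the elements of a subgroup -/
private lemma Lo_fin {G : Type} [AddCommGroup G] [Finite G] (L : AddSubgroup G) :
    ∃ F : Finset G, (∀ x, x ∈ F ↔ x ∈ L) ∧ F.card = Nat.card L := by
  refine ⟨(Set.toFinite (L : Set G)).toFinset, fun x => by simp, ?_⟩
  rw [← Set.ncard_eq_toFinset_card]
  rfl

private lemma Lo_num (n m : ℕ) (hn : 1 ≤ n)
    (h : m * (m + 1) ≤ 2 * (n - 1) ∨ (m % 2 = 0 ∧ m ^ 2 ≤ 2 * (n - 1))) :
    1 + (m + 1) ^ 2 / 4 + jj m * (jj m - 1) ≤ n := by
  obtain ⟨k, rfl⟩ : ∃ k, n = k + 1 := ⟨n - 1, by omega⟩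
  rw [Nat.add_sub_cancel] at h
  unfold jj
  rcases Nat.even_or_odd' m with ⟨a, rfl | rfl⟩
  · have h1 : (2 * a + 1) / 2 = a := by omega
    have h2 : (2 * a + 1) ^ 2 / 4 = a * a + a := by
      have : (2 * a + 1) ^ 2 = 4 * (a * a + a) + 1 := by ring
      omega
    have h3 : 2 * (a * a) ≤ k := by
      rcases h with h | ⟨_, h⟩ <;> nlinarith
    rw [h1, h2, Nat.mul_sub, mul_one]
    have h4 : a ≤ a * a := Nat.le_mul_self a
    omega
  · have h1 : (2 * a + 1 + 1) / 2 = a + 1 := by omega
    have h2 : (2 * a + 1 + 1) ^ 2 / 4 = a * a + 2 * a + 1 := by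
      have : (2 * a + 1 + 1) ^ 2 = 4 * (a * a + 2 * a + 1) := by ring
      omega
    rw [h1, h2, Nat.add_sub_cancel]
    rcases h with h | ⟨h, _⟩
    · nlinarith
    · omega

theorem thm_Lo : St_Nm1 → St_Nm2 → St_Se → St_Lo := by
  intro h1 h2 hSe G _ _ A h0 hA hgen hR
  have := Fintype.ofFinite G
  set T := FS A (id : G → G) with hT
  set n := Nat.card G with hn
  set m := A.card with hm
  have hn1 : 1 ≤ n := Nat.card_pos
  obtain ⟨HF, hHF, hHc⟩ := Lo_fin (Lo_per T)
  obtain ⟨hS1, hS2⟩ := hSe G A (Lo_per T) h0 (fun g => Lo_mem)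
  rw [← hT] at hS1 hS2
  rw [← hm] at hS2
  have h0T : (0 : G) ∈ T := zero_mem_FS _ _
  have hfull : Lo_per T = ⊤ → n ≤ T.card := by
    intro h
    rw [hn, Nat.card_eq_fintype_card, ← card_univ]
    refine card_le_card fun g _ => ?_
    have h3 : g ∈ Lo_per T := by rw [h]; trivial
    simpa using Lo_mem.1 h3 0 h0T
  have hfull' : n ≤ T.card → Lo_per T = ⊤ := by
    intro h
    have h3 : T = univ := by
      rw [← card_eq_iff_eq_univ]
      apply le_antisymm (card_le_univ _)
      rwa [← Nat.card_eq_fintype_card]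
    rw [eq_top_iff]
    intro g _
    rw [Lo_mem]
    intro x _
    rw [h3]
    exact mem_univ _
  unfold bd
  by_cases hH : Lo_per T = ⊤
  · exact (Nat.sInf_le (Or.inl rfl)).trans (hfull hH)
  have hdvd : Nat.card (Lo_per T) ∣ n := AddSubgroup.card_addSubgroup_dvd_card _
  have hpos : 1 ≤ Nat.card (Lo_per T) := Nat.card_pos
  have hlt : Nat.card (Lo_per T) < n := by
    refine lt_of_le_of_ne (Nat.le_of_dvd hn1 hdvd) fun h => hH ?_
    exact AddSubgroup.eq_top_of_card_eq _ h
  refine (Nat.sInf_le (Or.inr ⟨Nat.card (Lo_per T), hdvd, hlt, hpos, rfl⟩)).trans ?_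
  rcases Nat.lt_or_ge (Nat.card (Lo_per T)) 2 with hh | hh
  · have hone : Nat.card (Lo_per T) = 1 := by omega
    rw [hone]
    have e1 : max 1 (m + 1 - 1) = m := by
      rw [Nat.add_sub_cancel]
      exact max_eq_right hA
    rw [e1, one_mul]
    show cf 2 m ≤ T.card
    obtain ⟨h4, h5 | h5⟩ := hS2 hone
    · exact h5
    rw [hgen, AddSubgroup.card_top] at h5
    have h6 := h1.2.2.1 m
    by_cases hR' : m * (m + 1) ≤ 2 * (n - 1) ∨ (m % 2 = 0 ∧ m ^ 2 ≤ 2 * (n - 1))
    · have h7 := Lo_num n m hn1 hR'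
      omega
    · exfalso
      apply hH
      apply hfull'
      have h8 : 8 * (n - 1) ≤ (m + 2) ^ 2 := by
        rcases hR with h | h | h
        · exact absurd (Or.inl h) hR'
        · exact absurd (Or.inr h) hR'
        · exact h
      have h9 := h2.1 m
      have h10 := h1.2.2.1 (m + 1)
      have h11 : (m + 1 + 1) ^ 2 = (m + 2) ^ 2 := by ring
      rw [h11] at h10
      omega
  · refine le_trans (Nat.mul_le_mul_left _ (h1.2.2.2.1 _ _ _ ?_)) (hS1 hh)
    have h3 : (A.filter fun a => a ∈ Lo_per T).card + 1 ≤ Nat.card (Lo_per T) := by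
      rw [← hHc]
      have h4 : (0 : G) ∉ A.filter fun a => a ∈ Lo_per T := fun h => h0 (mem_filter.1 h).1
      rw [← card_insert_of_notMem h4]
      refine card_le_card fun x hx => ?_
      rw [hHF]
      rcases mem_insert.1 hx with rfl | hx
      · exact (Lo_per T).zero_mem
      · exact (mem_filter.1 hx).2
    have h5 : (A.filter fun a => a ∈ Lo_per T).card + (A.filter fun a => a ∉ Lo_per T).card =
        m := card_filter_add_card_filter_not _
    have h6 : 1 ≤ (A.filter fun a => a ∉ Lo_per T).card := by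
      rw [Nat.one_le_iff_ne_zero]
      intro h
      rw [card_eq_zero, filter_eq_empty_iff] at h
      apply hH
      rw [eq_top_iff, ← hgen, AddSubgroup.closure_le]
      intro a ha
      by_contra hna
      exact h ha hna
    apply max_le h6
    omega

end Pool.Agent.SDG
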