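import Pool.Agent.SDG.St

/-!
SDG [Nm2]: two inequalities for `cf`.
-/

set_option autoImplicit false

open Finset Pool.Agent.Helper64.Rho
open scoped Classical Pointwise

namespace Pool.Agent.SDG

/-- [Nm2] -/
theorem thm_Nm2 : St_Nm1 → St_Nm2 := by
  intro h1
  have hb : ∀ t : ℕ, t ^ 2 + 4 * t + 8 ≤ 8 * cf 4 t := by
    intro t
    have ht : 4 * (t / 4) + t % 4 = t := Nat.div_add_mod t 4
    have hr : t % 4 ≤ 4 := by omega
    have h := h1.2.1 4 (t / 4) (t % 4) (by norm_num) hr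
    rw [ht] at h
    generalize t / 4 = a at h ht
    generalize t % 4 = r at h ht hr
    generalize cf 4 t = q at h ⊢
    subst ht
    zify at h hr ⊢
    nlinarith [mul_nonneg (Int.natCast_nonneg r) (sub_nonneg.2 hr)]
  refine ⟨fun t => ?_, hb⟩
  have h2 := h1.2.2.1 (t + 1)
  have h3 := hb t
  have e : (t + 1 + 1) ^ 2 = t ^ 2 + 4 * t + 4 := by ring
  rw [e] at h2
  omega

end Pool.Agent.SDG
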