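import Pool.Agent.SDG.St

/-!
SDG [Nm3]: splitting.
-/

set_option autoImplicit false

open Finset Pool.Agent.Helper64.Rho
open scoped Classical Pointwise

namespace Pool.Agent.SDG

theorem Nm3_tangent (h1 : St_Nm1) (a τ : ℕ) : (a + 1) * τ ≤ (cf 2 τ - 1) + a * (a + 1) := by
  have h := h1.2.2.1 τ
  rw [h]
  rcases Nat.even_or_odd' τ with ⟨b, rfl | rfl⟩
  · have e : (2 * b + 1) ^ 2 = 4 * (b * b + b) + 1 := by ring
    have e2 : (4 * (b * b + b) + 1) / 4 = b * b + b := by omega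
    rw [e, e2, Nat.add_sub_cancel_left]
    zify
    rcases le_or_gt (b : ℤ) a with hab | hab
    · nlinarith
    · have : (a : ℤ) + 1 ≤ b := hab
      nlinarith
  · have e : (2 * b + 1 + 1) ^ 2 = 4 * (b * b + 2 * b + 1) := by ring
    have e2 : (4 * (b * b + 2 * b + 1)) / 4 = b * b + 2 * b + 1 := by omega
    rw [e, e2, Nat.add_sub_cancel_left]
    zify
    nlinarith [sq_nonneg ((a : ℤ) - b)]

/-- [Nm3] -/
theorem thm_Nm3 : St_Nm1 → St_Nm3 := by
  intro h1 κ P a hP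
  obtain ⟨t, ht⟩ : ∃ t, t = ∑ k ∈ P, a k := ⟨_, rfl⟩
  rw [← ht]
  have hr : t % (2 * P.card) ≤ 2 * P.card := (Nat.mod_lt _ (by omega)).le
  have hu : 2 * P.card * (t / (2 * P.card)) + t % (2 * P.card) = t := Nat.div_add_mod t _
  have h := h1.2.1 (2 * P.card) (t / (2 * P.card)) (t % (2 * P.card)) (by omega) hr
  rw [hu] at h
  generalize t / (2 * P.card) = b at h hu
  generalize t % (2 * P.card) = r at h hu hr
  have hsum : (b + 1) * t ≤ (∑ k ∈ P, (cf 2 (a k) - 1)) + P.card * (b * (b + 1)) := by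
    rw [ht, Finset.mul_sum]
    calc ∑ k ∈ P, (b + 1) * a k ≤ ∑ k ∈ P, ((cf 2 (a k) - 1) + b * (b + 1)) :=
          Finset.sum_le_sum fun k _ => Nm3_tangent h1 b (a k)
      _ = _ := by rw [Finset.sum_add_distrib, Finset.sum_const, smul_eq_mul]
  generalize cf (2 * P.card) t = q at h ⊢
  generalize (∑ k ∈ P, (cf 2 (a k) - 1)) = S at hsum ⊢
  generalize P.card = p at *
  have e1 : (b + 1) * t = 2 * (p * (b * (b + 1))) + r * (b + 1) := by
    rw [← hu]
    ring
  have e2 : 2 * p * b * (b + 1) = 2 * (p * (b * (b + 1))) := by ring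
  have e3 : 2 * r * (b + 1) = 2 * (r * (b + 1)) := by ring
  omega

end Pool.Agent.SDG
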