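import Pool.Agent.SDG.St

/-!
SDG [Nm4]: the numerical inequality.
-/

set_option autoImplicit false

open Finset Pool.Agent.Helper64.Rho
open scoped Classical Pointwise

namespace Pool.Agent.SDG

theorem Nm4_zero (g : ℕ) : cf g 0 = 1 := by simp [cf]

theorem Nm4_mul (h1 : St_Nm1) (m l u : ℕ) (hl : 1 ≤ l) (hm : 1 ≤ m) :
    cf (2 * l) u ≤ m * cf (2 * (m * l)) u := by
  induction u with
  | zero => rw [Nm4_zero, Nm4_zero]; omega
  | succ u ih =>
    rw [h1.1, h1.1]
    have hpos : 0 < 2 * (m * l) := by positivity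
    have h2 : u < 2 * (m * l) * (u / (2 * (m * l)) + 1) := Nat.lt_mul_div_succ u hpos
    have h3 : u / (2 * l) < m * (u / (2 * (m * l)) + 1) := by
      apply Nat.div_lt_of_lt_mul
      calc u < 2 * (m * l) * (u / (2 * (m * l)) + 1) := h2
        _ = 2 * l * (m * (u / (2 * (m * l)) + 1)) := by ring
    have h4 : m * (cf (2 * (m * l)) u + u / (2 * (m * l)) + 1) =
        m * cf (2 * (m * l)) u + m * (u / (2 * (m * l)) + 1) := by ring
    rw [h4]
    omega

theorem Nm4_F2 (h1 : St_Nm1) (l u : ℕ) (hl : 1 ≤ l) :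
    4 * l + u ^ 2 + 2 * l * u ≤ 4 * l * cf (2 * l) u := by
  have hr : u % (2 * l) ≤ 2 * l := (Nat.mod_lt _ (by omega)).le
  have hu : 2 * l * (u / (2 * l)) + u % (2 * l) = u := Nat.div_add_mod u (2 * l)
  have h := h1.2.1 (2 * l) (u / (2 * l)) (u % (2 * l)) (by omega) hr
  rw [hu] at h
  generalize u / (2 * l) = a at h hu
  generalize u % (2 * l) = r at h hu hr
  generalize cf (2 * l) u = q at h
  subst hu
  zify at h hr ⊢
  nlinarith [mul_nonneg (Int.natCast_nonneg r) (sub_nonneg.2 hr)]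

theorem Nm4_key (s u Y l q X j : ℤ) (hl : 3 ≤ l) (hs : 1 ≤ s) (hu : 1 ≤ u) (hY : Y < l)
    (h2 : s = 1 → 2 ≤ Y) (h3 : s = 2 → 3 ≤ Y) (h5 : s = 3 → 5 ≤ Y) (h6 : s = 4 → 6 ≤ Y)
    (h8 : s ^ 2 + 4 * s + 8 ≤ 8 * Y) (hA : q * Y ≤ X) (hB : l * q ≤ X + j * (l - Y))
    (hF1 : u + 1 ≤ q) (hF2 : 4 * l + u ^ 2 + 2 * l * u ≤ 4 * l * q)
    (hj1 : s + u - 2 ≤ 2 * j) (hj2 : 2 * j ≤ s + u - 1) :
    4 + (s + u + 1) ^ 2 ≤ 4 * X := by
  have hlY : 0 < l - Y := by linarith
  have hY0 : 0 < Y := by nlinarith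
  have hjl : 2 * j * (l - Y) ≤ (s + u - 1) * (l - Y) := mul_le_mul_of_nonneg_right hj2 hlY.le
  have hB2 : 4 * l + u ^ 2 + 2 * l * u - 2 * ((s + u - 1) * (l - Y)) ≤ 4 * X := by nlinarith
  by_cases hs1 : s = 1
  · subst hs1
    have := h2 rfl
    nlinarith
  by_cases hs2 : s = 2
  · subst hs2
    have := h3 rfl
    nlinarith
  by_cases hs3 : s = 3
  · subst hs3
    have := h5 rfl
    nlinarith
  have hs4 : 4 ≤ s := by omega
  by_cases hc : 2 * (u - 1) ≤ s ^ 2
  · have e1 : (u + 1) * (s ^ 2 + 4 * s + 8) ≤ (u + 1) * (8 * Y) :=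
      mul_le_mul_of_nonneg_left h8 (by linarith)
    have e2 : (u + 1) * Y ≤ q * Y := mul_le_mul_of_nonneg_right hF1 hY0.le
    have e3 : 0 ≤ (u - 1) * (s ^ 2 - 2 * (u - 1)) :=
      mul_nonneg (by linarith) (by linarith)
    nlinarith
  push Not at hc
  have hY3 : 3 * s - 1 ≤ 2 * Y := by
    by_cases e4 : s = 4
    · subst e4
      have := h6 rfl
      omega
    by_cases e5 : s = 5
    · subst e5
      norm_num at h8 ⊢
      omega
    have e6 : 6 ≤ s := by omega
    have : 0 ≤ (s - 2) * (s - 6) := mul_nonneg (by linarith) (by linarith)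
    nlinarith
  have hus : 2 * s + 1 < u := by nlinarith
  by_cases hul : u ≤ 2 * l
  · have e0 : l * (u + 1) ≤ l * q := mul_le_mul_of_nonneg_left hF1 (by linarith)
    have e1 : (2 * l - u) * (u + 3 - s) ≥ 0 := mul_nonneg (by linarith) (by linarith)
    have e2 : 0 ≤ l * (s + u - 1 - 2 * j) := mul_nonneg (by linarith) (by linarith)
    have e3 : 0 ≤ (2 * j - (s + u - 2)) * Y := mul_nonneg (by linarith) hY0.le
    have e4 : u * (u + 3 - s) + 2 * ((s + u - 2) * Y) ≤ 4 * X := by nlinarith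
    by_cases f4 : s = 4
    · subst f4
      have := h6 rfl
      have hu10 : 10 ≤ u := by omega
      nlinarith [mul_nonneg (sub_nonneg.2 hu10) (sub_nonneg.2 this)]
    · have f5 : 5 ≤ s := by omega
      have e5 : 0 ≤ u * (2 * Y + 1 - 3 * s) := mul_nonneg (by linarith) (by linarith)
      have e6 : 0 ≤ (s - 2) * (2 * Y - (3 * s - 1)) := mul_nonneg (by linarith) (by linarith)
      have e7 : 2 ≤ 2 * s ^ 2 - 9 * s - 3 := by nlinarith
      nlinarith
  · push Not at hul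
    have e1 : 0 ≤ u * (2 * Y - (3 * s - 1)) := mul_nonneg (by linarith) (by linarith)
    have e2 : 0 ≤ (u - 2 * l) * (s - 3) := mul_nonneg (by linarith) (by linarith)
    have e3 : 0 ≤ (s - 1) * (2 * Y - (3 * s - 1)) := mul_nonneg (by linarith) (by linarith)
    have e4 : 4 ≤ 2 * s ^ 2 - 6 * s - 4 := by nlinarith
    nlinarith

/-- [Nm4] -/
theorem thm_Nm4 : St_Nm1 → St_Nm2 → St_Nm4 := by
  intro h1 h2 m l s u Y Q X hm hl hs hu hYl hcY h5 h6 hQ hA hB
  have hq := Nm4_mul h1 m l u (by omega) hm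
  have hF2 := Nm4_F2 h1 l u (by omega)
  have hF1 := h1.2.2.2.2.2 (2 * l) u
  have hF3 := h1.2.2.1 (s + u)
  have h8 := h2.2 s
  have hq2 : cf (2 * l) u ≤ m * Q := hq.trans (Nat.mul_le_mul_left m hQ)
  have hA' : cf (2 * l) u * Y ≤ X := (Nat.mul_le_mul_right Y hq2).trans hA
  have hB' : l * cf (2 * l) u ≤ X + (jj (s + u) - 1) * (l - Y) := by
    refine le_trans ?_ hB
    calc l * cf (2 * l) u ≤ l * (m * Q) := Nat.mul_le_mul_left l hq2
      _ = m * l * Q := by ring
  have c1 : cf 4 1 = 2 := by simp [cf]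
  have c2 : cf 4 2 = 3 := by simp [cf, Finset.sum_range_succ]
  have hj1 : s + u ≤ 2 * (jj (s + u) - 1) + 2 := by unfold jj; omega
  have hj2 : 2 * (jj (s + u) - 1) + 1 ≤ s + u := by unfold jj; omega
  have key := Nm4_key (s : ℤ) u Y l (cf (2 * l) u : ℕ) X ((jj (s + u) - 1 : ℕ) : ℤ)
    (by exact_mod_cast hl) (by exact_mod_cast hs) (by exact_mod_cast hu) (by exact_mod_cast hYl)
    (fun h => by
      have : s = 1 := by exact_mod_cast h
      subst this
      rw [c1] at hcY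
      exact_mod_cast hcY)
    (fun h => by
      have : s = 2 := by exact_mod_cast h
      subst this
      rw [c2] at hcY
      exact_mod_cast hcY)
    (fun h => by exact_mod_cast h5 (by exact_mod_cast h))
    (fun h => by exact_mod_cast h6 (by exact_mod_cast h))
    (by
      have : s ^ 2 + 4 * s + 8 ≤ 8 * Y := by omega
      exact_mod_cast this)
    (by exact_mod_cast hA')
    (by
      have : ((l - Y : ℕ) : ℤ) = (l : ℤ) - Y := by push_cast [hYl.le]; ring
      rw [← this]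
      exact_mod_cast hB')
    (by exact_mod_cast hF1) (by exact_mod_cast hF2) (by omega) (by omega)
  have key' : 4 + (s + u + 1) ^ 2 ≤ 4 * X := by exact_mod_cast key
  rw [hF3]
  omega

end Pool.Agent.SDG
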