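import Pool.Agent.SDG.St

/-!
SDG [Nm5]: comparisons for the exchange argument.
-/

set_option autoImplicit false

open Finset Pool.Agent.Helper64.Rho
open scoped Classical Pointwise

namespace Pool.Agent.SDG

theorem Nm5_even (h1 : St_Nm1) (J : ℕ) : cf 2 (2 * J) = 1 + (J * J + J) := by
  rw [h1.2.2.1]
  have e : (2 * J + 1) ^ 2 = 4 * (J * J + J) + 1 := by ring
  rw [e]
  omega

theorem Nm5_odd (h1 : St_Nm1) (J : ℕ) : cf 2 (2 * J + 1) = 1 + (J * J + 2 * J + 1) := by
  rw [h1.2.2.1]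
  have e : (2 * J + 1 + 1) ^ 2 = 4 * (J * J + 2 * J + 1) := by ring
  rw [e]
  omega

theorem Nm5_four (h1 : St_Nm1) (a r : ℕ) (hr : r ≤ 4) :
    cf 4 (4 * a + r) = 1 + 2 * (a * a + a) + r * (a + 1) := by
  have h := h1.2.1 4 a r (by norm_num) hr
  have e : 4 * a * (a + 1) = 4 * (a * a + a) := by ring
  have e2 : 2 * r * (a + 1) = 2 * (r * (a + 1)) := by ring
  rw [e, e2] at h
  omega

theorem Nm5_jj_even (J : ℕ) : jj (2 * J) = J := by
  unfold jj
  omega

theorem Nm5_jj_odd (J : ℕ) : jj (2 * J + 1) = J + 1 := by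
  unfold jj
  omega

theorem Nm5_pred (J : ℕ) : J * (J - 1) + J = J * J := by
  cases J with
  | zero => rfl
  | succ n =>
    rw [Nat.add_sub_cancel]
    ring

/-- [Nm5] -/
theorem thm_Nm5 : St_Nm1 → St_Nm5 := by
  intro h1
  refine ⟨?_, ?_, ?_, ?_⟩
  · intro τ σ hτ h2 h3 h4
    rcases Nat.even_or_odd' τ with ⟨J, rfl | rfl⟩
    · obtain ⟨K, rfl⟩ : ∃ K, J = K + 1 := ⟨J - 1, by omega⟩
      rw [Nm5_even h1, Nm5_jj_even]
      have hm := h1.2.2.2.1 4 (4 * K + 2) (2 * (K + 1) + σ - 1) (by omega)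
      rw [Nm5_four h1 K 2 (by norm_num)] at hm
      rw [Nat.add_sub_cancel]
      have e1 : (K + 1) * (K + 1) = K * K + 2 * K + 1 := by ring
      have e2 : (K + 1) * K = K * K + K := by ring
      rw [e1, e2]
      omega
    · rw [Nm5_odd h1, Nm5_jj_odd, Nat.add_sub_cancel]
      have hσ : 2 * J + 1 ≤ σ := by
        by_contra hc
        exact h4 ⟨by omega, by omega⟩
      have hm := h1.2.2.2.1 4 (4 * J + 1) (2 * J + 1 + σ - 1) (by omega)
      rw [Nm5_four h1 J 1 (by norm_num)] at hm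
      have e2 : (J + 1) * J = J * J + J := by ring
      rw [e2]
      omega
  · intro τ
    rcases Nat.even_or_odd' τ with ⟨J, rfl | rfl⟩
    · rw [Nm5_even h1, Nm5_jj_even]
      have e : 2 * (2 * J) = 4 * J + 0 := by ring
      rw [e, Nm5_four h1 J 0 (by norm_num)]
      have := Nm5_pred J
      omega
    · rw [Nm5_odd h1, Nm5_jj_odd, Nat.add_sub_cancel]
      have e : 2 * (2 * J + 1) = 4 * J + 2 := by ring
      rw [e, Nm5_four h1 J 2 (by norm_num)]
      have e2 : (J + 1) * J = J * J + J := by ring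
      rw [e2]
      omega
  · intro I hI
    obtain ⟨K, rfl⟩ : ∃ K, I = K + 1 := ⟨I - 1, by omega⟩
    have e1 : 2 * (K + 1) - 2 = 2 * K := by omega
    have e2 : 4 * (K + 1) - 4 = 4 * K + 0 := by omega
    rw [e1, e2, Nm5_even h1, Nm5_jj_even, Nm5_four h1 K 0 (by norm_num)]
    have := Nm5_pred K
    omega
  · intro J hJ
    obtain ⟨K, rfl⟩ : ∃ K, J = K + 1 := ⟨J - 1, by omega⟩
    have e1 : 2 * (K + 1) - 2 = 2 * K := by omega
    have e2 : 4 * (K + 1) - 4 = 4 * K + 0 := by omega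
    rw [e1, e2, Nm5_even h1, Nm5_four h1 K 0 (by norm_num), Nat.add_sub_cancel]
    have e3 : K + 1 - 2 = K - 1 := by omega
    have e4 : (K + 1) * K = K * K + K := by ring
    rw [e3, e4]
    have := Nm5_pred K
    constructor <;> omega

end Pool.Agent.SDG
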