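import Pool.Agent.SDG.St

/-!
# SDG, module P2: the induction step for `PP`
-/

set_option autoImplicit false

noncomputable section

open Finset Pool.Agent.Helper64.Rho
open scoped Classical Pointwise

namespace Pool.Agent.SDG

private lemma P2_num (t : ℕ) : jj t * (jj t - 1) ≤ t ^ 2 / 4 := by
  rw [Nat.le_div_iff_mul_le (by norm_num)]
  unfold jj
  rcases Nat.even_or_odd' t with ⟨a, rfl | rfl⟩
  · have h1 : (2 * a + 1) / 2 = a := by omega
    rw [h1]
    have h2 : a * (a - 1) ≤ a * a := Nat.mul_le_mul_left _ (Nat.sub_le _ _)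
    nlinarith
  · have h1 : (2 * a + 1 + 1) / 2 = a + 1 := by omega
    rw [h1, Nat.add_sub_cancel]
    nlinarith

private lemma P2_jmono (t : ℕ) (ht : 1 ≤ t) :
    jj (t - 1) * (jj (t - 1) - 1) ≤ jj t * (jj t - 1) := by
  unfold jj
  exact Nat.mul_le_mul (by omega) (by omega)

private lemma P2_core (h1 : St_Nm1) (h2 : St_Nm2) (hB : St_Ba1) (hAv : St_Av) (hGr : St_Gr)
    (hDs : St_Ds) (hP1 : St_P1) (t : ℕ) (hPP : ∀ u < t, PP u) (hTT : ∀ u < t, ∀ h ≥ 2, TT h u)
    {G ι : Type} [AddCommGroup G] [Finite G] (s : Finset ι) (f : ι → G) (hs : s.card = t)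
    (h0 : ∀ i ∈ s, f i ≠ 0) (hC : Cap 2 s f) (hA : Aper (FS s f)) (hgen : gen s f = ⊤) :
    cf 2 t ≤ (FS s f).card ∨ Nat.card G ≤ (FS s f).card + jj t * (jj t - 1) := by
  have := Fintype.ofFinite G
  by_contra hcon
  push Not at hcon
  obtain ⟨hc1, hc2⟩ := hcon
  set T := FS s f with hT
  have ht : 1 ≤ t := by
    rcases Nat.eq_zero_or_pos t with h | h
    · subst h
      rw [card_eq_zero] at hs
      rw [hT, hs, FS_empty] at hc1
      simp [cf] at hc1
    · exact h
  have hCs : ∀ i, Cap 2 (s.erase i) f := by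
    intro i x
    exact (card_le_card (filter_subset_filter _ (erase_subset _ _))).trans (hC x)
  have hC4 : ∀ i, Cap (2 * 2) (s.erase i) f := fun i x => (hCs i x).trans (by norm_num)
  have hcard : ∀ i ∈ s, (s.erase i).card = t - 1 := by
    intro i hi
    rw [card_erase_of_mem hi, hs]
  have hstep : cf 2 t = cf 2 (t - 1) + (t - 1) / 2 + 1 := by
    have := h1.1 2 (t - 1)
    rwa [Nat.sub_add_cancel ht] at this
  have hAe : ∀ i, Aper (FS (s.erase i) f) := fun i =>
    (hB G ι f).2.1 s (s.erase i) (erase_subset _ _) hA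
  have h0e : ∀ i, ∀ k ∈ s.erase i, f k ≠ 0 := fun i k hk => h0 k (erase_subset _ _ hk)
  -- no drop
  have hge : ∀ i ∈ s, gen (s.erase i) f = ⊤ := by
    intro i hi
    rw [← hgen]
    apply (hB G ι f).2.2.2.2.2.1 s i hi
    by_contra hne
    have h3 := (hB G ι f).2.2.2.1 s i hi hne
    have h4 := hTT (t - 1) (by omega) 2 le_rfl G ι (s.erase i) f (hcard i hi) (h0e i) (hC4 i)
      (hAe i)
    have h5 := h2.1 (t - 1)
    rw [Nat.sub_add_cancel ht] at h5
    have h6 : cf (2 * 2) (t - 1) = cf 4 (t - 1) := rfl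
    rw [h6] at h4
    rw [← hT] at h3
    omega
  have hlow : ∀ i ∈ s, cf 2 (t - 1) ≤ (FS (s.erase i) f).card := by
    intro i hi
    rcases hPP (t - 1) (by omega) G ι (s.erase i) f (hcard i hi) (h0e i) (hCs i) (hAe i)
      with h | h
    · exact h
    · exfalso
      rw [hge i hi, AddSubgroup.card_top] at h
      have h3 : (FS (s.erase i) f).card ≤ T.card := card_le_card (FS_mono (erase_subset _ _) f)
      have h4 := P2_jmono t ht
      omega
  have hlam : ∀ i ∈ s, lam T (f i) ≤ jj t - 1 := by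
    intro i hi
    have h3 := (hB G ι f).2.2.1 s i hi
    have h4 := hlow i hi
    rw [← hT] at h3
    have h5 : jj t - 1 = (t - 1) / 2 := by
      unfold jj
      omega
    omega
  obtain ⟨i0, hi0⟩ : s.Nonempty := by
    rw [← card_pos]
    omega
  have hTl : jj t * (jj t - 1) + 1 ≤ T.card := by
    have h3 := hlow i0 hi0
    have h4 : (FS (s.erase i0) f).card ≤ T.card := card_le_card (FS_mono (erase_subset _ _) f)
    have h5 := h1.2.2.1 (t - 1)
    rw [Nat.sub_add_cancel ht] at h5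
    have h6 := P2_num t
    omega
  obtain ⟨D, hD0, hDs', hDf, hDg, hDc⟩ := hDs G ι s f h0 hA hC
  rw [hgen] at hDg
  rw [hs] at hDc
  have hlD : ∀ y ∈ D, lam T y ≤ jj t - 1 := by
    intro y hy
    by_cases hy0 : y = 0
    · rw [hy0, lam_zero]
      exact Nat.zero_le _
    · obtain ⟨i, hi, h | h⟩ := hDf y hy hy0
      · rw [← h]
        exact hlam i hi
      · rw [← lam_neg, ← h]
        exact hlam i hi
  obtain ⟨X, hX1, hX2, hX3⟩ : ∃ X : Finset G, jj t * (jj t - 1) + 1 ≤ X.card ∧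
      2 * X.card ≤ Nat.card G ∧ ∀ y, lam X y = lam T y := by
    rcases Nat.lt_or_ge (Nat.card G) (2 * T.card) with h | h
    · refine ⟨Tᶜ, ?_, ?_, fun y => lam_compl T y⟩
      · rw [card_compl, ← Nat.card_eq_fintype_card]
        omega
      · rw [card_compl, ← Nat.card_eq_fintype_card]
        omega
    · exact ⟨T, hTl, h, fun y => rfl⟩
  have hJ1 : jj t - 1 + 1 = jj t := by
    unfold jj
    omega
  have hex : ∃ i, (it D i).card < 2 * i * jj t + 1 ∧ (it D i).card < 2 * X.card := by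
    by_contra hcon
    push Not at hcon
    refine hAv G X D (jj t - 1) hD0 (fun y hy => (hX3 y).le.trans (hlD y hy)) ?_ ?_
    · rw [hJ1]
      exact hX1
    · intro i
      rw [hJ1]
      rcases Nat.lt_or_ge (it D i).card (2 * i * jj t + 1) with h | h
      · exact Or.inr (hcon i h)
      · exact Or.inl h
  obtain ⟨i, hi1, hi2⟩ := hex
  obtain ⟨H, hH, y, hy, hy0, hyH⟩ := hGr G D (jj t) i hD0 hDs' hDg hDc hi1 (by omega)
  obtain ⟨k, hk, hk'⟩ := hDf y hy hy0
  have hkH : f k ∈ H := by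
    rcases hk' with h | h
    · rw [h]
      exact hyH
    · rw [h]
      exact H.neg_mem hyH
  have := hP1 t hTT G ι s f H hs h0 hC hA hgen hc1 hlam hH ⟨k, hk, hkH⟩
  rw [← hT] at this
  omega

theorem P2_aper {G ι : Type} [AddCommGroup G] (d1 d2 : DecidableEq G) (s : Finset ι) (f : ι → G)
    (h : Aper (@FS ι G _ d1 s f)) : Aper (@FS ι G _ d2 s f) := by
  rw [Subsingleton.elim d2 d1]
  exact h

theorem P2_card {G ι : Type} [AddCommGroup G] (d1 d2 : DecidableEq G) (s : Finset ι) (f : ι → G) :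
    (@FS ι G _ d1 s f).card = (@FS ι G _ d2 s f).card := by
  rw [Subsingleton.elim d1 d2]

theorem thm_P2 : St_Nm1 → St_Nm2 → St_Ba1 → St_Tr → St_Av → St_Gr → St_Ds → St_P1 → St_P2 := by
  intro h1 h2 hB hTr hAv hGr hDs hP1 t hPP hTT G ι _ _ s f hs h0 hC hA
  obtain ⟨f', _, hg, hc, hA', hC', h0'⟩ := hTr G ι s f
  have hA1 : Aper (@FS ι (gen s f) _ (fun a b => Classical.propDecidable (a = b)) s f') := by
    exact P2_aper _ _ _ _ (hA' hA)
  have hc1 : (@FS ι (gen s f) _ (fun a b => Classical.propDecidable (a = b)) s f').card =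
      (FS s f).card := by
    exact (P2_card _ _ _ _).trans hc
  have := P2_core h1 h2 hB hAv hGr hDs hP1 t hPP hTT s f' hs (h0' h0) (hC' 2 hC) hA1 hg
  rwa [hc1] at this

end Pool.Agent.SDG
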