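import Pool.Agent.SDG.St

/-!
# SDG, module Pc: partial cosets
-/

set_option autoImplicit false

noncomputable section

open Finset Pool.Agent.Helper64.Rho
open scoped Classical Pointwise

namespace Pool.Agent.SDG

/-- the group of the periods of a finite set -/
private def Pc_per {G : Type} [AddCommGroup G] (X : Finset G) : AddSubgroup G where
  carrier := {g | ∀ x ∈ X, x + g ∈ X}
  add_mem' := by
    intro a b ha hb x hx
    have := hb _ (ha x hx)
    rwa [add_assoc] at this
  zero_mem' := by
    intro x hx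
    simpa using hx
  neg_mem' := by
    intro g hg x hx
    have h1 : X.image (· + g) = X := by
      apply eq_of_subset_of_card_le
      · intro y hy
        obtain ⟨z, hz, rfl⟩ := mem_image.1 hy
        exact hg z hz
      · rw [card_image_of_injective _ (add_left_injective g)]
    rw [← h1] at hx
    obtain ⟨z, hz, rfl⟩ := mem_image.1 hx
    simpa using hz

private lemma Pc_mem {G : Type} [AddCommGroup G] {X : Finset G} {g : G} :
    g ∈ Pc_per X ↔ ∀ x ∈ X, x + g ∈ X := Iff.rfl

/-- a finset with the elements of a subgroup -/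
private lemma Pc_fin {G : Type} [AddCommGroup G] [Finite G] (L : AddSubgroup G) :
    ∃ F : Finset G, (∀ x, x ∈ F ↔ x ∈ L) ∧ F.card = Nat.card L := by
  refine ⟨(Set.toFinite (L : Set G)).toFinset, fun x => by simp, ?_⟩
  rw [← Set.ncard_eq_toFinset_card]
  rfl

private lemma Pc_key (hS : St_Sm) {G ι : Type} [AddCommGroup G] [Finite G] (s : Finset ι)
    (f : ι → G) (L : AddSubgroup G) (h0 : ∀ i ∈ s, f i ≠ 0) (hA : ∀ t ⊆ s, Aper (FS t f))
    (hL : gen s f = L) (X : Finset G) (hXL : ∃ x ∈ X, ∃ g ∈ L, x + g ∉ X) :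
    s.card ≤ ∑ i ∈ s, lam X (f i) := by
  obtain ⟨RF, hRF, hRc⟩ := Pc_fin (Pc_per X)
  set sR := s.filter fun i => f i ∈ Pc_per X with hsR
  have h1 : sR.card + 1 ≤ Nat.card (Pc_per X) := by
    refine ((hS G ι sR f (fun i hi => h0 i (mem_filter.1 hi).1)
      (hA sR (filter_subset _ _))).1).trans ?_
    rw [← hRc]
    refine card_le_card fun x hx => ?_
    rw [hRF]
    exact FS_subset_of_mem (fun i hi => (mem_filter.1 hi).2) hx
  have h2 : ∃ i ∈ s, f i ∉ Pc_per X := by
    by_contra hcon
    push Not at hcon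
    obtain ⟨x, hx, g, hg, hxg⟩ := hXL
    rw [← hL] at hg
    have h3 : gen s f ≤ Pc_per X := by
      unfold gen
      rw [AddSubgroup.closure_le]
      rintro _ ⟨i, hi, rfl⟩
      exact hcon i hi
    exact hxg (Pc_mem.1 (h3 hg) x hx)
  have h3 : ∀ i ∈ s, f i ∉ Pc_per X → Nat.card (Pc_per X) ≤ lam X (f i) := by
    intro i _ hi
    rw [Pc_mem] at hi
    push Not at hi
    obtain ⟨x, hx, hxi⟩ := hi
    rw [← hRc]
    unfold lam
    refine card_le_card_of_injOn (fun r => x + r) ?_ (fun a _ b _ h => add_left_cancel h)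
    intro r hr
    have hr' : r ∈ Pc_per X := (hRF r).1 hr
    show x + r ∈ ((X.filter fun b => b + f i ∉ X : Finset G) : Set G)
    rw [mem_coe, mem_filter]
    refine ⟨Pc_mem.1 hr' x hx, fun h => hxi ?_⟩
    have h4 := Pc_mem.1 ((Pc_per X).neg_mem hr') _ h
    have h5 : x + r + f i + -r = x + f i := by abel
    rwa [h5] at h4
  set sN := s.filter fun i => f i ∉ Pc_per X with hsN
  have h4 : sR.card + sN.card = s.card := card_filter_add_card_filter_not _
  have h5 : 1 ≤ sN.card := by
    obtain ⟨i, hi, hi'⟩ := h2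
    exact card_pos.2 ⟨i, mem_filter.2 ⟨hi, hi'⟩⟩
  have h6 : sN.card * Nat.card (Pc_per X) ≤ ∑ i ∈ s, lam X (f i) := by
    calc sN.card * Nat.card (Pc_per X) = ∑ i ∈ sN, Nat.card (Pc_per X) := by
          rw [sum_const, smul_eq_mul]
      _ ≤ ∑ i ∈ sN, lam X (f i) :=
          sum_le_sum fun i hi => h3 i (mem_filter.1 hi).1 (mem_filter.1 hi).2
      _ ≤ ∑ i ∈ s, lam X (f i) :=
          sum_le_sum_of_subset (filter_subset _ _)
  refine le_trans ?_ h6
  have h7 : sN.card * (sR.card + 1) ≤ sN.card * Nat.card (Pc_per X) :=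
    Nat.mul_le_mul_left _ h1
  nlinarith [Nat.mul_le_mul_right sR.card h5]

theorem thm_Pc : St_Ba1 → St_Sm → St_Kn → St_Pc := by
  intro hB hS _ G ι _ _ s f L j h0 hA hL hj
  set sL := s.filter fun i => f i ∈ L with hsL
  set T := FS s f with hT
  have hLf : ∀ i ∈ sL, f i ∈ L := fun i hi => (mem_filter.1 hi).2
  have hsub : sL ⊆ s := filter_subset _ _
  obtain ⟨LF, hLF, hLc⟩ := Pc_fin L
  let π : G → G ⧸ L := fun x => (QuotientAddGroup.mk x : G ⧸ L)
  have hπ : ∀ x y : G, π x = π y ↔ y - x ∈ L := by
    intro x y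
    show (QuotientAddGroup.mk x : G ⧸ L) = QuotientAddGroup.mk y ↔ _
    rw [QuotientAddGroup.eq, neg_add_eq_sub]
  have hπa : ∀ x, ∀ y ∈ L, π (x + y) = π x := by
    intro x y hy
    refine ((hπ _ _).2 ?_).symm
    simpa using hy
  -- fibres
  have hfib : ∀ C ∈ T.image π, (T.filter fun x => π x = C).card ≤ Nat.card L := by
    intro C hC
    obtain ⟨a, ha, rfl⟩ := mem_image.1 hC
    rw [← hLc]
    refine card_le_card_of_injOn (fun x => x - a) ?_ (fun x _ y _ h => sub_left_injective h)
    intro x hx
    rw [mem_coe, mem_filter] at hx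
    show x - a ∈ (LF : Set G)
    rw [mem_coe, hLF]
    exact (hπ _ _).1 hx.2.symm
  have hY : ∀ C ∈ T.image π, (FS sL f).card ≤ (T.filter fun x => π x = C).card := by
    intro C hC
    obtain ⟨a, ha, rfl⟩ := mem_image.1 hC
    have h1 : T = FS sL f + FS (s.filter fun i => f i ∉ L) f := by
      have h2 := (hB G ι f).1 sL (s.filter fun i => f i ∉ L) (disjoint_filter_filter_not _ _ _)
      rw [← h2, filter_union_filter_not_eq]
    rw [h1] at ha
    obtain ⟨u, hu, v, hv, rfl⟩ := mem_add.1 ha
    have hu' : u ∈ L := FS_subset_of_mem hLf hu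
    refine card_le_card_of_injOn (fun x => x + v) ?_ (fun x _ y _ h => add_left_injective v h)
    intro x hx
    have hx' : x ∈ L := FS_subset_of_mem hLf hx
    show x + v ∈ ((T.filter fun x => π x = π (u + v) : Finset G) : Set G)
    rw [mem_coe, mem_filter]
    refine ⟨?_, ?_⟩
    · rw [h1]
      exact add_mem_add hx hv
    · rw [hπ]
      have h3 : u + v - (x + v) = u - x := by abel
      rw [h3]
      exact L.sub_mem hu' hx'
  have hTs : T.card = ∑ C ∈ T.image π, (T.filter fun x => π x = C).card :=
    card_eq_sum_card_image π T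
  have hst : (st T L).card = (T.image π).card * Nat.card L := by
    have h1 : ∀ x, x ∈ st T L ↔ π x ∈ T.image π := by
      intro x
      simp only [st, Set.Finite.mem_toFinset, Set.mem_ofPred_eq, mem_image]
      refine exists_congr fun a => and_congr_right fun _ => (hπ a x).symm
    rw [card_eq_sum_card_fiberwise (f := π) (t := T.image π) (fun x hx => by
      rw [mem_coe] at hx ⊢
      exact (h1 x).1 hx)]
    rw [← smul_eq_mul, ← sum_const]
    refine sum_congr rfl fun C hC => ?_
    obtain ⟨a, ha, rfl⟩ := mem_image.1 hC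
    rw [← hLc]
    refine card_bij (fun x _ => x - a) ?_ (fun x _ y _ h => sub_left_injective h) ?_
    · intro x hx
      rw [hLF]
      exact (hπ _ _).1 (mem_filter.1 hx).2.symm
    · intro y hy
      rw [hLF] at hy
      refine ⟨a + y, ?_, by abel⟩
      rw [mem_filter, h1, hπa a y hy]
      exact ⟨hC, rfl⟩
  constructor
  · -- at most `j` partial cosets
    set P := (T.image π).filter fun C => (T.filter fun x => π x = C).card ≠ Nat.card L with hP
    have hlam : ∀ y ∈ L, ∑ C ∈ P, lam (T.filter fun x => π x = C) y ≤ lam T y := by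
      intro y hy
      have h1 : lam T y = ∑ C ∈ T.image π, lam (T.filter fun x => π x = C) y := by
        unfold lam
        rw [card_eq_sum_card_fiberwise (f := π) (t := T.image π) (fun x hx => by
          rw [mem_coe] at hx ⊢
          exact mem_image_of_mem _ (mem_filter.1 hx).1)]
        refine sum_congr rfl fun C _ => ?_
        congr 1
        ext x
        simp only [mem_filter]
        constructor
        · rintro ⟨⟨h1, h2⟩, h3⟩
          exact ⟨⟨h1, h3⟩, fun h => h2 h.1⟩
        · rintro ⟨⟨h1, h2⟩, h3⟩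
          refine ⟨⟨h1, fun h => h3 ⟨h, ?_⟩⟩, h2⟩
          rw [hπa x y hy]
          exact h2
      rw [h1]
      exact sum_le_sum_of_subset (filter_subset _ _)
    have hPj : P.card ≤ j := by
      by_cases hP0 : P = ∅
      · rw [hP0]
        simp
      have hpart : ∀ C ∈ P, sL.card ≤ ∑ i ∈ sL, lam (T.filter fun x => π x = C) (f i) := by
        intro C hC
        obtain ⟨hC1, hC2⟩ := mem_filter.1 hC
        refine Pc_key hS sL f L (fun i hi => h0 i (hsub hi))
          (fun t ht => (hB G ι f).2.1 s t (ht.trans hsub) hA) hL _ ?_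
        by_contra hcon
        push Not at hcon
        obtain ⟨a, ha, rfl⟩ := mem_image.1 hC1
        apply hC2
        refine le_antisymm (hfib _ hC1) ?_
        rw [← hLc]
        refine card_le_card_of_injOn (fun g => a + g) ?_ (fun x _ y _ h => add_left_cancel h)
        intro g hg
        rw [mem_coe, hLF] at hg
        exact hcon a (mem_filter.2 ⟨ha, rfl⟩) g hg
      have hb : 0 < sL.card := by
        rw [card_pos]
        by_contra hne
        rw [not_nonempty_iff_eq_empty] at hne
        have hbot : L = ⊥ := by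
          rw [← hL, hne]
          simp [gen]
        obtain ⟨C, hC⟩ := nonempty_iff_ne_empty.2 hP0
        obtain ⟨hC1, hC2⟩ := mem_filter.1 hC
        obtain ⟨a, ha, rfl⟩ := mem_image.1 hC1
        apply hC2
        refine le_antisymm (hfib _ hC1) ?_
        have hone : Nat.card L = 1 := by
          rw [AddSubgroup.card_eq_one]
          exact hbot
        rw [hone]
        exact card_pos.2 ⟨a, mem_filter.2 ⟨ha, rfl⟩⟩
      have h2 : sL.card * P.card ≤ sL.card * j := by
        calc sL.card * P.card = ∑ C ∈ P, sL.card := by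
              rw [sum_const, smul_eq_mul, mul_comm]
          _ ≤ ∑ C ∈ P, ∑ i ∈ sL, lam (T.filter fun x => π x = C) (f i) := sum_le_sum hpart
          _ = ∑ i ∈ sL, ∑ C ∈ P, lam (T.filter fun x => π x = C) (f i) := sum_comm
          _ ≤ ∑ i ∈ sL, lam T (f i) := sum_le_sum fun i hi => hlam _ (hLf i hi)
          _ ≤ ∑ i ∈ sL, j := sum_le_sum fun i hi => hj i (hsub hi) (hLf i hi)
          _ = sL.card * j := by rw [sum_const, smul_eq_mul]
      exact Nat.le_of_mul_le_mul_left h2 hb
    have h3 : (T.image π).card * Nat.card L ≤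
        T.card + P.card * (Nat.card L - (FS sL f).card) := by
      rw [hTs, ← smul_eq_mul, ← sum_const, ← smul_eq_mul (a := P.card), ← sum_const, hP,
        sum_filter, ← sum_add_distrib]
      refine sum_le_sum fun C hC => ?_
      have h4 := hY C hC
      have h5 := hfib C hC
      by_cases h6 : (T.filter fun x => π x = C).card = Nat.card L
      · rw [if_neg (by simpa using h6)]
        omega
      · rw [if_pos h6]
        omega
    rw [hst]
    refine h3.trans (Nat.add_le_add_left (Nat.mul_le_mul_right _ hPj) _)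
  · rw [hst, hTs, mul_assoc, mul_comm, mul_assoc]
    refine Nat.mul_le_mul_left _ ?_
    rw [mul_comm, ← smul_eq_mul, ← sum_const]
    exact sum_le_sum hY

end Pool.Agent.SDG
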