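import Pool.Agent.SDG.St

/-!
# SDG, module Qu: quotient by a subgroup
-/

set_option autoImplicit false

noncomputable section

open Finset Pool.Agent.Helper64.Rho
open scoped Classical Pointwise

namespace Pool.Agent.SDG

/-- a finset with the elements of a subgroup -/
private lemma Qu_fin {G : Type} [AddCommGroup G] [Finite G] (L : AddSubgroup G) :
    ∃ F : Finset G, (∀ x, x ∈ F ↔ x ∈ L) ∧ F.card = Nat.card L := by
  refine ⟨(Set.toFinite (L : Set G)).toFinset, fun x => by simp, ?_⟩
  rw [← Set.ncard_eq_toFinset_card]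
  rfl

private lemma Qu_cap {G Q ι : Type} [AddCommGroup G] [Finite G] [AddCommGroup Q]
    (s : Finset ι) (f : ι → G) (K : AddSubgroup G) (π : G →+ Q) (hsur : Function.Surjective π)
    (hker : ∀ x, π x = 0 ↔ x ∈ K) :
    Cap 2 s f → Cap (2 * Nat.card K) (s.filter fun i => f i ∉ K) (fun i => π (f i)) := by
  obtain ⟨KF, hKF, hKc⟩ := Qu_fin K
  have hπ : ∀ x y : G, π x = π y ↔ y - x ∈ K := by
    intro x y
    rw [← hker, map_sub, sub_eq_zero]
    exact eq_comm
  intro hC x
  obtain ⟨x, rfl⟩ := hsur x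
  have h2 : (KF.image (x + ·)).card = Nat.card K := by
    rw [card_image_of_injective _ (add_right_injective x), hKc]
  rw [← h2]
  refine card_le_mul_card_image_of_maps_to
    (f := fun i => if π (f i) = π x then f i else - f i) ?_ 2 ?_
  · intro i hi
    rw [mem_filter] at hi
    rw [mem_image]
    by_cases h3 : π (f i) = π x
    · refine ⟨f i - x, ?_, by simp [h3]⟩
      rw [hKF, ← hπ]
      exact h3.symm
    · have h4 : π (f i) = - π x := hi.2.resolve_left h3
      refine ⟨-f i - x, ?_, by simp [h3]⟩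
      rw [hKF, ← hπ, map_neg, h4, neg_neg]
  · intro y _
    refine (card_le_card ?_).trans (hC y)
    intro i hi
    rw [mem_filter, mem_filter, mem_filter] at hi
    rw [mem_filter]
    refine ⟨hi.1.1.1, ?_⟩
    by_cases h3 : π (f i) = π x
    · left
      simpa [h3] using hi.2
    · right
      rw [← hi.2, if_neg h3, neg_neg]

private lemma Qu_core {G Q ι : Type} [AddCommGroup G] [Finite G] [AddCommGroup Q] [DecidableEq Q]
    (s : Finset ι) (f : ι → G) (K : AddSubgroup G) (π : G →+ Q) (hsur : Function.Surjective π)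
    (hker : ∀ x, π x = 0 ↔ x ∈ K) :
    FS (s.filter fun i => f i ∉ K) (fun i => π (f i)) = (FS s f).image π ∧
    Nat.card K * (FS (s.filter fun i => f i ∉ K) (fun i => π (f i))).card =
      (st (FS s f) K).card ∧
    ((∀ g : G, (∀ x ∈ st (FS s f) K, x + g ∈ st (FS s f) K) → g ∈ K) →
      Aper (FS (s.filter fun i => f i ∉ K) (fun i => π (f i)))) ∧
    (∀ i ∈ s.filter fun i => f i ∉ K, π (f i) ≠ 0) := by
  obtain ⟨KF, hKF, hKc⟩ := Qu_fin K
  set T := FS s f with hT
  have hπ : ∀ x y : G, π x = π y ↔ y - x ∈ K := by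
    intro x y
    rw [← hker, map_sub, sub_eq_zero]
    exact eq_comm
  have h1 : FS (s.filter fun i => f i ∉ K) (fun i => π (f i)) = T.image π := by
    ext x
    rw [mem_image]
    constructor
    · intro hx
      obtain ⟨t, ht, rfl⟩ := mem_FS.1 hx
      refine ⟨∑ i ∈ t, f i, mem_FS.2 ⟨t, ht.trans (filter_subset _ _), rfl⟩, ?_⟩
      rw [map_sum]
    · rintro ⟨y, hy, rfl⟩
      obtain ⟨t, ht, rfl⟩ := mem_FS.1 hy
      refine mem_FS.2 ⟨t.filter fun i => f i ∉ K, filter_subset_filter _ ht, ?_⟩
      rw [map_sum]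
      apply sum_filter_of_ne
      intro i _ hi h
      exact hi ((hker _).2 h)
  have hst : ∀ x, x ∈ st T K ↔ π x ∈ T.image π := by
    intro x
    simp only [st, Set.Finite.mem_toFinset, Set.mem_ofPred_eq, mem_image]
    refine exists_congr fun a => and_congr_right fun _ => (hπ a x).symm
  rw [h1]
  refine ⟨rfl, ?_, ?_, ?_⟩
  · rw [card_eq_sum_card_fiberwise (s := st T K) (f := π) (t := T.image π) (fun x hx => by
      rw [mem_coe] at hx ⊢
      exact (hst x).1 hx)]
    rw [mul_comm, ← smul_eq_mul, ← sum_const]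
    refine sum_congr rfl fun C hC => ?_
    obtain ⟨a, ha, rfl⟩ := mem_image.1 hC
    rw [← hKc]
    symm
    refine card_bij (fun x _ => x - a) ?_ (fun x _ y _ h => sub_left_injective h) ?_
    · intro x hx
      rw [hKF]
      exact (hπ _ _).1 (mem_filter.1 hx).2.symm
    · intro y hy
      rw [hKF] at hy
      refine ⟨a + y, ?_, by abel⟩
      have h2 : π (a + y) = π a := by
        rw [map_add, (hker y).2 hy, add_zero]
      rw [mem_filter, hst, h2]
      exact ⟨hC, rfl⟩
  · intro h g hg
    obtain ⟨g, rfl⟩ := hsur g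
    rw [hker]
    apply h
    intro x hx
    rw [hst] at hx ⊢
    rw [map_add]
    exact hg _ hx
  · intro i hi h
    exact (mem_filter.1 hi).2 ((hker _).1 h)

theorem thm_Qu : St_Ba1 → St_Qu := by
  intro _ G ι _ _ s f K
  obtain ⟨h1, h2, h3, h4⟩ := Qu_core s f K (QuotientAddGroup.mk' K)
    (QuotientAddGroup.mk'_surjective _) (fun x => QuotientAddGroup.eq_zero_iff x)
  exact ⟨h1, h2, h3, Qu_cap s f K (QuotientAddGroup.mk' K) (QuotientAddGroup.mk'_surjective _)
    (fun x => QuotientAddGroup.eq_zero_iff x), h4⟩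

end Pool.Agent.SDG
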