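import Pool.Agent.SDG.St

/-!
# SDG, module Se: from families to sets with stabiliser
-/

set_option autoImplicit false

noncomputable section

open Finset Pool.Agent.Helper64.Rho
open scoped Classical Pointwise

namespace Pool.Agent.SDG

theorem thm_Se : St_Ba1 → St_Qu → St_main → St_Se := by
  intro hB hQu hmain G _ _ A H h0 hH
  have hcap : Cap 2 A (id : G → G) := by
    intro x
    have h1 : (A.filter fun i => id i = x ∨ id i = -x) ⊆ {x, -x} := by
      intro i hi
      rw [mem_filter] at hi
      rw [mem_insert, mem_singleton]
      exact hi.2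
    exact (card_le_card h1).trans card_le_two
  have hne : ∀ i ∈ A, (id i : G) ≠ 0 := by
    intro i hi h
    exact h0 (h ▸ hi)
  constructor
  · intro hc
    obtain ⟨-, q2, q3, q4, q5⟩ := hQu G G A id H
    have hst : st (FS A id) H = FS A id := by
      ext x
      unfold st
      rw [Set.Finite.mem_toFinset]
      constructor
      · rintro ⟨a, ha, hx⟩
        have h1 := (hH (x - a)).1 hx a ha
        rwa [add_sub_cancel] at h1
      · intro hx
        exact ⟨x, hx, by rw [sub_self]; exact H.zero_mem⟩
    rw [hst] at q2 q3
    have hap := q3 (fun g hg => (hH g).2 hg)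
    have hTT := (hmain (A.filter fun a => a ∉ H).card).2 (Nat.card H) hc
    have key : ∀ d : DecidableEq (G ⧸ H),
        Aper (@FS G (G ⧸ H) _ d (A.filter fun a => a ∉ H) (fun i => (QuotientAddGroup.mk i : G ⧸ H))) →
        Nat.card H * (@FS G (G ⧸ H) _ d (A.filter fun a => a ∉ H)
          (fun i => (QuotientAddGroup.mk i : G ⧸ H))).card = (FS A (id : G → G)).card →
        Nat.card H * cf (2 * Nat.card H) (A.filter fun a => a ∉ H).card ≤ (FS A (id : G → G)).card := by
      intro d h1 h2
      have hd : d = fun a b => Classical.propDecidable (a = b) := Subsingleton.elim _ _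
      subst hd
      have h3 := hTT (G ⧸ H) G (A.filter fun a => a ∉ H) (fun i => (QuotientAddGroup.mk i : G ⧸ H)) rfl
        q5 (q4 hcap) h1
      rw [← h2]
      exact Nat.mul_le_mul_left _ h3
    exact key _ hap q2
  · intro hc
    have hbot : H = ⊥ := AddSubgroup.eq_bot_of_card_eq H hc
    have hap : Aper (FS A (id : G → G)) := by
      intro g hg
      have h1 := (hH g).2 hg
      rw [hbot] at h1
      exact AddSubgroup.mem_bot.1 h1
    refine ⟨?_, ?_⟩
    · have hTT := (hmain A.card).2 2 le_rfl
      exact hTT G G A id rfl hne (fun x => (hcap x).trans (by norm_num)) hap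
    · have hPP := (hmain A.card).1 G G A id rfl hne hcap hap
      have hg : gen A (id : G → G) = AddSubgroup.closure (A : Set G) := by
        unfold gen
        rw [Set.image_id]
      rw [hg] at hPP
      exact hPP

end Pool.Agent.SDG
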