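import Pool.Agent.SDG.St

/-!
# SDG, module Sm (helper86): small families
-/

set_option autoImplicit false

noncomputable section

open Finset Pool.Agent.Helper64.Rho
open scoped Classical Pointwise

namespace Pool.Agent.SDG

variable {G ι : Type} [AddCommGroup G]

theorem Sm_step (hBa : St_Ba1) (f : ι → G) (s : Finset ι) (i : ι) (hi : i ∈ s) (h0 : f i ≠ 0)
    (h : Aper (FS s f)) : (FS (s.erase i) f).card + 1 ≤ (FS s f).card := by
  have h1 := (hBa G ι f).2.2.1 s i hi
  have h2 : lam (FS s f) (f i) ≠ 0 := by
    intro hcon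
    apply h0
    apply h
    intro x hx
    unfold lam at hcon
    rw [Finset.card_eq_zero, Finset.filter_eq_empty_iff] at hcon
    have := hcon hx
    push Not at this
    exact this
  omega

theorem Sm_grow (hBa : St_Ba1) (f : ι → G) : ∀ (k : ℕ) (s t : Finset ι), t ⊆ s → (s \ t).card = k →
    (∀ i ∈ s, f i ≠ 0) → Aper (FS s f) → (FS t f).card + k ≤ (FS s f).card := by
  intro k
  induction k with
  | zero =>
    intro s t hts hk hnz hap
    have h1 : s ⊆ t := by
      rw [Finset.card_eq_zero, Finset.sdiff_eq_empty_iff_subset] at hk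
      exact hk
    rw [Finset.Subset.antisymm hts h1]
    omega
  | succ k ih =>
    intro s t hts hk hnz hap
    obtain ⟨i, hi⟩ : (s \ t).Nonempty := by
      rw [← Finset.card_pos]; omega
    rw [Finset.mem_sdiff] at hi
    have h1 := Sm_step hBa f s i hi.1 (hnz i hi.1) hap
    have h2 : t ⊆ s.erase i := fun x hx => Finset.mem_erase.2
      ⟨fun hxi => hi.2 (hxi ▸ hx), hts hx⟩
    have h3 : (s.erase i \ t).card = k := by
      have : s.erase i \ t = (s \ t).erase i := by
        ext x
        simp only [Finset.mem_sdiff, Finset.mem_erase]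
        tauto
      rw [this, Finset.card_erase_of_mem (Finset.mem_sdiff.2 hi), hk]
      rfl
    have h4 := ih (s.erase i) t h2 h3 (fun j hj => hnz j (Finset.mem_of_mem_erase hj))
      ((hBa G ι f).2.1 s _ (Finset.erase_subset i s) hap)
    omega

theorem Sm_pair (f : ι → G) (a b : ι) (hab : a ≠ b) (ha : f a ≠ 0) (hb : f b ≠ 0)
    (h1 : f b ≠ f a) (h2 : f b ≠ - f a) : 4 ≤ (FS ({a, b} : Finset ι) f).card := by
  have h3 : ({0, f a, f b, f a + f b} : Finset G) ⊆ FS ({a, b} : Finset ι) f := by
    intro x hx
    simp only [Finset.mem_insert, Finset.mem_singleton] at hx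
    rw [mem_FS]
    rcases hx with rfl | rfl | rfl | rfl
    · exact ⟨∅, Finset.empty_subset _, by simp⟩
    · exact ⟨{a}, by simp, by simp⟩
    · exact ⟨{b}, by simp, by simp⟩
    · exact ⟨{a, b}, subset_rfl, by rw [Finset.sum_pair hab]⟩
  have h4 : ({0, f a, f b, f a + f b} : Finset G).card = 4 := by
    rw [Finset.card_insert_of_notMem, Finset.card_insert_of_notMem, Finset.card_insert_of_notMem,
      Finset.card_singleton]
    · rw [Finset.mem_singleton]
      intro h
      exact ha (by simpa using h.symm)
    · rw [Finset.mem_insert, Finset.mem_singleton]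
      rintro (h | h)
      · exact h1 h.symm
      · exact hb (by simpa using h.symm)
    · rw [Finset.mem_insert, Finset.mem_insert, Finset.mem_singleton]
      rintro (h | h | h)
      · exact ha h.symm
      · exact hb h.symm
      · exact h2 (eq_neg_of_add_eq_zero_right h.symm)
  rw [← h4]
  exact Finset.card_le_card h3

theorem thm_Sm (hBa : St_Ba1) : St_Sm := by
  intro G ι _ s f hnz hap
  constructor
  · have h1 := Sm_grow hBa f _ s ∅ (Finset.empty_subset _) rfl hnz hap
    rw [Finset.sdiff_empty, FS_empty, Finset.card_singleton] at h1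
    omega
  · intro hcap h3
    obtain ⟨a, ha⟩ : s.Nonempty := by
      rw [← Finset.card_pos]; omega
    obtain ⟨b, hb, hb2⟩ : ∃ b ∈ s, ¬ (f b = f a ∨ f b = - f a) := by
      by_contra hcon
      push Not at hcon
      have h4 := hcap (f a)
      rw [Finset.filter_true_of_mem] at h4
      · omega
      · intro i hi
        exact hcon i hi
    push Not at hb2
    have hab : a ≠ b := fun h => hb2.1 (by rw [h])
    have h5 := Sm_pair f a b hab (hnz a ha) (hnz b hb) hb2.1 hb2.2
    have h6 : ({a, b} : Finset ι) ⊆ s := by
      intro x hx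
      rw [Finset.mem_insert, Finset.mem_singleton] at hx
      rcases hx with rfl | rfl
      · exact ha
      · exact hb
    have h7 := Sm_grow hBa f _ s {a, b} h6 rfl hnz hap
    have h8 : (s \ {a, b}).card = s.card - 2 := by
      rw [Finset.card_sdiff_of_subset h6, Finset.card_pair hab]
    omega

end Pool.Agent.SDG
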