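import Pool.Agent.SDG.St

/-!
# SDG, module T2: case A of the exchange lemma
-/

set_option autoImplicit false

noncomputable section

open Finset Pool.Agent.Helper64.Rho
open scoped Classical Pointwise

namespace Pool.Agent.SDG

private theorem T2_gen_mem {G ι : Type} [AddCommGroup G] {s : Finset ι} {f : ι → G} {i : ι}
    (hi : i ∈ s) : f i ∈ gen s f :=
  AddSubgroup.subset_closure ⟨i, hi, rfl⟩

private theorem T2_cap_mono {G ι : Type} [AddCommGroup G] {g : ℕ} {s s' : Finset ι} {f : ι → G}
    (h : s ⊆ s') (hc : Cap g s' f) : Cap g s f := fun x =>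
  (card_le_card (filter_subset_filter _ h)).trans (hc x)

private theorem T2_cap_union {G ι : Type} [AddCommGroup G] {s s' : Finset ι} {f : ι → G}
    (h : Cap 2 s f) (h' : Cap 2 s' f) : Cap 4 (s ∪ s') f := fun x => by
  rw [filter_union]
  exact (card_union_le _ _).trans (by have := h x; have := h' x; omega)

private theorem T2_cap_le {G ι : Type} [AddCommGroup G] {g g' : ℕ} {s : Finset ι} {f : ι → G}
    (hg : g ≤ g') (hc : Cap g s f) : Cap g' s f := fun x => (hc x).trans hg

private theorem T2_cap_insert {G ι : Type} [AddCommGroup G] {s : Finset ι} {f : ι → G} {z : ι}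
    (hc : Cap 2 s f) (hz : f z ∉ gen s f) : Cap 2 (insert z s) f := by
  intro x
  rw [filter_insert]
  split_ifs with hx
  · have h2 : (s.filter fun i => f i = x ∨ f i = -x) = ∅ := by
      rw [filter_eq_empty_iff]
      intro i hi h
      apply hz
      rcases hx with hx | hx <;> rcases h with h | h
      · rw [hx, ← h]
        exact T2_gen_mem hi
      · have h1 : f z = - f i := by rw [h, hx, neg_neg]
        rw [h1]
        exact (gen s f).neg_mem (T2_gen_mem hi)
      · have h1 : f z = - f i := by rw [h, hx]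
        rw [h1]
        exact (gen s f).neg_mem (T2_gen_mem hi)
      · rw [hx, ← h]
        exact T2_gen_mem hi
    rw [h2]
    simp
  · exact hc x

private theorem T2_ne_bot {G : Type} [AddCommGroup G] {M : AddSubgroup G} {x : G} (hx : x ∈ M)
    (h0 : x ≠ 0) : M ≠ ⊥ := by
  rintro rfl
  exact h0 (AddSubgroup.mem_bot.1 hx)

theorem thm_T2 : St_Nm1 → St_Nm5 → St_Ba1 → St_Kn → St_T1 → St_T2 := by
  intro hN1 hN5 hB hK hT1 t hTT hPP G ι _ _ V U f hVU hcard hb1 hb2 hUne hf0 hcV hcU hAp hVio hUM
  obtain ⟨b1, b2, -, -, -, b6, b7⟩ := hB G ι f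
  obtain ⟨-, k2, -, k4⟩ := hK G
  obtain ⟨n51, n52, n53, n54⟩ := hN5
  have hfV : ∀ i ∈ V, f i ≠ 0 := fun i hi => hf0 i (mem_union_left _ hi)
  have hfU : ∀ i ∈ U, f i ≠ 0 := fun i hi => hf0 i (mem_union_right _ hi)
  have hσ : 1 ≤ U.card := card_pos.2 hUne
  have hτ : 1 ≤ V.card := by
    rcases V.eq_empty_or_nonempty with h | h
    · exfalso
      rw [h] at hVio
      unfold Vio at hVio
      rw [FS_empty, card_singleton, card_empty] at hVio
      have h1 : cf 2 0 = 1 := rfl
      omega
    · exact card_pos.2 h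
  have hap : ∀ W : Finset ι, W ⊆ V ∪ U → Aper (FS W f) := fun W hW => b2 _ _ hW hAp
  have hVM : ∀ i ∈ V, f i ∈ gen V f := fun i hi => T2_gen_mem hi
  have hall : ∀ i ∈ V ∪ U, f i ∈ gen V f := by
    intro i hi
    rcases mem_union.1 hi with h | h
    · exact hVM i h
    · exact hUM i h
  obtain ⟨w, hw⟩ := card_pos.1 hτ
  have hM : gen V f ≠ ⊥ := T2_ne_bot (hVM w hw) (hfV w hw)
  -- lower bound for `M`
  obtain ⟨W, hW⟩ : ∃ W : Finset ι, W = (V ∪ U).erase w := ⟨_, rfl⟩
  have hWsub : W ⊆ V ∪ U := by rw [hW]; exact erase_subset _ _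
  have hWc : W.card + 1 = V.card + U.card := by
    rw [hW, card_erase_add_one (mem_union_left _ hw), card_union_of_disjoint hVU]
  have hWcf : cf 4 W.card ≤ (FS W f).card :=
    hTT W.card (by omega) G ι W f rfl (fun i hi => hf0 i (hWsub hi))
      (T2_cap_mono hWsub (T2_cap_union hcV hcU)) (hap W hWsub)
  have hMge : cf 4 W.card + 1 ≤ Nat.card (gen V f) := by
    have h1 := k4 (FS W f) (gen V f) ⟨0, zero_mem_FS W f⟩ hM
      (fun x hx => FS_subset_of_mem (fun i hi => hall i (hWsub hi)) hx) (hap W hWsub)
    omega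
  -- upper bound
  have hPV := hPP V.card (by omega) G ι V f rfl hfV hcV (hap _ subset_union_left)
  have hVio' := hVio
  unfold Vio at hVio'
  rcases hPV with hPV | hPV
  · omega
  by_cases hodd : V.card % 2 = 1 ∧ V.card = U.card + 1
  · obtain ⟨J, hJ, hJ1⟩ : ∃ J : ℕ, V.card = 2 * J - 1 ∧ 1 ≤ J := ⟨(V.card + 1) / 2, by omega, by omega⟩
    have hUc : U.card = 2 * J - 2 := by omega
    have hWc' : W.card = 4 * J - 4 := by omega
    have hjj : jj V.card = J := by
      unfold jj
      omega
    have hjj' : jj U.card = J - 1 := by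
      unfold jj
      omega
    rw [hjj] at hPV
    obtain ⟨m1, m2⟩ := n54 J hJ1
    -- Kneser for `FS V`, `FS U`
    have h1 := k2 (FS V f) (FS U f) (gen V f) ⟨0, zero_mem_FS V f⟩ ⟨0, zero_mem_FS U f⟩ hM
      (fun x hx => FS_subset_of_mem hVM hx) (fun x hx => FS_subset_of_mem hUM hx)
      (by rw [← b1 V U hVU]; exact hAp)
    have hUv : Vio U f := by
      unfold Vio
      rw [hUc]
      omega
    by_cases hz : ∃ z ∈ V, f z ∉ gen U f
    · obtain ⟨z, hzV, hz⟩ := hz
      have hzU : z ∉ U := fun h => (Finset.disjoint_left.1 hVU hzV) h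
      have hVe : V.erase z ⊆ V := erase_subset _ _
      refine ⟨insert z U, V.erase z, ?_, ?_, ?_, ?_, Or.inl ⟨?_, ?_⟩, ?_, hUv⟩
      · rw [disjoint_insert_left]
        exact ⟨notMem_erase z V, (hVU.mono_left hVe).symm⟩
      · ext i
        simp only [mem_union, mem_insert, mem_erase]
        constructor
        · rintro ((h | h) | ⟨-, h⟩)
          · exact Or.inl (h ▸ hzV)
          · exact Or.inr h
          · exact Or.inl h
        · rintro (h | h)
          · by_cases hiz : i = z
            · exact Or.inl (Or.inl hiz)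
            · exact Or.inr ⟨hiz, h⟩
          · exact Or.inl (Or.inr h)
      · exact T2_cap_insert hcU hz
      · exact T2_cap_mono hVe hcV
      · rw [card_insert_of_notMem hzU]
        omega
      · have h2 := card_erase_add_one hzV
        omega
      · exact hT1 G ι U f z hzU (hTT _ (by omega)) hfU (T2_cap_le (by norm_num) hcU)
          (hap _ subset_union_right) hz
    · exfalso
      have hge : gen V f ≤ gen U f := by
        unfold gen
        rw [AddSubgroup.closure_le]
        rintro x ⟨i, hi, rfl⟩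
        by_contra h2
        exact hz ⟨i, hi, h2⟩
      have hge' : gen U f = gen V f := by
        apply le_antisymm _ hge
        unfold gen
        rw [AddSubgroup.closure_le]
        rintro x ⟨i, hi, rfl⟩
        exact hUM i hi
      have hPU := hPP U.card (by omega) G ι U f rfl hfU hcU (hap _ subset_union_right)
      unfold Vio at hUv
      rcases hPU with hPU | hPU
      · omega
      rw [hge', hjj'] at hPU
      have h3 : J - 1 - 1 = J - 2 := by omega
      rw [h3] at hPU
      rw [hWc'] at hMge
      omega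
  · exfalso
    have h4 := n51 V.card U.card hτ hb1 hb2 hodd
    have h5 : W.card = V.card + U.card - 1 := by omega
    rw [h5] at hMge
    omega

end Pool.Agent.SDG
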