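import Pool.Agent.SDG.St

/-!
# SDG, module T3: case B of the exchange lemma
-/

set_option autoImplicit false

noncomputable section

open Finset Pool.Agent.Helper64.Rho
open scoped Classical Pointwise

namespace Pool.Agent.SDG

private theorem T3_gen_mem {G ι : Type} [AddCommGroup G] {s : Finset ι} {f : ι → G} {i : ι}
    (hi : i ∈ s) : f i ∈ gen s f :=
  AddSubgroup.subset_closure ⟨i, hi, rfl⟩

private theorem T3_gen_mono {G ι : Type} [AddCommGroup G] {s s' : Finset ι} (h : s ⊆ s')
    (f : ι → G) : gen s f ≤ gen s' f :=
  AddSubgroup.closure_mono (Set.image_mono (Finset.coe_subset.2 h))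

private theorem T3_cap_mono {G ι : Type} [AddCommGroup G] {g : ℕ} {s s' : Finset ι} {f : ι → G}
    (h : s ⊆ s') (hc : Cap g s' f) : Cap g s f := fun x =>
  (card_le_card (filter_subset_filter _ h)).trans (hc x)

private theorem T3_cap_union {G ι : Type} [AddCommGroup G] {s s' : Finset ι} {f : ι → G}
    (h : Cap 2 s f) (h' : Cap 2 s' f) : Cap 4 (s ∪ s') f := fun x => by
  rw [filter_union]
  exact (card_union_le _ _).trans (by have := h x; have := h' x; omega)

private theorem T3_cap_le {G ι : Type} [AddCommGroup G] {g g' : ℕ} {s : Finset ι} {f : ι → G}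
    (hg : g ≤ g') (hc : Cap g s f) : Cap g' s f := fun x => (hc x).trans hg

private theorem T3_cap_insert {G ι : Type} [AddCommGroup G] {s : Finset ι} {f : ι → G} {z : ι}
    (hc : Cap 2 s f) (h1 : (s.filter fun i => f i = f z ∨ f i = - f z).card ≤ 1) :
    Cap 2 (insert z s) f := by
  intro x
  rw [filter_insert]
  split_ifs with hx
  · have h2 : (s.filter fun i => f i = x ∨ f i = -x) ⊆
        (s.filter fun i => f i = f z ∨ f i = - f z) := by
      intro i hi
      rw [mem_filter] at hi ⊢
      refine ⟨hi.1, ?_⟩
      rcases hx with hx | hx <;> rcases hi.2 with h | h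
      · exact Or.inl (h.trans hx.symm)
      · exact Or.inr (by rw [h, hx])
      · exact Or.inr (by rw [h, hx, neg_neg])
      · exact Or.inl (h.trans hx.symm)
    have h3 := card_le_card h2
    have h4 := card_insert_le z (s.filter fun i => f i = x ∨ f i = -x)
    omega
  · exact hc x

/-- no member of `s` is `± f z` if `f z` is not in the generated subgroup -/
private theorem T3_no {G ι : Type} [AddCommGroup G] {s : Finset ι} {f : ι → G} {z : ι}
    (hz : f z ∉ gen s f) : (s.filter fun i => f i = f z ∨ f i = - f z).card ≤ 1 := by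
  have h : (s.filter fun i => f i = f z ∨ f i = - f z) = ∅ := by
    rw [filter_eq_empty_iff]
    rintro i hi (h | h)
    · exact hz (h ▸ T3_gen_mem hi)
    · apply hz
      have h1 : f z = - f i := by rw [h, neg_neg]
      rw [h1]
      exact (gen s f).neg_mem (T3_gen_mem hi)
  rw [h]
  exact Nat.zero_le _

private theorem T3_ne_bot {G : Type} [AddCommGroup G] {M : AddSubgroup G} {x : G} (hx : x ∈ M)
    (h0 : x ≠ 0) : M ≠ ⊥ := by
  rintro rfl
  exact h0 (AddSubgroup.mem_bot.1 hx)

theorem thm_T3 : St_Nm1 → St_Nm5 → St_Ba1 → St_Kn → St_T1 → St_T3 := by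
  intro hN1 hN5 hB hK hT1 t hTT hPP G ι _ _ V U f z hVU hcard hb1 hb2 hzU hf0 hcV hcU hAp hVio hzM
  obtain ⟨-, b2, -, -, -, b6, b7⟩ := hB G ι f
  obtain ⟨-, -, -, k4⟩ := hK G
  obtain ⟨n51, n52, n53, -⟩ := hN5
  have hzV : z ∉ V := fun h => (Finset.disjoint_left.1 hVU h) hzU
  have hfV : ∀ i ∈ V, f i ≠ 0 := fun i hi => hf0 i (mem_union_left _ hi)
  have hfU : ∀ i ∈ U, f i ≠ 0 := fun i hi => hf0 i (mem_union_right _ hi)
  have hσ : 1 ≤ U.card := card_pos.2 ⟨z, hzU⟩
  have hτ : 1 ≤ V.card := by
    rcases V.eq_empty_or_nonempty with h | h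
    · exfalso
      rw [h] at hVio
      unfold Vio at hVio
      rw [FS_empty, card_singleton, card_empty] at hVio
      have h1 : cf 2 0 = 1 := rfl
      omega
    · exact card_pos.2 h
  -- aperiodicity of the subfamilies
  have hap : ∀ W : Finset ι, W ⊆ V ∪ U → Aper (FS W f) := fun W hW => b2 _ _ hW hAp
  obtain ⟨U0, hU0⟩ : ∃ U0 : Finset ι, U0 = U.erase z := ⟨_, rfl⟩
  have hU0U : U0 ⊆ U := by rw [hU0]; exact erase_subset _ _
  have hzU0 : z ∉ U0 := by rw [hU0]; exact notMem_erase z U
  have hU0c : U0.card + 1 = U.card := by rw [hU0]; exact card_erase_add_one hzU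
  have hUi : insert z U0 = U := by rw [hU0]; exact insert_erase hzU
  have hfU0 : ∀ i ∈ U0, f i ≠ 0 := fun i hi => hfU i (hU0U hi)
  -- the union of V and U0
  obtain ⟨W, hW⟩ : ∃ W : Finset ι, W = V ∪ U0 := ⟨_, rfl⟩
  have hVU0 : Disjoint V U0 := hVU.mono_right hU0U
  have hWc : W.card = V.card + U0.card := by rw [hW]; exact card_union_of_disjoint hVU0
  have hWsub : W ⊆ V ∪ U := by rw [hW]; exact union_subset_union_right hU0U
  have hWcap : Cap (2 * 2) W f := by
    rw [hW]
    exact T3_cap_union hcV (T3_cap_mono hU0U hcU)
  have hWcf : cf 4 W.card ≤ (FS W f).card :=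
    hTT W.card (by omega) G ι W f rfl (fun i hi => hf0 i (hWsub hi)) hWcap (hap W hWsub)
  have hWM : ∀ M : AddSubgroup G, (∀ i ∈ W, f i ∈ M) → cf 4 W.card + 1 ≤ Nat.card M := by
    intro M hM
    obtain ⟨v, hv⟩ := card_pos.1 hτ
    have hvW : v ∈ W := by rw [hW]; exact mem_union_left _ hv
    have h1 := k4 (FS W f) M ⟨0, zero_mem_FS W f⟩ (T3_ne_bot (hM v hvW) (hfV v hv))
      (fun x hx => FS_subset_of_mem hM hx) (hap W hWsub)
    omega
  by_contra hcon
  -- swap
  have hswap : ∀ y ∈ V, (U0.filter fun i => f i = f y ∨ f i = - f y).card ≤ 1 →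
      Vio (insert y U0) f := by
    intro y hy hadm
    by_contra hnv
    apply hcon
    have hyU : y ∉ U := fun h => (Finset.disjoint_left.1 hVU hy) h
    have hyU0 : y ∉ U0 := fun h => hyU (hU0U h)
    have hyz : y ≠ z := fun h => hyU (h ▸ hzU)
    have hVe : V.erase y ⊆ V := erase_subset _ _
    have hzVe : z ∉ V.erase y := fun h => hzV (hVe h)
    have hzg : f z ∉ gen (V.erase y) f := fun h => hzM (T3_gen_mono hVe f h)
    refine ⟨insert z (V.erase y), insert y U0, ?_, ?_, ?_, ?_, Or.inl ⟨?_, ?_⟩, ?_, hnv⟩
    · rw [Finset.disjoint_left]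
      intro i hi hi'
      rcases mem_insert.1 hi with h | h
      · rcases mem_insert.1 hi' with h' | h'
        · exact hyz (h'.symm.trans h)
        · exact hzU0 (h ▸ h')
      · rcases mem_insert.1 hi' with h' | h'
        · exact (mem_erase.1 h).1 h'
        · exact Finset.disjoint_left.1 hVU0 (hVe h) h'
    · ext i
      simp only [mem_union, mem_insert, mem_erase]
      constructor
      · rintro ((h | ⟨-, h⟩) | (h | h))
        · exact Or.inr (h ▸ hzU)
        · exact Or.inl h
        · exact Or.inl (h ▸ hy)
        · exact Or.inr (hU0U h)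
      · rintro (h | h)
        · by_cases hiy : i = y
          · exact Or.inr (Or.inl hiy)
          · exact Or.inl (Or.inr ⟨hiy, h⟩)
        · rw [← hUi, mem_insert] at h
          rcases h with h | h
          · exact Or.inl (Or.inl h)
          · exact Or.inr (Or.inr h)
    · exact T3_cap_insert (T3_cap_mono hVe hcV) (T3_no hzg)
    · exact T3_cap_insert (T3_cap_mono hU0U hcU) hadm
    · rw [card_insert_of_notMem hzVe, card_erase_add_one hy]
    · rw [card_insert_of_notMem hyU0, hU0c]
    · have hVc := card_erase_add_one hy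
      exact hT1 G ι (V.erase y) f z hzVe (hTT _ (by omega)) (fun i hi => hfV i (hVe hi))
        (T3_cap_le (by norm_num) (T3_cap_mono hVe hcV)) (hap _ (hVe.trans subset_union_left)) hzg
  by_cases hex : ∃ y ∈ V, (U0.filter fun i => f i = f y ∨ f i = - f y).card ≤ 1
  · -- (a)
    obtain ⟨y, hy, hadm⟩ := hex
    have hyU : y ∉ U := fun h => (Finset.disjoint_left.1 hVU hy) h
    have hyU0 : y ∉ U0 := fun h => hyU (hU0U h)
    have hgen : ∀ y' ∈ V, (U0.filter fun i => f i = f y' ∨ f i = - f y').card ≤ 1 →
        f y' ∈ gen U0 f := by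
      intro y' hy' hadm'
      by_contra hng
      have hyU' : y' ∉ U0 := fun h => (Finset.disjoint_left.1 hVU0 hy') h
      exact hT1 G ι U0 f y' hyU' (hTT _ (by omega)) hfU0
        (T3_cap_le (by norm_num) (T3_cap_mono hU0U hcU)) (hap _ (hU0U.trans subset_union_right)) hng
        (hswap y' hy' hadm')
    have hVM : ∀ i ∈ W, f i ∈ gen U0 f := by
      intro i hi
      rw [hW, mem_union] at hi
      rcases hi with hi | hi
      · by_cases hadm' : (U0.filter fun j => f j = f i ∨ f j = - f i).card ≤ 1
        · exact hgen i hi hadm'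
        · have h1 : 0 < (U0.filter fun j => f j = f i ∨ f j = - f i).card := by omega
          obtain ⟨j, hj⟩ := card_pos.1 h1
          rw [mem_filter] at hj
          rcases hj.2 with h | h
          · rw [← h]
            exact T3_gen_mem hj.1
          · have h2 : f i = - f j := by rw [h, neg_neg]
            rw [h2]
            exact (gen U0 f).neg_mem (T3_gen_mem hj.1)
      · exact T3_gen_mem hi
    have hMge := hWM _ hVM
    have hgy := hgen y hy hadm
    -- the generated subgroup of `insert y U0`
    have hge : gen U0 f = gen (insert y U0) f := by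
      have h1 := b6 (insert y U0) y (mem_insert_self _ _)
      rw [erase_insert hyU0] at h1
      exact h1 hgy
    have hcy : (insert y U0).card = U.card := by rw [card_insert_of_notMem hyU0, hU0c]
    have hsub : insert y U0 ⊆ V ∪ U :=
      insert_subset (mem_union_left _ hy) (hU0U.trans subset_union_right)
    have hvio := hswap y hy hadm
    have h3 := hPP U.card (by omega) G ι (insert y U0) f hcy (fun i hi => hf0 i (hsub hi))
      (T3_cap_insert (T3_cap_mono hU0U hcU) hadm) (hap _ hsub)
    have hvio' : (FS (insert y U0) f).card < cf 2 U.card := by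
      unfold Vio at hvio
      rw [hcy] at hvio
      exact hvio
    rcases h3 with h3 | h3
    · omega
    rw [← hge] at h3
    by_cases hodd : U.card % 2 = 1 ∧ U.card = V.card + 1
    · -- the move
      have hmv : Vio U0 f := by
        by_contra hnv
        apply hcon
        refine ⟨insert z V, U0, ?_, ?_, ?_, ?_, Or.inr ⟨?_, ?_⟩, ?_, hnv⟩
        · rw [disjoint_insert_left]
          exact ⟨hzU0, hVU0⟩
        · ext i
          simp only [mem_union, mem_insert]
          constructor
          · rintro ((h | h) | h)
            · exact Or.inr (h ▸ hzU)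
            · exact Or.inl h
            · exact Or.inr (hU0U h)
          · rintro (h | h)
            · exact Or.inl (Or.inr h)
            · rw [← hUi, mem_insert] at h
              rcases h with h | h
              · exact Or.inl (Or.inl h)
              · exact Or.inr h
        · exact T3_cap_insert hcV (T3_no hzM)
        · exact T3_cap_mono hU0U hcU
        · rw [card_insert_of_notMem hzV]
          omega
        · omega
        · exact hT1 G ι V f z hzV (hTT _ (by omega)) hfV (T3_cap_le (by norm_num) hcV)
            (hap _ subset_union_left) hzM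
      obtain ⟨I, hI⟩ : ∃ I : ℕ, U.card = 2 * I - 1 ∧ 1 ≤ I := ⟨(U.card + 1) / 2, by omega, by omega⟩
      have hU0c' : U0.card = 2 * I - 2 := by omega
      have h4 := hPP U0.card (by omega) G ι U0 f rfl hfU0 (T3_cap_mono hU0U hcU)
        (hap _ (hU0U.trans subset_union_right))
      unfold Vio at hmv
      rcases h4 with h4 | h4
      · omega
      have h5 := n53 I hI.2
      rw [hU0c'] at h4 hmv
      have h6 : W.card = 4 * I - 4 := by omega
      rw [h6] at hMge
      omega
    · have h4 := n51 U.card V.card hσ hb2 hb1 hodd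
      have h5 : W.card = U.card + V.card - 1 := by omega
      rw [h5] at hMge
      omega
  · -- (b)
    have hno : ∀ y ∈ V, 2 ≤ (U0.filter fun i => f i = f y ∨ f i = - f y).card := by
      intro y hy
      by_contra h
      exact hex ⟨y, hy, by omega⟩
    obtain ⟨c, hc⟩ : ∃ c : ι → Finset G, c = fun i => {f i, - f i} := ⟨_, rfl⟩
    have hcc : ∀ i j, c i = c j ↔ (f i = f j ∨ f i = - f j) := by
      intro i j
      rw [hc]
      constructor
      · intro h
        have h' : ({f i, - f i} : Finset G) = {f j, - f j} := h
        have h1 : f i ∈ ({f j, - f j} : Finset G) := by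
          rw [← h']
          exact mem_insert_self _ _
        rw [mem_insert, mem_singleton] at h1
        exact h1
      · rintro (h | h)
        · show ({f i, - f i} : Finset G) = {f j, - f j}
          rw [h]
        · show ({f i, - f i} : Finset G) = {f j, - f j}
          rw [h, neg_neg]
          exact Finset.pair_comm _ _
    obtain ⟨U1, hU1⟩ : ∃ U1 : Finset ι, U1 = U0.filter fun i => c i ∈ V.image c := ⟨_, rfl⟩
    have hU1U : U1 ⊆ U0 := by rw [hU1]; exact filter_subset _ _
    have h1 : V.card ≤ U1.card := by
      rw [card_eq_sum_card_fiberwise (f := c) (s := V) (t := V.image c)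
        (fun i hi => mem_image_of_mem c hi),
        card_eq_sum_card_fiberwise (f := c) (s := U1) (t := V.image c)
        (fun i hi => by
          have h := hi
          rw [hU1] at h
          exact (mem_filter.1 h).2)]
      apply sum_le_sum
      intro b hb
      obtain ⟨y, hy, rfl⟩ := mem_image.1 hb
      have h2 : (V.filter fun i => c i = c y).card ≤ 2 := by
        have h3 := hcV (f y)
        have h4 : (V.filter fun i => c i = c y) = V.filter fun i => f i = f y ∨ f i = - f y := by
          apply filter_congr
          intro i _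
          exact hcc i y
        rw [h4]
        exact h3
      have h3 : 2 ≤ (U1.filter fun i => c i = c y).card := by
        have h4 : (U1.filter fun i => c i = c y) = U0.filter fun i => f i = f y ∨ f i = - f y := by
          ext i
          rw [mem_filter, mem_filter, hU1, mem_filter, ← hcc i y]
          constructor
          · rintro ⟨⟨h5, -⟩, h6⟩
            exact ⟨h5, h6⟩
          · rintro ⟨h5, h6⟩
            exact ⟨⟨h5, by rw [h6]; exact hb⟩, h6⟩
        rw [h4]
        exact hno y hy
      exact h2.trans h3
    have h2 : U1.card ≤ U0.card := card_le_card hU1U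
    have h3 : U1 = U0 := eq_of_subset_of_card_le hU1U (by omega)
    have hWV : ∀ i ∈ W, f i ∈ gen V f := by
      intro i hi
      rw [hW, mem_union] at hi
      rcases hi with hi | hi
      · exact T3_gen_mem hi
      · rw [← h3, hU1, mem_filter, mem_image] at hi
        obtain ⟨-, y, hy, h4⟩ := hi
        rcases (hcc y i).1 h4 with h5 | h5
        · rw [← h5]
          exact T3_gen_mem hy
        · have h6 : f i = - f y := by rw [h5, neg_neg]
          rw [h6]
          exact (gen V f).neg_mem (T3_gen_mem hy)
    have hMge := hWM _ hWV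
    have h4 := hPP V.card (by omega) G ι V f rfl hfV hcV (hap _ subset_union_left)
    unfold Vio at hVio
    rcases h4 with h4 | h4
    · omega
    have h5 := n52 V.card
    have h6 : W.card = 2 * V.card := by omega
    rw [h6] at hMge
    omega

end Pool.Agent.SDG
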