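import Pool.Agent.SDG.St

/-!
SDG [T5]: the inductive step for `TT`.
-/

set_option autoImplicit false

open Finset Pool.Agent.Helper64.Rho
open scoped Classical Pointwise

namespace Pool.Agent.SDG

theorem T5_small {G ι : Type} [AddCommGroup G] {V : Finset ι} {f : ι → G}
    (hf : ∀ i ∈ V, f i ≠ 0) (hV : Vio V f) : 2 ≤ V.card := by
  by_contra hc
  have hc' : V.card = 0 ∨ V.card = 1 := by omega
  unfold Vio at hV
  rcases hc' with h | h
  · rw [h, Finset.card_eq_zero.1 h] at hV
    simp [cf] at hV
  · obtain ⟨i, rfl⟩ := Finset.card_eq_one.1 h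
    rw [h] at hV
    have h0 : (0 : G) ∈ FS {i} f := zero_mem_FS _ _
    have h1 : f i ∈ FS {i} f := mem_FS.2 ⟨{i}, subset_rfl, by simp⟩
    have h2 : ({0, f i} : Finset G) ⊆ FS {i} f := by
      intro x hx
      rcases Finset.mem_insert.1 hx with rfl | hx
      · exact h0
      · rw [Finset.mem_singleton.1 hx]
        exact h1
    have h3 := Finset.card_le_card h2
    rw [Finset.card_pair (hf i (Finset.mem_singleton_self i)).symm] at h3
    have h4 : cf 2 1 = 2 := by simp [cf]
    omega

/-- recolouring of two classes -/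
noncomputable def T5_col {ι : Type} {h : ℕ} (c : ι → Fin h) (k l : Fin h) (V' U' : Finset ι) :
    ι → Fin h := fun j => if j ∈ V' then k else if j ∈ U' then l else c j

theorem T5_class {ι : Type} {h : ℕ} (s : Finset ι) (c : ι → Fin h) (k l : Fin h) (hkl : k ≠ l)
    (V' U' : Finset ι) (hd : Disjoint V' U')
    (hu : V' ∪ U' = (s.filter fun i => c i = k) ∪ (s.filter fun i => c i = l)) :
    (s.filter fun i => T5_col c k l V' U' i = k) = V' ∧
    (s.filter fun i => T5_col c k l V' U' i = l) = U' ∧
    ∀ m, m ≠ k → m ≠ l → (s.filter fun i => T5_col c k l V' U' i = m) = s.filter fun i => c i = m := by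
  have hmem : ∀ j, j ∈ V' ∨ j ∈ U' ↔ j ∈ s ∧ (c j = k ∨ c j = l) := by
    intro j
    rw [← Finset.mem_union, hu, Finset.mem_union, Finset.mem_filter, Finset.mem_filter]
    tauto
  have hdis : ∀ j, j ∈ V' → j ∉ U' := fun j h1 h2 => Finset.disjoint_left.1 hd h1 h2
  refine ⟨?_, ?_, ?_⟩
  · ext j
    rw [Finset.mem_filter]
    unfold T5_col
    by_cases h1 : j ∈ V'
    · simp only [h1, if_true, and_true, iff_true]
      exact ((hmem j).1 (Or.inl h1)).1
    · by_cases h2 : j ∈ U'
      · simp only [h1, h2, if_true, if_false, iff_false, not_and]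
        exact fun _ => hkl.symm
      · simp only [h1, h2, if_false, iff_false, not_and]
        intro hj hc
        exact (not_or.2 ⟨h1, h2⟩) ((hmem j).2 ⟨hj, Or.inl hc⟩)
  · ext j
    rw [Finset.mem_filter]
    unfold T5_col
    by_cases h1 : j ∈ V'
    · simp only [h1, hdis j h1, if_true, iff_false, not_and]
      exact fun _ => hkl
    · by_cases h2 : j ∈ U'
      · simp only [h1, h2, if_true, if_false, and_true, iff_true]
        exact ((hmem j).1 (Or.inr h2)).1
      · simp only [h1, h2, if_false, iff_false, not_and]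
        intro hj hc
        exact (not_or.2 ⟨h1, h2⟩) ((hmem j).2 ⟨hj, Or.inr hc⟩)
  · intro m hmk hml
    apply Finset.filter_congr
    intro j hj
    unfold T5_col
    by_cases h1 : j ∈ V'
    · simp only [h1, if_true]
      constructor
      · intro h
        exact absurd h.symm hmk
      · intro h
        rcases ((hmem j).1 (Or.inl h1)).2 with h3 | h3
        · exact absurd (h.symm.trans h3) hmk
        · exact absurd (h.symm.trans h3) hml
    · by_cases h2 : j ∈ U'
      · simp only [h1, h2, if_true, if_false]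
        constructor
        · intro h
          exact absurd h.symm hml
        · intro h
          rcases ((hmem j).1 (Or.inr h2)).2 with h3 | h3
          · exact absurd (h.symm.trans h3) hmk
          · exact absurd (h.symm.trans h3) hml
      · simp only [h1, h2, if_false]

/-- a colouring with `Cap 2` and balanced classes -/
def T5_good {G ι : Type} [AddCommGroup G] {h : ℕ} (s : Finset ι) (f : ι → G) (c : ι → Fin h) : Prop :=
  (∀ k, Cap 2 (s.filter fun i => c i = k) f) ∧
      ∀ k l, (s.filter fun i => c i = k).card ≤ (s.filter fun i => c i = l).card + 1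

/-- the violating classes -/
noncomputable def T5_vio {G ι : Type} [AddCommGroup G] {h : ℕ} (s : Finset ι) (f : ι → G)
    (c : ι → Fin h) : Finset (Fin h) :=
  Finset.univ.filter fun k => Vio (s.filter fun i => c i = k) f

theorem T5_step {G ι : Type} [AddCommGroup G] {h : ℕ} (s : Finset ι) (f : ι → G) (c : ι → Fin h)
    (hc : T5_good s f c) (k l : Fin h) (hkl : k ≠ l) (V' U' : Finset ι) (hd : Disjoint V' U')
    (hu : V' ∪ U' = (s.filter fun i => c i = k) ∪ (s.filter fun i => c i = l))
    (hV : Cap 2 V' f) (hU : Cap 2 U' f)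
    (hsz : (V'.card = (s.filter fun i => c i = k).card ∧ U'.card = (s.filter fun i => c i = l).card) ∨
      (V'.card = (s.filter fun i => c i = l).card ∧ U'.card = (s.filter fun i => c i = k).card))
    (hvk : Vio (s.filter fun i => c i = k) f) (hnV : ¬ Vio V' f)
    (hnU : Vio U' f → Vio (s.filter fun i => c i = l) f) :
    ∃ c' : ι → Fin h, T5_good s f c' ∧ (T5_vio s f c').card < (T5_vio s f c).card := by
  obtain ⟨e1, e2, e3⟩ := T5_class s c k l hkl V' U' hd hu
  refine ⟨T5_col c k l V' U', ⟨?_, ?_⟩, ?_⟩
  · intro m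
    by_cases hmk : m = k
    · subst hmk
      rw [e1]
      exact hV
    · by_cases hml : m = l
      · subst hml
        rw [e2]
        exact hU
      · rw [e3 m hmk hml]
        exact hc.1 m
  · have hσ : ∃ σ : Fin h → Fin h, ∀ m, (s.filter fun i => T5_col c k l V' U' i = m).card =
        (s.filter fun i => c i = σ m).card := by
      rcases hsz with ⟨h1, h2⟩ | ⟨h1, h2⟩
      · refine ⟨id, fun m => ?_⟩
        by_cases hmk : m = k
        · subst hmk
          rw [e1, h1]
          rfl
        · by_cases hml : m = l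
          · subst hml
            rw [e2, h2]
            rfl
          · rw [e3 m hmk hml]
            rfl
      · refine ⟨Equiv.swap k l, fun m => ?_⟩
        by_cases hmk : m = k
        · subst hmk
          rw [e1, h1, Equiv.swap_apply_left]
        · by_cases hml : m = l
          · subst hml
            rw [e2, h2, Equiv.swap_apply_right]
          · rw [e3 m hmk hml, Equiv.swap_apply_of_ne_of_ne hmk hml]
    obtain ⟨σ, hσ⟩ := hσ
    intro p q
    rw [hσ, hσ]
    exact hc.2 _ _
  · have hsub : T5_vio s f (T5_col c k l V' U') ⊆ (T5_vio s f c).erase k := by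
      intro m hm
      have hm' : Vio (s.filter fun i => T5_col c k l V' U' i = m) f := (Finset.mem_filter.1 hm).2
      have hmk : m ≠ k := by
        rintro rfl
        rw [e1] at hm'
        exact hnV hm'
      refine Finset.mem_erase.2 ⟨hmk, Finset.mem_filter.2 ⟨Finset.mem_univ _, ?_⟩⟩
      by_cases hml : m = l
      · subst hml
        rw [e2] at hm'
        exact hnU hm'
      · rw [e3 m hmk hml] at hm'
        exact hm'
    have hk : k ∈ T5_vio s f c := Finset.mem_filter.2 ⟨Finset.mem_univ _, hvk⟩
    calc (T5_vio s f (T5_col c k l V' U')).card ≤ ((T5_vio s f c).erase k).card :=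
          Finset.card_le_card hsub
      _ < (T5_vio s f c).card := Finset.card_erase_lt_of_mem hk

/-- [T5] -/
theorem T5_card {G ι : Type} [AddCommGroup G] {h : ℕ} (s : Finset ι) (f : ι → G) (c : ι → Fin h) (k : Fin h)
    (d1 d2 : DecidablePred fun i => c i = k) :
    (FS (@Finset.filter ι (fun i => c i = k) d1 s) f).card - 1 =
      (FS (@Finset.filter ι (fun i => c i = k) d2 s) f).card - 1 := by
  rw [Subsingleton.elim d1 d2]

theorem thm_T5 : St_Nm1 → St_Nm3 → St_Ba1 → St_Kp → St_T2 → St_T3 → St_Co → St_T5 := by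
  intro _ hNm3 hBa hKp hT2 hT3 hCo h t hh hTT hPP G ι _ _ s f hs hf hcap hap
  obtain ⟨c0, hc0⟩ := hCo G ι s f h (by omega) hcap
  have hex : ∃ n : ℕ, ∃ c : ι → Fin h, T5_good s f c ∧ (T5_vio s f c).card = n :=
    ⟨_, c0, hc0, rfl⟩
  obtain ⟨c, hc, hn⟩ := Nat.find_spec hex
  have hmin : ∀ c' : ι → Fin h, T5_good s f c' → ¬ (T5_vio s f c').card < (T5_vio s f c).card := by
    intro c' hc' hlt
    rw [hn] at hlt
    exact Nat.find_min hex hlt ⟨c', hc', rfl⟩
  have hno : ∀ k, ¬ Vio (s.filter fun i => c i = k) f := by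
    intro k hk
    have hfk : ∀ i ∈ s.filter fun i => c i = k, f i ≠ 0 := fun i hi => hf i (Finset.mem_filter.1 hi).1
    have h2 := T5_small hfk hk
    obtain ⟨l, hl⟩ : ∃ l : Fin h, l ≠ k := by
      have : Nontrivial (Fin h) := Fin.nontrivial_iff_two_le.2 hh
      exact exists_ne k
    have hd : Disjoint (s.filter fun i => c i = k) (s.filter fun i => c i = l) := by
      rw [Finset.disjoint_left]
      intro i h1 h3
      exact hl ((Finset.mem_filter.1 h3).2.symm.trans (Finset.mem_filter.1 h1).2)
    have hsub : (s.filter fun i => c i = k) ∪ (s.filter fun i => c i = l) ⊆ s :=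
      Finset.union_subset (Finset.filter_subset _ _) (Finset.filter_subset _ _)
    have hle : (s.filter fun i => c i = k).card + (s.filter fun i => c i = l).card ≤ t := by
      rw [← Finset.card_union_of_disjoint hd, ← hs]
      exact Finset.card_le_card hsub
    have hb1 := hc.2 k l
    have hb2 := hc.2 l k
    have hUne : (s.filter fun i => c i = l).Nonempty := by
      rw [← Finset.card_pos]
      omega
    have hf' : ∀ i ∈ (s.filter fun i => c i = k) ∪ (s.filter fun i => c i = l), f i ≠ 0 :=
      fun i hi => hf i (hsub hi)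
    have hap' : Aper (FS ((s.filter fun i => c i = k) ∪ (s.filter fun i => c i = l)) f) :=
      (hBa G ι f).2.1 _ _ hsub hap
    by_cases hgen : ∀ i ∈ (s.filter fun i => c i = l), f i ∈ gen (s.filter fun i => c i = k) f
    · obtain ⟨V', U', g1, g2, g3, g4, g5, g6, g7⟩ := hT2 t hTT hPP G ι _ _ f hd hle hb1 hb2 hUne hf'
        (hc.1 k) (hc.1 l) hap' hk hgen
      obtain ⟨c', hc', hlt⟩ := T5_step s f c hc k l hl.symm V' U' g1 g2 g3 g4 g5 hk g6 (fun _ => g7)
      exact hmin c' hc' hlt
    · push Not at hgen
      obtain ⟨z, hz, hzg⟩ := hgen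
      obtain ⟨V', U', g1, g2, g3, g4, g5, g6, g7⟩ := hT3 t hTT hPP G ι _ _ f z hd hle hb1 hb2 hz hf'
        (hc.1 k) (hc.1 l) hap' hk hzg
      obtain ⟨c', hc', hlt⟩ := T5_step s f c hc k l hl.symm V' U' g1 g2 g3 g4 g5 hk g6
        (fun h => absurd h g7)
      exact hmin c' hc' hlt
  have h1 := hNm3 (Fin h) Finset.univ (fun k => (s.filter fun i => c i = k).card)
    (by rw [Finset.card_univ, Fintype.card_fin]; omega)
  rw [Finset.card_univ, Fintype.card_fin] at h1
  have h2 : ∑ k : Fin h, (s.filter fun i => c i = k).card = t := by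
    rw [← hs]
    exact (Finset.card_eq_sum_card_fiberwise fun _ _ => Finset.mem_coe.2 (Finset.mem_univ _)).symm
  rw [h2] at h1
  have h3 := hKp G ι (Fin h) s f c Finset.univ (fun i _ => Finset.mem_univ _) hap
  have h4 : 1 + ∑ k : Fin h, ((FS (s.filter fun i => c i = k) f).card - 1) ≤ (FS s f).card := by
    refine le_trans (le_of_eq ?_) h3
    exact congrArg (fun z => 1 + z) (Finset.sum_congr rfl fun k _ => T5_card s f c k _ _)
  refine h1.trans (le_trans ?_ h4)
  refine Nat.add_le_add_left (Finset.sum_le_sum fun k _ => ?_) 1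
  exact Nat.sub_le_sub_right (not_lt.1 (hno k)) 1

end Pool.Agent.SDG
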