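import Pool.Agent.SDG.St

/-!
# SDG Up: the construction in `ZMod n`
-/

set_option autoImplicit false

noncomputable section

open Finset Pool.Agent.Helper64.Rho
open scoped Classical Pointwise

namespace Pool.Agent.SDG

private lemma Up_FS_image {ι G : Type*} [AddCommGroup G] [DecidableEq G] (s : Finset ι) (F : ι → G)
    (hF : Set.InjOn F (s : Set ι)) : (FS (s.image F) id) ⊆ FS s F := by
  intro x hx
  obtain ⟨B, hB, rfl⟩ := mem_FS.mp hx
  refine mem_FS.mpr ⟨s.filter fun i => F i ∈ B, filter_subset _ _, ?_⟩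
  have hBe : (s.filter fun i => F i ∈ B).image F = B := by
    ext y
    simp only [mem_image, mem_filter]
    constructor
    · rintro ⟨i, ⟨_, h⟩, rfl⟩
      exact h
    · intro hy
      obtain ⟨i, hi, rfl⟩ := mem_image.mp (hB hy)
      exact ⟨i, ⟨hi, hy⟩, rfl⟩
  conv_rhs => rw [← hBe]
  rw [sum_image]
  · simp
  · intro i hi j hj hij
    exact hF (by have := (mem_filter.mp hi).1; exact_mod_cast this)
      (by have := (mem_filter.mp hj).1; exact_mod_cast this) hij

private lemma Up_card (n N h m : ℕ) (hn : n = h * N) (hh : 1 ≤ h) (C K : ℕ → ℤ) (W : ℕ)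
    (hW : ∑ i ∈ range m, |C i| = (W : ℤ)) :
    (FS (range m) (fun i => ((C i + (N : ℤ) * K i : ℤ) : ZMod n))).card ≤ h * (W + 1) := by
  set wp : ℤ := ∑ i ∈ range m, max (C i) 0 with hwp
  set wm : ℤ := ∑ i ∈ range m, max (-C i) 0 with hwm
  have hsum : wp + wm = W := by
    rw [← hW, hwp, hwm, ← sum_add_distrib]
    refine sum_congr rfl fun i _ => ?_
    rcases le_total 0 (C i) with h0 | h0
    · rw [max_eq_left h0, max_eq_right (by omega), abs_of_nonneg h0, add_zero]
    · rw [max_eq_right h0, max_eq_left (by omega), abs_of_nonpos h0, zero_add]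
  have hsub : FS (range m) (fun i => ((C i + (N : ℤ) * K i : ℤ) : ZMod n)) ⊆
      ((Icc (-wm) wp) ×ˢ (range h)).image
        (fun p : ℤ × ℕ => ((p.1 + (N : ℤ) * (p.2 : ℤ) : ℤ) : ZMod n)) := by
    intro x hx
    obtain ⟨B, hB, rfl⟩ := mem_FS.mp hx
    have hup : ∑ i ∈ B, C i ≤ wp := by
      calc ∑ i ∈ B, C i ≤ ∑ i ∈ B, max (C i) 0 := sum_le_sum fun i _ => le_max_left _ _
        _ ≤ wp := sum_le_sum_of_subset_of_nonneg hB fun i _ _ => le_max_right _ _
    have hlo : -wm ≤ ∑ i ∈ B, C i := by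
      have h1 : ∑ i ∈ B, -C i ≤ wm := by
        calc ∑ i ∈ B, -C i ≤ ∑ i ∈ B, max (-C i) 0 := sum_le_sum fun i _ => le_max_left _ _
          _ ≤ wm := sum_le_sum_of_subset_of_nonneg hB fun i _ _ => le_max_right _ _
      rw [sum_neg_distrib] at h1
      omega
    set k : ℤ := ∑ i ∈ B, K i with hk
    have hh0 : (0 : ℤ) < h := by exact_mod_cast hh
    have hk0 : 0 ≤ k % (h : ℤ) := Int.emod_nonneg _ (by omega)
    have hk1 : k % (h : ℤ) < h := Int.emod_lt_of_pos _ hh0
    refine mem_image.mpr ⟨(∑ i ∈ B, C i, (k % (h : ℤ)).toNat), ?_, ?_⟩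
    · simp only [mem_product, mem_Icc, mem_range]
      refine ⟨⟨hlo, hup⟩, ?_⟩
      omega
    · simp only
      rw [Int.toNat_of_nonneg hk0]
      rw [← Int.cast_sum, ZMod.intCast_eq_intCast_iff_dvd_sub]
      rw [sum_add_distrib, ← mul_sum, ← hk]
      have h2 : k = h * (k / h) + k % h := (Int.mul_ediv_add_emod k h).symm
      refine ⟨k / h, ?_⟩
      rw [hn]
      push_cast
      linear_combination (N : ℤ) * h2
  have hwp0 : 0 ≤ wp := sum_nonneg fun i _ => le_max_right _ _
  have hwm0 : 0 ≤ wm := sum_nonneg fun i _ => le_max_right _ _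
  calc _ ≤ (((Icc (-wm) wp) ×ˢ (range h)).image
        (fun p : ℤ × ℕ => ((p.1 + (N : ℤ) * (p.2 : ℤ) : ℤ) : ZMod n))).card := card_le_card hsub
    _ ≤ ((Icc (-wm) wp) ×ˢ (range h)).card := card_image_le
    _ = (wp + 1 - -wm).toNat * h := by rw [card_product, Int.card_Icc, card_range]
    _ = h * (W + 1) := by
        have h3 : (wp + 1 - -wm).toNat = W + 1 := by omega
        rw [h3, mul_comm]

private def UpC (h t i : ℕ) : ℤ :=
  if i < t then (if i % (2 * h) < h then ((i / (2 * h) + 1 : ℕ) : ℤ) else -((i / (2 * h) + 1 : ℕ) : ℤ))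
  else 0

private def UpK (h t i : ℕ) : ℤ :=
  if i < t then ((i % (2 * h) : ℕ) : ℤ) else ((i - t + 1 : ℕ) : ℤ)

private lemma Up_absC (h t i : ℕ) : |UpC h t i| = if i < t then ((i / (2 * h) + 1 : ℕ) : ℤ) else 0 := by
  unfold UpC
  split_ifs
  · exact abs_of_nonneg (by positivity)
  · rw [abs_neg]; exact abs_of_nonneg (by positivity)
  · simp

private lemma Up_sum (h t m : ℕ) (htm : t ≤ m) :
    ∑ i ∈ range m, |UpC h t i| = ((∑ i ∈ range t, (i / (2 * h) + 1) : ℕ) : ℤ) := by
  rw [Nat.cast_sum]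
  simp_rw [Up_absC]
  rw [← sum_filter]
  refine sum_congr ?_ fun _ _ => rfl
  ext i
  simp only [mem_filter, mem_range]
  omega

private lemma Up_mainConstr (n N h t m : ℕ) (hn : n = h * N) (hh : 1 ≤ h) (ht : 1 ≤ t) (htm : t ≤ m)
    (hmt : m - t ≤ h - 1) (hcf : cf (2 * h) t < N) :
    ∃ A : Finset (ZMod n), (0 : ZMod n) ∉ A ∧ A.card = m ∧
    AddSubgroup.closure (A : Set (ZMod n)) = ⊤ ∧ (FS A id).card ≤ h * cf (2 * h) t := by
  set F : ℕ → ZMod n := fun i => ((UpC h t i + (N : ℤ) * UpK h t i : ℤ) : ZMod n) with hFdef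
  have hS := Up_sum h t m htm
  have hNpos : 0 < N := by omega
  have hcf' : cf (2 * h) t = 1 + ∑ i ∈ range t, (i / (2 * h) + 1) := rfl
  have hSlt : ∑ i ∈ range m, |UpC h t i| < (N : ℤ) - 1 := by
    rw [hS]; omega
  have hNn : (N : ℤ) ∣ (n : ℤ) := ⟨h, by rw [hn]; push_cast; ring⟩
  -- the classes
  have hone : ∀ i ∈ range m, |UpC h t i| < N := by
    intro i hi
    have h1 : |UpC h t i| ≤ ∑ k ∈ range m, |UpC h t k| :=
      single_le_sum (f := fun i => |UpC h t i|) (fun j _ => abs_nonneg _) hi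
    omega
  have htwo : ∀ i ∈ range m, ∀ j ∈ range m, i ≠ j → |UpC h t i| + |UpC h t j| < N := by
    intro i hi j hj hij
    have h1 : ∑ k ∈ ({i, j} : Finset ℕ), |UpC h t k| ≤ ∑ k ∈ range m, |UpC h t k| := by
      refine sum_le_sum_of_subset_of_nonneg ?_ fun _ _ _ => abs_nonneg _
      intro k hk
      rcases mem_insert.mp hk with rfl | hk
      · exact hi
      · rw [mem_singleton] at hk; rw [hk]; exact hj
    rw [sum_pair hij] at h1
    omega
  have hinj : Set.InjOn F ((range m : Finset ℕ) : Set ℕ) := by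
    intro i hi j hj hij
    by_contra hne
    have hi' : i ∈ range m := by exact_mod_cast hi
    have hj' : j ∈ range m := by exact_mod_cast hj
    have h2 := htwo i hi' j hj' hne
    simp only [hFdef] at hij
    rw [ZMod.intCast_eq_intCast_iff_dvd_sub] at hij
    have hdN : (N : ℤ) ∣ UpC h t j - UpC h t i := by
      have h3 := dvd_trans hNn hij
      have h4 : (N : ℤ) ∣ (N : ℤ) * (UpK h t j - UpK h t i) := dvd_mul_right _ _
      have h5 := dvd_sub h3 h4
      have h6 : UpC h t j + (N : ℤ) * UpK h t j - (UpC h t i + (N : ℤ) * UpK h t i) -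
        (N : ℤ) * (UpK h t j - UpK h t i) = UpC h t j - UpC h t i := by ring
      rwa [h6] at h5
    have hCe : UpC h t j - UpC h t i = 0 := by
      refine Int.eq_zero_of_abs_lt_dvd hdN ?_
      calc |UpC h t j - UpC h t i| ≤ |UpC h t j| + |UpC h t i| := abs_sub _ _
        _ < N := by omega
    have hdh : (h : ℤ) ∣ UpK h t j - UpK h t i := by
      have h7 : UpC h t j + (N : ℤ) * UpK h t j - (UpC h t i + (N : ℤ) * UpK h t i) =
        (N : ℤ) * (UpK h t j - UpK h t i) := by linear_combination hCe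
      rw [h7, hn] at hij
      have h8 : ((h * N : ℕ) : ℤ) = (N : ℤ) * (h : ℤ) := by push_cast; ring
      rw [h8] at hij
      exact Int.dvd_of_mul_dvd_mul_left (by positivity) hij
    have hi1 : i < m := mem_range.mp hi'
    have hj1 : j < m := mem_range.mp hj'
    have hhpos : 0 < 2 * h := by omega
    have hmi := Nat.mod_lt i hhpos
    have hmj := Nat.mod_lt j hhpos
    have hdi := Nat.div_add_mod i (2 * h)
    have hdj := Nat.div_add_mod j (2 * h)
    unfold UpC at hCe
    unfold UpK at hdh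
    generalize i / (2 * h) = qi at hdi hCe
    generalize j / (2 * h) = qj at hdj hCe
    generalize i % (2 * h) = ri at hdi hCe hdh hmi
    generalize j % (2 * h) = rj at hdj hCe hdh hmj
    have key : ∀ a : ℤ, (h : ℤ) ∣ a → |a| < h → a = 0 := fun a ha hb =>
      Int.eq_zero_of_abs_lt_dvd ha hb
    by_cases hit : i < t <;> by_cases hjt : j < t
    · simp only [hit, hjt, if_true] at hCe hdh
      by_cases hir : ri < h <;> by_cases hjr : rj < h
      · simp only [hir, hjr, if_true] at hCe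
        have h9 := key _ hdh (by rw [abs_lt]; omega)
        have h10 : qi = qj := by omega
        have h11 : ri = rj := by omega
        rw [h10, h11] at hdi
        omega
      · simp only [hir, hjr, if_true, if_false] at hCe
        push_cast at hCe
        omega
      · simp only [hir, hjr, if_true, if_false] at hCe
        push_cast at hCe
        omega
      · simp only [hir, hjr, if_false] at hCe
        have h9 := key _ hdh (by rw [abs_lt]; omega)
        have h10 : qi = qj := by omega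
        have h11 : ri = rj := by omega
        rw [h10, h11] at hdi
        omega
    · simp only [hit, hjt, if_true, if_false] at hCe
      split_ifs at hCe <;> push_cast at hCe <;> omega
    · simp only [hit, hjt, if_true, if_false] at hCe
      split_ifs at hCe <;> push_cast at hCe <;> omega
    · simp only [hit, hjt, if_false] at hdh
      have h9 := key _ hdh (by rw [abs_lt]; omega)
      omega
  have hne : ∀ i ∈ range m, F i ≠ 0 := by
    intro i hi h0
    simp only [hFdef] at h0
    rw [ZMod.intCast_zmod_eq_zero_iff_dvd] at h0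
    have hdN : (N : ℤ) ∣ UpC h t i := by
      have h3 := dvd_trans hNn h0
      have h5 := dvd_sub h3 (dvd_mul_right (N : ℤ) (UpK h t i))
      rwa [add_sub_cancel_right] at h5
    have hC0 : UpC h t i = 0 := Int.eq_zero_of_abs_lt_dvd hdN (hone i hi)
    have hit : ¬ i < t := by
      intro hit
      unfold UpC at hC0
      simp only [hit, if_true] at hC0
      generalize i / (2 * h) = qi at hC0
      split_ifs at hC0 <;> push_cast at hC0 <;> omega
    have hdh : (h : ℤ) ∣ UpK h t i := by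
      rw [hC0, zero_add, hn] at h0
      have h8 : ((h * N : ℕ) : ℤ) = (N : ℤ) * (h : ℤ) := by push_cast; ring
      rw [h8] at h0
      exact Int.dvd_of_mul_dvd_mul_left (by positivity) h0
    have hi1 : i < m := mem_range.mp hi
    unfold UpK at hdh
    simp only [hit, if_false] at hdh
    have h9 := Int.eq_zero_of_abs_lt_dvd hdh (by rw [abs_lt]; omega)
    omega
  refine ⟨(range m).image F, ?_, ?_, ?_, ?_⟩
  · intro h0
    obtain ⟨i, hi, hi0⟩ := mem_image.mp h0
    exact hne i hi hi0
  · rw [card_image_of_injOn hinj, card_range]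
  · have h1 : (1 : ZMod n) ∈ ((range m).image F : Finset (ZMod n)) := by
      refine mem_image.mpr ⟨0, mem_range.mpr (by omega), ?_⟩
      simp only [hFdef, UpC, UpK]
      have h2 : 0 < t := ht
      have h3 : 0 < h := hh
      simp [h2, h3]
    rw [eq_top_iff]
    intro x _
    have h4 : (1 : ZMod n) ∈ AddSubgroup.closure (((range m).image F : Finset (ZMod n)) : Set (ZMod n)) :=
      AddSubgroup.subset_closure (by exact_mod_cast h1)
    obtain ⟨k, rfl⟩ := ZMod.intCast_surjective x
    have h5 := AddSubgroup.zsmul_mem _ h4 k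
    rwa [zsmul_one] at h5
  · calc (FS ((range m).image F) id).card ≤ (FS (range m) F).card :=
          card_le_card (Up_FS_image _ _ hinj)
      _ ≤ h * ((∑ i ∈ range t, (i / (2 * h) + 1)) + 1) :=
          Up_card n N h m hn hh (UpC h t) (UpK h t) _ hS
      _ = h * cf (2 * h) t := by rw [hcf']; ring

private lemma Up_triv (n m : ℕ) (hn : 2 ≤ n) (hm : 1 ≤ m) (hmn : m < n) :
    ∃ A : Finset (ZMod n), (0 : ZMod n) ∉ A ∧ A.card = m ∧
    AddSubgroup.closure (A : Set (ZMod n)) = ⊤ ∧ (FS A id).card ≤ n := by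
  have : NeZero n := ⟨by omega⟩
  have hinj : Set.InjOn (fun i : ℕ => (i : ZMod n)) ((Icc 1 m : Finset ℕ) : Set ℕ) := by
    intro i hi j hj hij
    have hi1 := mem_Icc.mp (show i ∈ Icc 1 m by exact_mod_cast hi)
    have hj1 := mem_Icc.mp (show j ∈ Icc 1 m by exact_mod_cast hj)
    simp only at hij
    rw [ZMod.natCast_eq_natCast_iff] at hij
    exact Nat.ModEq.eq_of_lt_of_lt hij (by omega) (by omega)
  refine ⟨(Icc 1 m).image fun i : ℕ => (i : ZMod n), ?_, ?_, ?_, ?_⟩
  · intro h0
    obtain ⟨i, hi, hi0⟩ := mem_image.mp h0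
    have hi1 := mem_Icc.mp hi
    rw [ZMod.natCast_eq_zero_iff] at hi0
    have := Nat.le_of_dvd (by omega) hi0
    omega
  · rw [card_image_of_injOn hinj, Nat.card_Icc]
    omega
  · have h1 : (1 : ZMod n) ∈ ((Icc 1 m).image (fun i : ℕ => (i : ZMod n)) : Finset (ZMod n)) :=
      mem_image.mpr ⟨1, mem_Icc.mpr ⟨le_refl _, hm⟩, by simp⟩
    rw [eq_top_iff]
    intro x _
    have h4 : (1 : ZMod n) ∈ AddSubgroup.closure
        (((Icc 1 m).image (fun i : ℕ => (i : ZMod n)) : Finset (ZMod n)) : Set (ZMod n)) :=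
      AddSubgroup.subset_closure (by exact_mod_cast h1)
    obtain ⟨k, rfl⟩ := ZMod.intCast_surjective x
    have h5 := AddSubgroup.zsmul_mem _ h4 k
    rwa [zsmul_one] at h5
  · calc _ ≤ Fintype.card (ZMod n) := card_le_univ _
      _ = n := ZMod.card n

theorem thm_Up : St_Nm1 → St_Up := by
  intro _ n m hn hm hmn
  have hmem : bd n m ∈ ({n} ∪ {c | ∃ h, h ∣ n ∧ h < n ∧ 1 ≤ h ∧
      c = h * cf (2 * h) (max 1 (m + 1 - h))} : Set ℕ) :=
    Nat.sInf_mem ⟨n, Or.inl rfl⟩
  obtain ⟨A, hA0, hAm, hAg, hAn⟩ := Up_triv n m hn hm hmn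
  by_cases hbn : n ≤ bd n m
  · exact ⟨A, hA0, hAm, hAg, hAn.trans hbn⟩
  rcases hmem with h1 | ⟨h, hdvd, hlt, hh, hc⟩
  · rw [Set.mem_singleton_iff] at h1
    exact absurd (le_of_eq h1.symm) hbn
  obtain ⟨N, hN⟩ := hdvd
  have hcf : cf (2 * h) (max 1 (m + 1 - h)) < N := by
    have h2 : h * cf (2 * h) (max 1 (m + 1 - h)) < h * N := by
      rw [← hc, ← hN]; omega
    exact Nat.lt_of_mul_lt_mul_left h2
  obtain ⟨B, hB0, hBm, hBg, hBn⟩ := Up_mainConstr n N h (max 1 (m + 1 - h)) m hN hh
    (le_max_left _ _) (by omega) (by omega) hcf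
  exact ⟨B, hB0, hBm, hBg, by rw [hc]; exact hBn⟩

end Pool.Agent.SDG
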