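import Pool.Agent.SDG.Nm1
import Pool.Agent.SDG.Nm2
import Pool.Agent.SDG.Nm3
import Pool.Agent.SDG.Nm4
import Pool.Agent.SDG.Nm5
import Pool.Agent.SDG.Ba1
import Pool.Agent.SDG.Kn
import Pool.Agent.SDG.Kp
import Pool.Agent.SDG.Sm
import Pool.Agent.SDG.Tr
import Pool.Agent.SDG.Qu
import Pool.Agent.SDG.Av
import Pool.Agent.SDG.Gr
import Pool.Agent.SDG.Pc
import Pool.Agent.SDG.Ds
import Pool.Agent.SDG.P1
import Pool.Agent.SDG.P2
import Pool.Agent.SDG.T1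
import Pool.Agent.SDG.T2
import Pool.Agent.SDG.T3
import Pool.Agent.SDG.Co
import Pool.Agent.SDG.T5
import Pool.Agent.SDG.Se
import Pool.Agent.SDG.Lo
import Pool.Agent.SDG.Up
import Pool.Agent.SDG.Fi

/-!
# SDG: assembly (helper86)
-/

set_option autoImplicit false

noncomputable section

open Finset Pool.Agent.Helper64.Rho
open scoped Classical Pointwise

namespace Pool.Agent.SDG

theorem all_Nm1 : St_Nm1 := thm_Nm1
theorem all_Nm2 : St_Nm2 := thm_Nm2 all_Nm1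
theorem all_Nm3 : St_Nm3 := thm_Nm3 all_Nm1
theorem all_Nm4 : St_Nm4 := thm_Nm4 all_Nm1 all_Nm2
theorem all_Nm5 : St_Nm5 := thm_Nm5 all_Nm1
theorem all_Ba1 : St_Ba1 := thm_Ba1
theorem all_Kn : St_Kn := thm_Kn
theorem all_Kp : St_Kp := thm_Kp all_Ba1 all_Kn
theorem all_Sm : St_Sm := thm_Sm all_Ba1
theorem all_Tr : St_Tr := thm_Tr
theorem all_Qu : St_Qu := thm_Qu all_Ba1
theorem all_Av : St_Av := thm_Av
theorem all_Gr : St_Gr := thm_Gr all_Kn
theorem all_Pc : St_Pc := thm_Pc all_Ba1 all_Sm all_Kn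
theorem all_Ds : St_Ds := thm_Ds all_Ba1
theorem all_P1 : St_P1 := thm_P1 all_Nm1 all_Nm2 all_Nm4 all_Ba1 all_Kn all_Sm all_Qu all_Pc
theorem all_P2 : St_P2 := thm_P2 all_Nm1 all_Nm2 all_Ba1 all_Tr all_Av all_Gr all_Ds all_P1
theorem all_T1 : St_T1 := thm_T1 all_Nm2 all_Ba1
theorem all_T2 : St_T2 := thm_T2 all_Nm1 all_Nm5 all_Ba1 all_Kn all_T1
theorem all_T3 : St_T3 := thm_T3 all_Nm1 all_Nm5 all_Ba1 all_Kn all_T1
theorem all_Co : St_Co := thm_Co
theorem all_T5 : St_T5 := thm_T5 all_Nm1 all_Nm3 all_Ba1 all_Kp all_T2 all_T3 all_Co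

theorem all_main : St_main := by
  intro t
  induction t using Nat.strong_induction_on with
  | _ t ih =>
    exact ⟨all_P2 t (fun u hu => (ih u hu).1) (fun u hu h hh => (ih u hu).2 h hh),
      fun h hh => all_T5 h t hh (fun n hn => (ih n hn).2 2 le_rfl) (fun n hn => (ih n hn).1)⟩

theorem all_Se : St_Se := thm_Se all_Ba1 all_Qu all_main
theorem all_Lo : St_Lo := thm_Lo all_Nm1 all_Nm2 all_Se
theorem all_Up : St_Up := thm_Up all_Nm1
theorem all_Fi : St_Fi := thm_Fi all_Lo all_Up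

end Pool.Agent.SDG
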