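import Pool.Agent.SDG.St

/-!
SDG [Nm1]: closed forms for `cf`.
-/

set_option autoImplicit false

open Finset Pool.Agent.Helper64.Rho
open scoped Classical Pointwise

namespace Pool.Agent.SDG

theorem Nm1_succ (g t : ℕ) : cf g (t + 1) = cf g t + t / g + 1 := by
  unfold cf
  rw [Finset.sum_range_succ]
  ring

theorem Nm1_zero (g : ℕ) : cf g 0 = 1 := by simp [cf]

theorem Nm1_step (g a : ℕ) (hg : 1 ≤ g) (r : ℕ) (hr : r ≤ g) :
    cf g (g * a + r) = cf g (g * a) + r * (a + 1) := by
  induction r with
  | zero => simp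
  | succ r ih =>
    have h1 : (g * a + r) / g = a := by
      rw [Nat.mul_add_div (by omega), Nat.div_eq_of_lt (by omega), add_zero]
    rw [← add_assoc, Nm1_succ, ih (by omega), h1]
    ring

theorem Nm1_block (g a : ℕ) (hg : 1 ≤ g) : 2 * cf g (g * a) = 2 + g * a * (a + 1) := by
  induction a with
  | zero => simp [Nm1_zero]
  | succ a ih =>
    have h1 := Nm1_step g a hg g le_rfl
    have h2 : g * (a + 1) = g * a + g := by ring
    rw [h2, h1, mul_add, ih]
    ring

/-- [Nm1] -/
theorem thm_Nm1 : St_Nm1 := by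
  have hblock : ∀ g a r : ℕ, 1 ≤ g → r ≤ g →
      2 * cf g (g * a + r) = 2 + g * a * (a + 1) + 2 * r * (a + 1) := by
    intro g a r hg hr
    rw [Nm1_step g a hg r hr, mul_add, Nm1_block g a hg]
    ring
  refine ⟨Nm1_succ, hblock, ?_, ?_, ?_, ?_⟩
  · intro t
    rcases Nat.even_or_odd' t with ⟨b, rfl | rfl⟩
    · have h := hblock 2 b 0 (by norm_num) (by norm_num)
      have e : (2 * b + 1) ^ 2 = 4 * (b * b + b) + 1 := by ring
      rw [e]
      have e2 : (4 * (b * b + b) + 1) / 4 = b * b + b := by omega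
      rw [e2]
      simp only [add_zero, mul_zero, zero_mul] at h
      have e3 : 2 * b * (b + 1) = 2 * (b * b + b) := by ring
      omega
    · have h := hblock 2 b 1 (by norm_num) (by norm_num)
      have e : (2 * b + 1 + 1) ^ 2 = 4 * (b * b + 2 * b + 1) := by ring
      rw [e]
      have e2 : (4 * (b * b + 2 * b + 1)) / 4 = b * b + 2 * b + 1 := by omega
      rw [e2]
      have e3 : 2 * b * (b + 1) = 2 * (b * b) + 2 * b := by ring
      omega
  · intro g t t' h
    unfold cf
    have := Finset.sum_le_sum_of_subset (f := fun i => i / g + 1) (Finset.range_mono h)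
    omega
  · intro g g' t hg h
    unfold cf
    have : ∑ i ∈ range t, (i / g' + 1) ≤ ∑ i ∈ range t, (i / g + 1) :=
      Finset.sum_le_sum fun i _ => Nat.add_le_add_right (Nat.div_le_div_left h hg) 1
    omega
  · intro g t
    induction t with
    | zero => rw [Nm1_zero]
    | succ t ih =>
      rw [Nm1_succ]
      generalize t / g = c
      omega

end Pool.Agent.SDG
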