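import Pool.Agent.SDG.St

/-!
# SDG, module T1 (helper86): gain of a drop
-/

set_option autoImplicit false

noncomputable section

open Finset Pool.Agent.Helper64.Rho
open scoped Classical Pointwise

namespace Pool.Agent.SDG

theorem thm_T1 (hNm2 : St_Nm2) (hBa : St_Ba1) : St_T1 := by
  intro G ι _ _ V f z hz hTT hnz hcap hap hg hV
  obtain ⟨-, -, -, h4, -, -, -⟩ := hBa G ι f
  have h5 := h4 (insert z V) z (Finset.mem_insert_self z V)
  rw [Finset.erase_insert hz] at h5
  have h6 := h5 hg
  have h7 := hTT G ι V f rfl hnz hcap hap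
  have h8 := hNm2.1 V.card
  unfold Vio at hV
  rw [Finset.card_insert_of_notMem hz] at hV
  norm_num at h7
  omega

end Pool.Agent.SDG
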