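import Pool.Agent.SDG.All

/-!
# SDG UpQ: the construction in a group with a cyclic quotient
-/

set_option autoImplicit false

noncomputable section

open Finset Pool.Agent.Helper64.Rho
open scoped Classical Pointwise

namespace Pool.Agent.SDG

private lemma UpQ_FS_image {ι G : Type*} [AddCommGroup G] [DecidableEq G] (s : Finset ι) (F : ι → G)
    (hF : Set.InjOn F (s : Set ι)) : (FS (s.image F) id) ⊆ FS s F := by
  intro x hx
  obtain ⟨B, hB, rfl⟩ := mem_FS.mp hx
  refine mem_FS.mpr ⟨s.filter fun i => F i ∈ B, filter_subset _ _, ?_⟩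
  have hBe : (s.filter fun i => F i ∈ B).image F = B := by
    ext y
    simp only [mem_image, mem_filter]
    constructor
    · rintro ⟨i, ⟨_, h⟩, rfl⟩
      exact h
    · intro hy
      obtain ⟨i, hi, rfl⟩ := mem_image.mp (hB hy)
      exact ⟨i, ⟨hi, hy⟩, rfl⟩
  conv_rhs => rw [← hBe]
  rw [sum_image]
  · simp
  · intro i hi j hj hij
    exact hF (by have := (mem_filter.mp hi).1; exact_mod_cast this)
      (by have := (mem_filter.mp hj).1; exact_mod_cast this) hij

/-- a family whose `i`-th member is in the coset `C i • g + H` -/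
private lemma UpQ_card {G ι : Type*} [AddCommGroup G] [Finite G] (H : AddSubgroup G) (g : G)
    (s : Finset ι) (f : ι → G) (C : ι → ℤ) (hC : ∀ i ∈ s, f i - C i • g ∈ H) (W : ℕ)
    (hW : ∑ i ∈ s, |C i| = (W : ℤ)) :
    (FS s f).card ≤ Nat.card H * (W + 1) := by
  set wp : ℤ := ∑ i ∈ s, max (C i) 0 with hwp
  set wm : ℤ := ∑ i ∈ s, max (-C i) 0 with hwm
  have hsum : wp + wm = W := by
    rw [← hW, hwp, hwm, ← sum_add_distrib]
    refine sum_congr rfl fun i _ => ?_
    rcases le_total 0 (C i) with h0 | h0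
    · rw [max_eq_left h0, max_eq_right (by omega), abs_of_nonneg h0, add_zero]
    · rw [max_eq_right h0, max_eq_left (by omega), abs_of_nonpos h0, zero_add]
  have : Fintype H := Fintype.ofFinite H
  have hsub : FS s f ⊆ ((Icc (-wm) wp) ×ˢ (univ : Finset H)).image
        (fun p : ℤ × H => p.1 • g + (p.2 : G)) := by
    intro x hx
    obtain ⟨B, hB, rfl⟩ := mem_FS.mp hx
    have hup : ∑ i ∈ B, C i ≤ wp := by
      calc ∑ i ∈ B, C i ≤ ∑ i ∈ B, max (C i) 0 := sum_le_sum fun i _ => le_max_left _ _
        _ ≤ wp := sum_le_sum_of_subset_of_nonneg hB fun i _ _ => le_max_right _ _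
    have hlo : -wm ≤ ∑ i ∈ B, C i := by
      have h1 : ∑ i ∈ B, -C i ≤ wm := by
        calc ∑ i ∈ B, -C i ≤ ∑ i ∈ B, max (-C i) 0 := sum_le_sum fun i _ => le_max_left _ _
          _ ≤ wm := sum_le_sum_of_subset_of_nonneg hB fun i _ _ => le_max_right _ _
      rw [sum_neg_distrib] at h1
      omega
    have hmem : ∑ i ∈ B, f i - (∑ i ∈ B, C i) • g ∈ H := by
      rw [sum_smul, ← sum_sub_distrib]
      exact sum_mem fun i hi => hC i (hB hi)
    refine mem_image.mpr ⟨(∑ i ∈ B, C i, ⟨_, hmem⟩), ?_, ?_⟩
    · simp only [mem_product, mem_Icc, mem_univ, and_true]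
      exact ⟨hlo, hup⟩
    · simp only
      abel
  have hwp0 : 0 ≤ wp := sum_nonneg fun i _ => le_max_right _ _
  have hwm0 : 0 ≤ wm := sum_nonneg fun i _ => le_max_right _ _
  calc _ ≤ (((Icc (-wm) wp) ×ˢ (univ : Finset H)).image
        (fun p : ℤ × H => p.1 • g + (p.2 : G))).card := card_le_card hsub
    _ ≤ ((Icc (-wm) wp) ×ˢ (univ : Finset H)).card := card_image_le
    _ = (wp + 1 - -wm).toNat * Nat.card H := by
        rw [card_product, Int.card_Icc, card_univ, Nat.card_eq_fintype_card]
    _ = Nat.card H * (W + 1) := by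
        have h3 : (wp + 1 - -wm).toNat = W + 1 := by omega
        rw [h3, mul_comm]

private def UqC (h i : ℕ) : ℤ :=
  if i % (2 * h) < h then ((i / (2 * h) + 1 : ℕ) : ℤ) else -((i / (2 * h) + 1 : ℕ) : ℤ)

private lemma Uq_abs (h i : ℕ) : |UqC h i| = ((i / (2 * h) + 1 : ℕ) : ℤ) := by
  unfold UqC
  split_ifs
  · exact abs_of_nonneg (by positivity)
  · rw [abs_neg]; exact abs_of_nonneg (by positivity)

private lemma UpQ_main {G : Type} [AddCommGroup G] [Finite G] (H : AddSubgroup G)
    [hcyc : IsAddCyclic (G ⧸ H)] (t : ℕ) (ht : 1 ≤ t) (U : Finset G) (hU : ∀ x ∈ U, x ∈ H)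
    (hU0 : (0 : G) ∉ U) (hUg : AddSubgroup.closure (U : Set G) = H)
    (hcf : Nat.card H * cf (2 * Nat.card H) t < Nat.card G) :
    ∃ A : Finset G, (0 : G) ∉ A ∧ A.card = t + U.card ∧ AddSubgroup.closure (A : Set G) = ⊤ ∧
      (FS A id).card ≤ Nat.card H * cf (2 * Nat.card H) t := by
  set h := Nat.card H with hh
  have hh1 : 1 ≤ h := Nat.card_pos
  obtain ⟨γ, hγ⟩ := hcyc.exists_generator
  obtain ⟨g, rfl⟩ := QuotientAddGroup.mk_surjective γ
  set N := Nat.card (G ⧸ H) with hN
  have hnN : Nat.card G = N * h := AddSubgroup.card_eq_card_quotient_mul_card_addSubgroup H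
  have hcfN : cf (2 * h) t < N := by
    rw [hnN, mul_comm] at hcf
    exact Nat.lt_of_mul_lt_mul_right hcf
  have hord : addOrderOf (g : G ⧸ H) = N := addOrderOf_eq_card_of_forall_mem_zmultiples hγ
  -- a multiple of g in H
  have hkey : ∀ k : ℤ, k • g ∈ H → |k| < N → k = 0 := by
    intro k hk hlt
    have h1 : k • (g : G ⧸ H) = 0 := by
      rw [← QuotientAddGroup.mk_zsmul, QuotientAddGroup.eq_zero_iff]
      exact hk
    have h2 : (N : ℤ) ∣ k := by
      rw [← hord]
      exact (addOrderOf_dvd_iff_zsmul_eq_zero).2 h1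
    exact Int.eq_zero_of_abs_lt_dvd h2 hlt
  have : Fintype H := Fintype.ofFinite H
  have hcard : Fintype.card H = h := by rw [hh, Nat.card_eq_fintype_card]
  have hex : ∃ e : ℕ → H, ∀ i < h, ∀ j < h, e i = e j → i = j := by
    have e0 : H ≃ Fin h := (Fintype.equivFinOfCardEq hcard)
    refine ⟨fun i => if hi : i < h then e0.symm ⟨i, hi⟩ else 0, ?_⟩
    intro i hi j hj hij
    simp only [hi, hj, dif_pos] at hij
    have := e0.symm.injective hij
    simpa using this
  obtain ⟨e, he⟩ := hex
  set F : ℕ → G := fun i => UqC h i • g + (e (i % h) : G) with hF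
  have hcf' : cf (2 * h) t = 1 + ∑ i ∈ range t, (i / (2 * h) + 1) := rfl
  have hSum : ∑ i ∈ range t, |UqC h i| = ((∑ i ∈ range t, (i / (2 * h) + 1) : ℕ) : ℤ) := by
    rw [Nat.cast_sum]
    exact sum_congr rfl fun i _ => Uq_abs h i
  have hSlt : ∑ i ∈ range t, |UqC h i| < (N : ℤ) := by
    rw [hSum]; omega
  have hone : ∀ i ∈ range t, |UqC h i| < N := by
    intro i hi
    have h1 : |UqC h i| ≤ ∑ k ∈ range t, |UqC h k| :=
      single_le_sum (f := fun i => |UqC h i|) (fun j _ => abs_nonneg _) hi
    omega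
  have htwo : ∀ i ∈ range t, ∀ j ∈ range t, i ≠ j → |UqC h i| + |UqC h j| < N := by
    intro i hi j hj hij
    have h1 : ∑ k ∈ ({i, j} : Finset ℕ), |UqC h k| ≤ ∑ k ∈ range t, |UqC h k| := by
      refine sum_le_sum_of_subset_of_nonneg ?_ fun _ _ _ => abs_nonneg _
      intro k hk
      rcases mem_insert.mp hk with rfl | hk
      · exact hi
      · rw [mem_singleton] at hk; rw [hk]; exact hj
    rw [sum_pair hij] at h1
    omega
  have hCne : ∀ i, UqC h i ≠ 0 := by
    intro i h0
    have h1 := Uq_abs h i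
    rw [h0, abs_zero] at h1
    push_cast at h1
    have h2 : (0 : ℤ) ≤ (i : ℤ) / (2 * (h : ℤ)) := Int.ediv_nonneg (by positivity) (by positivity)
    omega
  have hFH : ∀ i ∈ range t, F i ∉ H := by
    intro i hi h0
    have h1 : UqC h i • g ∈ H := by
      have h2 := H.sub_mem h0 (e (i % h)).2
      simpa [hF] using h2
    exact hCne i (hkey _ h1 (hone i hi))
  have hFinj : Set.InjOn F ((range t : Finset ℕ) : Set ℕ) := by
    intro i hi j hj hij
    by_contra hne
    have hi' : i ∈ range t := by exact_mod_cast hi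
    have hj' : j ∈ range t := by exact_mod_cast hj
    have h2 := htwo i hi' j hj' hne
    have h3 : (UqC h i - UqC h j) • g ∈ H := by
      have h4 : (UqC h i - UqC h j) • g = (e (j % h) : G) - (e (i % h) : G) := by
        simp only [hF] at hij
        rw [sub_smul]
        have h5 := sub_eq_zero.2 hij
        rw [← sub_eq_zero]
        rw [← h5]
        abel
      rw [h4]
      exact H.sub_mem (e (j % h)).2 (e (i % h)).2
    have h6 := hkey _ h3 (lt_of_le_of_lt (abs_sub _ _) h2)
    have h7 : UqC h i = UqC h j := sub_eq_zero.1 h6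
    have h8 : e (i % h) = e (j % h) := by
      simp only [hF, h7] at hij
      exact Subtype.ext (add_left_cancel hij)
    have h9 := he _ (Nat.mod_lt i (by omega)) _ (Nat.mod_lt j (by omega)) h8
    have hhpos : 0 < 2 * h := by omega
    have hmi := Nat.mod_lt i hhpos
    have hmj := Nat.mod_lt j hhpos
    have hdi := Nat.div_add_mod i (2 * h)
    have hdj := Nat.div_add_mod j (2 * h)
    have hri : i % h = i % (2 * h) % h := (Nat.mod_mod_of_dvd i (Dvd.intro_left 2 rfl)).symm
    have hrj : j % h = j % (2 * h) % h := (Nat.mod_mod_of_dvd j (Dvd.intro_left 2 rfl)).symm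
    rw [hri, hrj] at h9
    have hsmall : ∀ r, r < h → r % h = r := fun r hr => Nat.mod_eq_of_lt hr
    have hbig : ∀ r, h ≤ r → r < 2 * h → r % h = r - h := by
      intro r hr1 hr2
      rw [Nat.mod_eq_sub_mod hr1, Nat.mod_eq_of_lt (by omega)]
    unfold UqC at h7
    generalize i / (2 * h) = qi at hdi h7
    generalize j / (2 * h) = qj at hdj h7
    generalize i % (2 * h) = ri at hdi h7 h9 hmi hri
    generalize j % (2 * h) = rj at hdj h7 h9 hmj hrj
    by_cases hir : ri < h <;> by_cases hjr : rj < h
    · simp only [hir, hjr, if_true] at h7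
      rw [hsmall _ hir, hsmall _ hjr] at h9
      have h10 : qi = qj := by omega
      rw [h10, h9] at hdi
      omega
    · simp only [hir, hjr, if_true, if_false] at h7
      push_cast at h7
      omega
    · simp only [hir, hjr, if_true, if_false] at h7
      push_cast at h7
      omega
    · simp only [hir, hjr, if_false] at h7
      rw [hbig _ (by omega) hmi, hbig _ (by omega) hmj] at h9
      have h10 : qi = qj := by omega
      have h11 : ri = rj := by omega
      rw [h10, h11] at hdi
      omega
  -- the family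
  set s : Finset (ℕ ⊕ G) := (range t).disjSum U with hs
  set f : ℕ ⊕ G → G := Sum.elim F id with hf
  have hinj : Set.InjOn f (s : Set (ℕ ⊕ G)) := by
    rintro (i | x) hi (j | y) hj hij
    · have hi' : i ∈ range t := by simpa [hs] using hi
      have hj' : j ∈ range t := by simpa [hs] using hj
      have := hFinj (by exact_mod_cast hi') (by exact_mod_cast hj') (by simpa [hf] using hij)
      rw [this]
    · exfalso
      have hi' : i ∈ range t := by simpa [hs] using hi
      have hj' : y ∈ U := by simpa [hs] using hj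
      have h1 : F i = y := by simpa [hf] using hij
      exact hFH i hi' (h1 ▸ hU y hj')
    · exfalso
      have hi' : x ∈ U := by simpa [hs] using hi
      have hj' : j ∈ range t := by simpa [hs] using hj
      have h1 : x = F j := by simpa [hf] using hij
      exact hFH j hj' (h1 ▸ hU x hi')
    · have h1 : x = y := by simpa [hf] using hij
      rw [h1]
  refine ⟨s.image f, ?_, ?_, ?_, ?_⟩
  · intro h0
    obtain ⟨i | x, hi, hi0⟩ := mem_image.mp h0
    · have hi' : i ∈ range t := by simpa [hs] using hi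
      have h1 : F i = 0 := by simpa [hf] using hi0
      exact hFH i hi' (h1 ▸ H.zero_mem)
    · have hi' : x ∈ U := by simpa [hs] using hi
      have h1 : x = 0 := by simpa [hf] using hi0
      exact hU0 (h1 ▸ hi')
  · rw [card_image_of_injOn hinj, hs, card_disjSum, card_range]
  · have hHle : H ≤ AddSubgroup.closure ((s.image f : Finset G) : Set G) := by
      rw [← hUg]
      refine AddSubgroup.closure_mono ?_
      intro x hx
      have hx' : x ∈ U := by exact_mod_cast hx
      have : x ∈ s.image f := mem_image.mpr ⟨Sum.inr x, by simpa [hs] using hx', rfl⟩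
      exact_mod_cast this
    have hF0 : F 0 ∈ AddSubgroup.closure ((s.image f : Finset G) : Set G) := by
      refine AddSubgroup.subset_closure ?_
      have : F 0 ∈ s.image f := mem_image.mpr ⟨Sum.inl 0, by simp [hs]; omega, rfl⟩
      exact_mod_cast this
    have hgm : g ∈ AddSubgroup.closure ((s.image f : Finset G) : Set G) := by
      have h1 : F 0 = g + (e 0 : G) := by
        simp only [hF, UqC]
        have : 0 < h := hh1
        simp [this]
      have h2 := AddSubgroup.sub_mem _ hF0 (hHle (e 0).2)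
      rwa [h1, add_sub_cancel_right] at h2
    rw [eq_top_iff]
    intro x _
    obtain ⟨k, hk⟩ := AddSubgroup.mem_zmultiples_iff.1 (hγ (x : G ⧸ H))
    have h3 : -(k • g) + x ∈ H := by
      rw [← QuotientAddGroup.eq, QuotientAddGroup.mk_zsmul]
      exact hk
    have h4 := AddSubgroup.add_mem _ (AddSubgroup.zsmul_mem _ hgm k) (hHle h3)
    rwa [add_neg_cancel_left] at h4
  · calc (FS (s.image f) id).card ≤ (FS s f).card := card_le_card (UpQ_FS_image _ _ hinj)
      _ ≤ h * ((∑ i ∈ range t, (i / (2 * h) + 1)) + 1) := by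
          refine UpQ_card H g s f (Sum.elim (UqC h) fun _ => 0) ?_ _ ?_
          · rintro (i | x) hi
            · simp only [hf, hF, Sum.elim_inl]
              rw [add_sub_cancel_left]
              exact (e (i % h)).2
            · simp only [hf, Sum.elim_inr, zero_smul, sub_zero, id]
              exact hU x (by simpa [hs] using hi)
          · rw [hs, sum_disjSum]
            simp only [Sum.elim_inl, Sum.elim_inr, abs_zero, sum_const_zero, add_zero]
            exact hSum
      _ = h * cf (2 * h) t := by rw [hcf']; ring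

/-- a small generating set -/
private lemma UpQ_gen {G : Type} [AddCommGroup G] [Finite G] (H : AddSubgroup G) :
    ∃ S : Finset G, (0 : G) ∉ S ∧ AddSubgroup.closure (S : Set G) = H ∧ 2 ^ S.card ≤ Nat.card H := by
  have : Fintype G := Fintype.ofFinite G
  -- the candidates
  set P : Finset (Finset G) := univ.filter fun S => (0 : G) ∉ S ∧ (S : Set G) ⊆ H ∧
    2 ^ S.card ≤ Nat.card (AddSubgroup.closure (S : Set G)) with hP
  have hne : P.Nonempty := by
    refine ⟨∅, ?_⟩
    simp [hP]
  obtain ⟨S, hS, hmax⟩ := exists_max_image P (fun S => S.card) hne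
  obtain ⟨hS0, hSH, hS2⟩ := (mem_filter.1 hS).2
  have hle : AddSubgroup.closure (S : Set G) ≤ H := (AddSubgroup.closure_le H).2 hSH
  have heq : AddSubgroup.closure (S : Set G) = H := by
    refine le_antisymm hle ?_
    intro x hx
    by_contra hxS
    have hx0 : x ≠ 0 := fun h => hxS (h ▸ AddSubgroup.zero_mem _)
    have hxS' : x ∉ S := fun h => hxS (AddSubgroup.subset_closure (by exact_mod_cast h))
    have hlt : AddSubgroup.closure (S : Set G) < AddSubgroup.closure ((insert x S : Finset G) : Set G) := by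
      refine lt_of_le_of_ne (AddSubgroup.closure_mono (by simp)) ?_
      intro h
      refine hxS ?_
      rw [h]
      exact AddSubgroup.subset_closure (by simp)
    have hdvd : Nat.card (AddSubgroup.closure (S : Set G)) ∣
        Nat.card (AddSubgroup.closure ((insert x S : Finset G) : Set G)) :=
      AddSubgroup.card_dvd_of_le hlt.le
    have hltc : Nat.card (AddSubgroup.closure (S : Set G)) <
        Nat.card (AddSubgroup.closure ((insert x S : Finset G) : Set G)) := by
      have h1 : ((AddSubgroup.closure (S : Set G) : AddSubgroup G) : Set G) ⊂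
        ((AddSubgroup.closure ((insert x S : Finset G) : Set G) : AddSubgroup G) : Set G) := hlt
      exact Set.ncard_lt_ncard h1 (Set.toFinite _)
    obtain ⟨k, hk⟩ := hdvd
    have hk2 : 2 ≤ k := by
      by_contra hk2
      have : k ≤ 1 := by omega
      have : Nat.card (AddSubgroup.closure (S : Set G)) * k ≤ Nat.card (AddSubgroup.closure (S : Set G)) * 1 :=
        Nat.mul_le_mul_left _ this
      omega
    have hmem : insert x S ∈ P := by
      rw [hP, mem_filter]
      refine ⟨mem_univ _, ?_, ?_, ?_⟩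
      · rw [mem_insert]
        rintro (h | h)
        · exact hx0 h.symm
        · exact hS0 h
      · rw [coe_insert]
        exact Set.insert_subset hx hSH
      · rw [card_insert_of_notMem hxS', hk, pow_succ]
        exact Nat.mul_le_mul hS2 hk2
    have h2 := hmax _ hmem
    rw [card_insert_of_notMem hxS'] at h2
    omega
  exact ⟨S, hS0, heq, by rw [← heq]; exact hS2⟩

private lemma UpQ_two (m : ℕ) (hm : 1 ≤ m) : (m + 1) ^ 2 + 8 ≤ 8 * 2 ^ m := by
  induction m, hm using Nat.le_induction with
  | base => norm_num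
  | succ k hk ih =>
    rw [pow_succ 2 k]
    nlinarith

/-- the construction -/
theorem UpQ {G : Type} [AddCommGroup G] [Finite G] (H : AddSubgroup G) [IsAddCyclic (G ⧸ H)] (m : ℕ)
    (hm : 1 ≤ m) (hn : 2 ≤ Nat.card G)
    (hb : Nat.card H * cf (2 * Nat.card H) (max 1 (m + 1 - Nat.card H)) ≤ bd (Nat.card G) m)
    (hbn : bd (Nat.card G) m < Nat.card G) :
    ∃ A : Finset G, (0 : G) ∉ A ∧ A.card = m ∧ AddSubgroup.closure (A : Set G) = ⊤ ∧
      (FS A id).card ≤ bd (Nat.card G) m := by
  have hh1 : 1 ≤ Nat.card H := Nat.card_pos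
  have hlt := lt_of_le_of_lt hb hbn
  have : Fintype G := Fintype.ofFinite G
  -- the set of the nonzero elements
  set V : Finset G := univ.filter fun x => x ∈ H ∧ x ≠ 0 with hV
  have hVc : V.card + 1 = Nat.card H := by
    have h1 : (univ.filter fun x : G => x ∈ H).card = Nat.card H := by
      rw [← Set.ncard_coe_finset]
      congr 1
      simp
    have h2 : V = (univ.filter fun x : G => x ∈ H).erase 0 := by
      ext x
      simp only [hV, mem_filter, mem_univ, true_and, mem_erase]
      tauto
    rw [h2, ← h1]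
    exact card_erase_add_one (by simp)
  have hex : ∃ U : Finset G, (∀ x ∈ U, x ∈ H) ∧ (0 : G) ∉ U ∧ AddSubgroup.closure (U : Set G) = H ∧
      max 1 (m + 1 - Nat.card H) + U.card = m := by
    by_cases hc : Nat.card H ≤ m
    · refine ⟨V, ?_, ?_, ?_, ?_⟩
      · intro x hx
        exact (mem_filter.1 hx).2.1
      · intro h0
        exact (mem_filter.1 h0).2.2 rfl
      · refine le_antisymm ((AddSubgroup.closure_le H).2 ?_) ?_
        · intro x hx
          have : x ∈ V := by exact_mod_cast hx
          exact (mem_filter.1 this).2.1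
        · intro x hx
          by_cases hx0 : x = 0
          · rw [hx0]; exact AddSubgroup.zero_mem _
          · refine AddSubgroup.subset_closure ?_
            have : x ∈ V := mem_filter.2 ⟨mem_univ _, hx, hx0⟩
            exact_mod_cast this
      · omega
    · obtain ⟨S, hS0, hSg, hS2⟩ := UpQ_gen H
      have hSV : S ⊆ V := by
        intro x hx
        refine mem_filter.2 ⟨mem_univ _, ?_, fun h => hS0 (h ▸ hx)⟩
        rw [← hSg]
        exact AddSubgroup.subset_closure (by exact_mod_cast hx)
      have ht : max 1 (m + 1 - Nat.card H) = 1 := by omega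
      -- the size
      have hcf1 : cf (2 * Nat.card H) 1 = 2 := by simp [cf]
      have hbd1 : bd (Nat.card G) m ≤ cf 2 m := by
        refine Nat.sInf_le (Or.inr ⟨1, one_dvd _, by omega, le_refl _, ?_⟩)
        have : max 1 (m + 1 - 1) = m := by omega
        rw [this, one_mul, mul_one]
      have hcl := all_Nm1.2.2.1 m
      rw [ht, hcf1] at hb
      have h4 : 4 * ((m + 1) ^ 2 / 4) ≤ (m + 1) ^ 2 := Nat.mul_div_le _ _
      have h5 := UpQ_two m hm
      have h6 : 2 ^ S.card < 2 ^ m := by omega
      have h7 : S.card < m := (Nat.pow_lt_pow_iff_right (by norm_num)).1 h6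
      obtain ⟨U, hSU, hUV, hUc⟩ := exists_subsuperset_card_eq hSV (show S.card ≤ m - 1 by omega)
        (by omega)
      refine ⟨U, ?_, ?_, ?_, ?_⟩
      · intro x hx
        exact (mem_filter.1 (hUV hx)).2.1
      · intro h0
        exact (mem_filter.1 (hUV h0)).2.2 rfl
      · refine le_antisymm ((AddSubgroup.closure_le H).2 ?_) ?_
        · intro x hx
          have : x ∈ U := by exact_mod_cast hx
          exact (mem_filter.1 (hUV this)).2.1
        · rw [← hSg]
          exact AddSubgroup.closure_mono (by exact_mod_cast hSU)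
      · omega
  obtain ⟨U, hU, hU0, hUg, hUc⟩ := hex
  obtain ⟨A, hA0, hAc, hAg, hAn⟩ := UpQ_main H (max 1 (m + 1 - Nat.card H)) (le_max_left _ _) U hU hU0 hUg hlt
  exact ⟨A, hA0, hAc.trans hUc, hAg, hAn.trans hb⟩

/-- the final statement -/
theorem all_Fq (G : Type) [AddCommGroup G] [Finite G] (m : ℕ) (hm : 1 ≤ m) (hn : 2 ≤ Nat.card G)
    (hR : Rg (Nat.card G) m) :
    ((sizes G m).Nonempty → bd (Nat.card G) m ≤ rho G m) ∧
    ((bd (Nat.card G) m = Nat.card G ∧ (sizes G m).Nonempty ∨
      bd (Nat.card G) m < Nat.card G ∧ ∃ H : AddSubgroup G, IsAddCyclic (G ⧸ H) ∧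
        Nat.card H * cf (2 * Nat.card H) (max 1 (m + 1 - Nat.card H)) = bd (Nat.card G) m) →
      (sizes G m).Nonempty ∧ rho G m = bd (Nat.card G) m) := by
  have h1 : ∀ k ∈ sizes G m, bd (Nat.card G) m ≤ k := by
    rintro k ⟨A, h0, hA, hgen, rfl⟩
    rw [Fi_ncard]
    subst hA
    exact all_Lo G A h0 hm hgen hR
  refine ⟨fun hne => h1 _ (Nat.sInf_mem hne), ?_⟩
  rintro (⟨hb, hne⟩ | ⟨hb, H, hcyc, hH⟩)
  · refine ⟨hne, le_antisymm ?_ (h1 _ (Nat.sInf_mem hne))⟩
    rw [hb]
    obtain ⟨k, hk⟩ := hne
    refine (Nat.sInf_le hk).trans ?_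
    obtain ⟨A, h0, hA, hgen, rfl⟩ := hk
    rw [← Set.ncard_univ]
    exact Set.ncard_le_ncard (Set.subset_univ _) (Set.toFinite _)
  · obtain ⟨A, h0, hA, hgen, hle⟩ := UpQ H m hm hn hH.le hb
    have hmem : (FS A id).card ∈ sizes G m := ⟨A, h0, hA, hgen, Fi_ncard A⟩
    exact ⟨⟨_, hmem⟩, le_antisymm ((Nat.sInf_le hmem).trans hle) (h1 _ (Nat.sInf_mem ⟨_, hmem⟩))⟩

end Pool.Agent.SDG
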